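import Mathlib
import Pool.Agent.MP_918781_an.Four

-- part MP_918781_an.Prof
section

/-! Parametric integrals, profiles of even functions in the variable `σ = s^2`, the Abel map. -/

namespace Pool.Agent.MP_918781_an

open MeasureTheory Filter Topology Real Set
open scoped ContDiff

lemma hasDerivAt_param {F F' : ℝ → ℝ → ℝ} (hF : Continuous (Function.uncurry F))
    (hF' : Continuous (Function.uncurry F')) {U : Set ℝ} (hU : IsOpen U)
    (hd : ∀ s ∈ U, ∀ t, HasDerivAt (fun s => F s t) (F' s t) s) (a b : ℝ) {s : ℝ} (hs : s ∈ U) :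
    HasDerivAt (fun s => ∫ t in a..b, F s t) (∫ t in a..b, F' s t) s := by
  obtain ⟨C, hC⟩ := ((isCompact_closedBall s 1).prod (isCompact_uIcc (a := a) (b := b))).exists_bound_of_continuousOn
    hF'.continuousOn
  have hc : ∀ x, Continuous (F x) := fun x => hF.comp (Continuous.prodMk_right x)
  have hc' : ∀ x, Continuous (F' x) := fun x => hF'.comp (Continuous.prodMk_right x)
  refine (intervalIntegral.hasDerivAt_integral_of_dominated_loc_of_deriv_le
    (s := U ∩ Metric.ball s 1) (bound := fun _ => C)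
    (inter_mem (hU.mem_nhds hs) (Metric.ball_mem_nhds s one_pos))
    (Eventually.of_forall fun x => (hc x).aestronglyMeasurable) ((hc s).intervalIntegrable _ _)
    (hc' s).aestronglyMeasurable ?_ intervalIntegrable_const ?_).2
  · exact Eventually.of_forall fun t ht x hx =>
      hC (x, t) ⟨Metric.ball_subset_closedBall hx.2, uIoc_subset_uIcc ht⟩
  · exact Eventually.of_forall fun t _ x hx => hd x hx.1 t

lemma contDiff_param_nat (a b : ℝ) (n : ℕ) : ∀ G : ℝ × ℝ → ℝ, ContDiff ℝ ∞ G →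
    ContDiff ℝ n (fun s => ∫ t in a..b, G (s, t)) := by
  induction n with
  | zero =>
    intro G hG
    simp only [Nat.cast_zero, contDiff_zero]
    exact intervalIntegral.continuous_parametric_intervalIntegral_of_continuous'
      (f := fun s t => G (s, t)) hG.continuous a b
  | succ n ih =>
    intro G hG
    set G' : ℝ × ℝ → ℝ := fun p => fderiv ℝ G p (1, 0) with hG'
    have hG's : ContDiff ℝ ∞ G' :=
      (hG.fderiv_right (m := ∞) le_rfl).clm_apply contDiff_const
    have hd : ∀ s, HasDerivAt (fun s => ∫ t in a..b, G (s, t)) (∫ t in a..b, G' (s, t)) s := by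
      intro s
      refine hasDerivAt_param (F := fun s t => G (s, t)) (F' := fun s t => G' (s, t))
        hG.continuous hG's.continuous isOpen_univ (fun s _ t => ?_) a b (mem_univ s)
      have h1 : HasFDerivAt G (fderiv ℝ G (s, t)) (s, t) :=
        (hG.differentiable (by simp) _).hasFDerivAt
      have h2 : HasDerivAt (fun s : ℝ => (s, t)) ((1 : ℝ), (0 : ℝ)) s :=
        (hasDerivAt_id s).prodMk (hasDerivAt_const s t)
      exact h1.comp_hasDerivAt s h2
    rw [Nat.cast_succ, contDiff_succ_iff_deriv]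
    refine ⟨fun s => (hd s).differentiableAt, by simp, ?_⟩
    have : deriv (fun s => ∫ t in a..b, G (s, t)) = fun s => ∫ t in a..b, G' (s, t) :=
      funext fun s => (hd s).deriv
    rw [this]
    exact ih G' hG's

lemma contDiff_param (a b : ℝ) {G : ℝ × ℝ → ℝ} (hG : ContDiff ℝ ∞ G) :
    ContDiff ℝ ∞ (fun s => ∫ t in a..b, G (s, t)) :=
  contDiff_infty.2 fun n => contDiff_param_nat a b n G hG

/-- Even smooth functions vanishing outside `(-R, R)`. -/
structure EvenSm (R : ℝ) (U : ℝ → ℝ) : Prop where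
  smooth : ContDiff ℝ ∞ U
  even : ∀ s, U (-s) = U s
  zero : ∀ s, R ≤ s → U s = 0

/-- The operator `U ↦ U' / (2 s)`. -/
noncomputable def opT (U : ℝ → ℝ) (s : ℝ) : ℝ :=
  (1 / 2) * ∫ t in (0 : ℝ)..1, deriv (deriv U) (t * s)

lemma deriv_odd_of_even {U : ℝ → ℝ} (h : ∀ s, U (-s) = U s) (s : ℝ) :
    deriv U (-s) = -deriv U s := by
  have h1 : (fun s => U (-s)) = U := funext h
  have h2 := deriv_comp_neg U s
  rw [h1] at h2
  linarith

lemma deriv_even_of_odd {U : ℝ → ℝ} (h : ∀ s, U (-s) = -U s) (s : ℝ) :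
    deriv U (-s) = deriv U s := by
  have h1 : (fun s => U (-s)) = fun s => -U s := funext h
  have h2 := deriv_comp_neg U s
  rw [h1, deriv.fun_neg] at h2
  linarith

lemma contDiff_deriv_infty {U : ℝ → ℝ} (h : ContDiff ℝ ∞ U) : ContDiff ℝ ∞ (deriv U) :=
  (contDiff_infty_iff_deriv.1 h).2

lemma EvenSm.deriv_eq {R : ℝ} {U : ℝ → ℝ} (h : EvenSm R U) (s : ℝ) :
    deriv U s = 2 * s * opT U s := by
  have h1 := contDiff_deriv_infty h.smooth
  have h2 := contDiff_deriv_infty h1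
  have h0 : deriv U 0 = 0 := by
    have := deriv_odd_of_even h.even 0
    simp only [neg_zero] at this
    linarith
  have hd : ∀ t, HasDerivAt (fun t => deriv U (t * s)) (deriv (deriv U) (t * s) * s) t := by
    intro t
    have := (h1.differentiable (by simp) (t * s)).hasDerivAt.comp t (hasDerivAt_mul_const s)
    simpa using! this
  have hi := intervalIntegral.integral_eq_sub_of_hasDerivAt (a := 0) (b := 1) (fun t _ => hd t)
    (Continuous.intervalIntegrable (by have := h2.continuous; fun_prop) _ _)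
  rw [intervalIntegral.integral_mul_const] at hi
  simp only [one_mul, zero_mul, h0, sub_zero] at hi
  rw [opT, ← hi]; ring

lemma deriv_zero_of_ge {R : ℝ} {U : ℝ → ℝ} (hs : ContDiff ℝ ∞ U) (hz : ∀ s, R ≤ s → U s = 0)
    (s : ℝ) (h : R ≤ s) : deriv U s = 0 := by
  have hc := (contDiff_deriv_infty hs).continuous
  have h1 : ∀ s ∈ Ioi R, deriv U s = 0 := by
    intro s hs'
    have : U =ᶠ[𝓝 s] fun _ => 0 :=
      (lt_mem_nhds hs').mono fun x hx => hz x (le_of_lt hx)
    rw [this.deriv_eq]; simp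
  have h2 : closure (Ioi R) ⊆ {s | deriv U s = 0} :=
    closure_minimal h1 (isClosed_eq hc continuous_const)
  rw [closure_Ioi] at h2
  exact h2 h

lemma EvenSm.opT {R : ℝ} (hR : 0 < R) {U : ℝ → ℝ} (h : EvenSm R U) : EvenSm R (opT U) := by
  have h2 := contDiff_deriv_infty (contDiff_deriv_infty h.smooth)
  refine ⟨?_, fun s => ?_, fun s hs => ?_⟩
  · refine contDiff_const.mul (contDiff_param 0 1 (G := fun p => deriv (deriv U) (p.2 * p.1)) ?_)
    exact h2.comp (contDiff_snd.mul contDiff_fst)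
  · unfold Pool.Agent.MP_918781_an.opT
    simp only [mul_neg, deriv_even_of_odd (deriv_odd_of_even h.even)]
  · have h1 := h.deriv_eq s
    rw [deriv_zero_of_ge h.smooth h.zero s hs] at h1
    have : 0 < 2 * s := by linarith
    rcases mul_eq_zero.1 h1.symm with h3 | h3
    · linarith
    · exact h3

lemma EvenSm.iter {R : ℝ} (hR : 0 < R) {U : ℝ → ℝ} (h : EvenSm R U) (k : ℕ) :
    EvenSm R (Pool.Agent.MP_918781_an.opT^[k] U) := by
  induction k with
  | zero => exact h
  | succ k ih => rw [Function.iterate_succ_apply']; exact ih.opT hR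

/-- A function of `σ ≥ 0` with all its derivatives, vanishing for `σ ≥ R^2`. -/
structure Prof (R : ℝ) (W : ℕ → ℝ → ℝ) : Prop where
  cont : ∀ k, Continuous (W k)
  deriv : ∀ k σ, 0 < σ → HasDerivAt (W k) (W (k + 1) σ) σ
  zero : ∀ k σ, R ^ 2 ≤ σ → W k σ = 0

lemma EvenSm.exists_prof {R : ℝ} (hR : 0 < R) {U : ℝ → ℝ} (h : EvenSm R U) :
    ∃ W, Prof R W ∧ ∀ s, W 0 (s ^ 2) = U s := by
  refine ⟨fun k σ => (Pool.Agent.MP_918781_an.opT^[k] U) (√σ), ⟨fun k => ?_, fun k σ hσ => ?_,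
    fun k σ hσ => ?_⟩, fun s => ?_⟩
  · exact (h.iter hR k).smooth.continuous.comp continuous_sqrt
  · have h1 := ((h.iter hR k).smooth.differentiable (by simp) (√σ)).hasDerivAt.comp σ
      (hasDerivAt_sqrt hσ.ne')
    rw [(h.iter hR k).deriv_eq] at h1
    have hs : 0 < √σ := Real.sqrt_pos.2 hσ
    convert! h1 using 1
    rw [Function.iterate_succ_apply']
    field_simp
  · exact (h.iter hR k).zero _ (Real.le_sqrt_of_sq_le hσ)
  · simp only [Function.iterate_zero, id_eq, Real.sqrt_sq_eq_abs]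
    rcases abs_choice s with h1 | h1 <;> rw [h1]
    exact h.even s

/-- The one-dimensional second derivative on profiles. -/
def lap1 (W : ℕ → ℝ → ℝ) (k : ℕ) (σ : ℝ) : ℝ :=
  4 * σ * W (k + 2) σ + (4 * k + 2) * W (k + 1) σ

lemma Prof.lap1 {R : ℝ} {W : ℕ → ℝ → ℝ} (h : Prof R W) : Prof R (lap1 W) := by
  refine ⟨fun k => ?_, fun k σ hσ => ?_, fun k σ hσ => ?_⟩
  · have h1 := h.cont (k + 2)
    have h2 := h.cont (k + 1)
    unfold Pool.Agent.MP_918781_an.lap1
    fun_prop
  · have h1 := (((hasDerivAt_id σ).const_mul 4).mul (h.deriv (k + 2) σ hσ)).add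
      ((h.deriv (k + 1) σ hσ).const_mul (4 * (k : ℝ) + 2))
    convert! h1 using 1
    simp only [Pool.Agent.MP_918781_an.lap1, id_eq]
    push_cast
    ring
  · simp [Pool.Agent.MP_918781_an.lap1, h.zero _ σ hσ]

/-- The Abel map on profiles. -/
noncomputable def abel (R : ℝ) (W : ℕ → ℝ → ℝ) (k : ℕ) (σ : ℝ) : ℝ :=
  -(1 / π) * ∫ z in (-R)..R, W (k + 1) (σ + z ^ 2)

lemma Prof.abel {R : ℝ} {W : ℕ → ℝ → ℝ} (h : Prof R W) : Prof R (abel R W) := by
  have hc : ∀ k, Continuous (Function.uncurry fun σ z : ℝ => W k (σ + z ^ 2)) := fun k =>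
    (h.cont k).comp (by fun_prop)
  refine ⟨fun k => ?_, fun k σ hσ => ?_, fun k σ hσ => ?_⟩
  · exact continuous_const.mul
      (intervalIntegral.continuous_parametric_intervalIntegral_of_continuous' (hc (k + 1)) _ _)
  · refine HasDerivAt.const_mul _ (hasDerivAt_param (hc (k + 1)) (hc (k + 2)) isOpen_Ioi
      (fun s hs t => ?_) (-R) R (show σ ∈ Ioi 0 from hσ))
    have hs' : 0 < s := hs
    exact (h.deriv (k + 1) (s + t ^ 2) (by positivity)).comp_add_const s (t ^ 2)
  · have : ∀ z : ℝ, W (k + 1) (σ + z ^ 2) = 0 := fun z => h.zero _ _ (by nlinarith [sq_nonneg z])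
    simp [Pool.Agent.MP_918781_an.abel, this]

lemma Prof.abel_lap1 {R : ℝ} {W : ℕ → ℝ → ℝ} (h : Prof R W) (k : ℕ) {σ : ℝ} (hσ : 0 < σ) :
    Pool.Agent.MP_918781_an.abel R (Pool.Agent.MP_918781_an.lap1 W) k σ =
      4 * σ * Pool.Agent.MP_918781_an.abel R W (k + 2) σ +
        4 * (k + 1) * Pool.Agent.MP_918781_an.abel R W (k + 1) σ := by
  have hd : ∀ z : ℝ, HasDerivAt (fun z : ℝ => 2 * z * W (k + 2) (σ + z ^ 2))
      (2 * W (k + 2) (σ + z ^ 2) + 4 * z ^ 2 * W (k + 3) (σ + z ^ 2)) z := by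
    intro z
    have h1 : HasDerivAt (fun z : ℝ => σ + z ^ 2) (2 * z) z := by
      simpa using (hasDerivAt_pow 2 z).const_add σ
    have h2 := (h.deriv (k + 2) (σ + z ^ 2) (by positivity)).comp z h1
    have h3 := ((hasDerivAt_id z).const_mul 2).mul h2
    convert! h3 using 1
    simp only [id_eq, Function.comp_apply]
    ring
  have hi := intervalIntegral.integral_eq_sub_of_hasDerivAt (a := -R) (b := R) (fun z _ => hd z)
    (Continuous.intervalIntegrable (by have := h.cont (k + 2); have := h.cont (k + 3); fun_prop) _ _)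
  rw [h.zero (k + 2) (σ + R ^ 2) (by linarith), h.zero (k + 2) (σ + (-R) ^ 2) (by nlinarith)] at hi
  have he : ∀ z : ℝ, Pool.Agent.MP_918781_an.lap1 W (k + 1) (σ + z ^ 2) =
      (4 * σ * W (k + 3) (σ + z ^ 2) + 4 * (k + 1) * W (k + 2) (σ + z ^ 2)) +
      (2 * W (k + 2) (σ + z ^ 2) + 4 * z ^ 2 * W (k + 3) (σ + z ^ 2)) := by
    intro z
    simp only [Pool.Agent.MP_918781_an.lap1]
    push_cast
    ring
  simp only [Pool.Agent.MP_918781_an.abel, he]
  rw [intervalIntegral.integral_add, hi, intervalIntegral.integral_add,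
    intervalIntegral.integral_const_mul, intervalIntegral.integral_const_mul]
  · ring
  all_goals
    refine Continuous.intervalIntegrable ?_ _ _
    have := h.cont (k + 2); have := h.cont (k + 3); fun_prop

/-- For `σ ≥ 0` the Abel map is an integral over the whole line. -/
lemma Prof.abel_eq {R : ℝ} (hR : 0 < R) {W : ℕ → ℝ → ℝ} (h : Prof R W) (k : ℕ) {σ : ℝ}
    (hσ : 0 ≤ σ) :
    Pool.Agent.MP_918781_an.abel R W k σ = -(1 / π) * ∫ z : ℝ, W (k + 1) (σ + z ^ 2) := by
  unfold Pool.Agent.MP_918781_an.abel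
  rw [intervalIntegral.integral_eq_integral_of_support_subset]
  intro z hz
  by_contra hc
  apply hz
  apply h.zero
  simp only [mem_Ioc, not_and_or, not_lt, not_le] at hc
  rcases hc with hc | hc <;> nlinarith

end Pool.Agent.MP_918781_an

end

-- part MP_918781_an.Rad
section

/-! Radial functions in the plane with prescribed Fourier transform; Hankel-Plancherel identities. -/

namespace Pool.Agent.MP_918781_an

open MeasureTheory Filter Topology Real Set
open scoped ENNReal ContDiff FourierTransform RealInnerProductSpace ComplexConjugate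

/-- Cosine transform. -/
noncomputable def cosT (f : ℝ → ℝ) (ρ : ℝ) : ℝ := ∫ s, f s * cos (2 * π * ρ * s)

/-- Sine transform. -/
noncomputable def sinT (f : ℝ → ℝ) (ρ : ℝ) : ℝ := ∫ s, f s * sin (2 * π * ρ * s)

lemma hcs_of_abs {R : ℝ} {f : ℝ → ℝ} (h : ∀ s, R ≤ |s| → f s = 0) : HasCompactSupport f :=
  HasCompactSupport.intro (isCompact_Icc (a := -R) (b := R)) fun s hs => h s (by
    simp only [mem_Icc, not_and_or, not_le] at hs
    rcases hs with hs | hs
    · exact le_trans (by linarith) (neg_le_abs s)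
    · exact le_trans hs.le (le_abs_self s))

lemma integrable_mul_bdd {f g : ℝ → ℝ} (hf : Integrable f) (hg : Continuous g)
    (hb : ∀ s, |g s| ≤ 1) : Integrable (fun s => f s * g s) :=
  hf.mul_bdd (c := 1) hg.aestronglyMeasurable (Eventually.of_forall hb)

lemma integral_exp_mul {f : ℝ → ℝ} (hf : Integrable f) (ρ : ℝ) :
    ∫ s : ℝ, Complex.exp (↑(-2 * π * (s * ρ)) * Complex.I) * (f s : ℂ) =
      (cosT f ρ : ℂ) - Complex.I * (sinT f ρ : ℂ) := by
  have h1 : Integrable (fun s => f s * cos (2 * π * ρ * s)) :=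
    integrable_mul_bdd hf (by fun_prop) fun s => abs_cos_le_one _
  have h2 : Integrable (fun s => f s * sin (2 * π * ρ * s)) :=
    integrable_mul_bdd hf (by fun_prop) fun s => abs_sin_le_one _
  rw [cosT, sinT, ← integral_complex_ofReal, ← integral_complex_ofReal, ← integral_const_mul,
    ← integral_sub h1.ofReal (h2.ofReal.const_mul _)]
  congr 1; funext s
  rw [Complex.exp_mul_I, ← Complex.ofReal_cos, ← Complex.ofReal_sin,
    show -2 * π * (s * ρ) = -(2 * π * ρ * s) by ring, cos_neg, sin_neg]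
  push_cast
  ring

lemma sinT_even {f : ℝ → ℝ} (h : ∀ s, f (-s) = f s) (ρ : ℝ) : sinT f ρ = 0 := by
  have h1 := integral_neg_eq_self (fun s => f s * sin (2 * π * ρ * s)) volume
  simp only [h, mul_neg, sin_neg, integral_neg] at h1
  unfold sinT
  linarith

lemma cosT_odd {f : ℝ → ℝ} (h : ∀ s, f (-s) = -f s) (ρ : ℝ) : cosT f ρ = 0 := by
  have h1 := integral_neg_eq_self (fun s => f s * cos (2 * π * ρ * s)) volume
  simp only [h, mul_neg, cos_neg, neg_mul, integral_neg] at h1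
  unfold cosT
  linarith

lemma abs_cosT_le {f : ℝ → ℝ} (hf : Integrable f) (ρ : ℝ) : |cosT f ρ| ≤ ∫ s, |f s| := by
  refine (abs_integral_le_integral_abs).trans (integral_mono ?_ hf.abs fun s => ?_)
  · exact (integrable_mul_bdd hf (by fun_prop) fun s => abs_cos_le_one _).abs
  · simp only [abs_mul]
    exact mul_le_of_le_one_right (abs_nonneg _) (abs_cos_le_one _)

lemma continuous_cosT {f : ℝ → ℝ} (hf : Integrable f) : Continuous (cosT f) := by
  refine continuous_of_dominated (bound := fun s => |f s|) (fun ρ => ?_) (fun ρ => ?_) hf.abs ?_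
  · exact (integrable_mul_bdd hf (by fun_prop) fun s => abs_cos_le_one _).aestronglyMeasurable
  · refine Eventually.of_forall fun s => ?_
    rw [Real.norm_eq_abs, abs_mul]
    exact mul_le_of_le_one_right (abs_nonneg _) (abs_cos_le_one _)
  · exact Eventually.of_forall fun s => by fun_prop

section prof

variable {R : ℝ} {W V : ℕ → ℝ → ℝ}

lemma Prof.zero_abs (hR : 0 < R) (h : Prof R W) (k : ℕ) (s : ℝ) (hs : R ≤ |s|) :
    W k (s ^ 2) = 0 :=
  h.zero _ _ (by rw [← sq_abs s]; gcongr)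

lemma Prof.integrable_sq (hR : 0 < R) (h : Prof R W) (k : ℕ) :
    Integrable (fun s : ℝ => W k (s ^ 2)) :=
  ((h.cont k).comp (continuous_pow 2)).integrable_of_hasCompactSupport
    (hcs_of_abs (h.zero_abs hR k))

lemma Prof.hasDerivAt_sq (h : Prof R W) (k : ℕ) (s : ℝ) :
    HasDerivAt (fun s : ℝ => W k (s ^ 2)) (2 * s * W (k + 1) (s ^ 2)) s := by
  have h1 := h.cont k
  have h2 := h.cont (k + 1)
  refine hasDerivAt_of_hasDerivAt_of_ne' (x := 0)
    (g := fun s => 2 * s * W (k + 1) (s ^ 2)) (fun y hy => ?_) (by fun_prop) (by fun_prop) s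
  have h3 := (h.deriv k (y ^ 2) (by positivity)).comp y (hasDerivAt_pow 2 y)
  convert! h3 using 1
  simp; ring

/-- The cosine transform attached to a profile. -/
noncomputable def FW (W : ℕ → ℝ → ℝ) (ρ : ℝ) : ℝ := cosT (fun s => W 0 (s ^ 2)) ρ

lemma Prof.continuous_FW (hR : 0 < R) (h : Prof R W) : Continuous (FW W) :=
  continuous_cosT (h.integrable_sq hR 0)

lemma Prof.FW_lap1 (hR : 0 < R) (h : Prof R W) (ρ : ℝ) :
    FW (Pool.Agent.MP_918781_an.lap1 W) ρ = -(2 * π * ρ) ^ 2 * FW W ρ := by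
  set w := 2 * π * ρ with hw
  have h0 := h.cont 0
  have h1 := h.cont 1
  have hd : ∀ s : ℝ, HasDerivAt
      (fun s : ℝ => 2 * s * W 1 (s ^ 2) * cos (w * s) + w * (W 0 (s ^ 2) * sin (w * s)))
      (Pool.Agent.MP_918781_an.lap1 W 0 (s ^ 2) * cos (w * s) +
        w ^ 2 * (W 0 (s ^ 2) * cos (w * s))) s := by
    intro s
    have hl : HasDerivAt (fun s : ℝ => w * s) w s := by simpa using (hasDerivAt_id s).const_mul w
    have h3 := ((((hasDerivAt_id s).const_mul 2).mul (h.hasDerivAt_sq 1 s)).mul hl.cos).add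
      (((h.hasDerivAt_sq 0 s).mul hl.sin).const_mul w)
    convert! h3 using 1
    simp only [Pool.Agent.MP_918781_an.lap1, id_eq, Pi.mul_apply]
    push_cast
    ring
  have i1 : Integrable (fun s => Pool.Agent.MP_918781_an.lap1 W 0 (s ^ 2) * cos (w * s)) :=
    integrable_mul_bdd (h.lap1.integrable_sq hR 0) (by fun_prop) fun s => abs_cos_le_one _
  have i2 : Integrable (fun s => W 0 (s ^ 2) * cos (w * s)) :=
    integrable_mul_bdd (h.integrable_sq hR 0) (by fun_prop) fun s => abs_cos_le_one _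
  have i3 : Integrable
      (fun s : ℝ => 2 * s * W 1 (s ^ 2) * cos (w * s) + w * (W 0 (s ^ 2) * sin (w * s))) := by
    refine Continuous.integrable_of_hasCompactSupport (by fun_prop) (hcs_of_abs (R := R) ?_)
    intro s hs
    simp [h.zero_abs hR _ s hs]
  have h4 := integral_eq_zero_of_hasDerivAt_of_integrable hd (i1.add (i2.const_mul _)) i3
  rw [integral_add i1 (i2.const_mul _), integral_const_mul] at h4
  unfold FW cosT
  linarith

lemma Prof.FW_decay_even (hR : 0 < R) (n : ℕ) : ∀ {W : ℕ → ℝ → ℝ}, Prof R W →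
    ∃ C, ∀ ρ, (2 * π * ρ) ^ (2 * n) * |FW W ρ| ≤ C := by
  induction n with
  | zero =>
    intro W h
    exact ⟨_, fun ρ => by simpa [FW] using abs_cosT_le (h.integrable_sq hR 0) ρ⟩
  | succ n ih =>
    intro W h
    obtain ⟨C, hC⟩ := ih h.lap1
    refine ⟨C, fun ρ => ?_⟩
    have := hC ρ
    rw [h.FW_lap1 hR, abs_mul, abs_neg, abs_of_nonneg (sq_nonneg _)] at this
    calc _ = (2 * π * ρ) ^ (2 * n) * ((2 * π * ρ) ^ 2 * |FW W ρ|) := by ring
      _ ≤ C := this

lemma Prof.FW_decay (hR : 0 < R) (h : Prof R W) (n : ℕ) :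
    ∃ C, 0 ≤ C ∧ ∀ ρ, 0 ≤ ρ → (1 + ρ) ^ n * |FW W ρ| ≤ C := by
  obtain ⟨C0, hC0⟩ := Prof.FW_decay_even hR 0 h
  obtain ⟨C1, hC1⟩ := Prof.FW_decay_even hR n h
  have p0 : 0 ≤ C0 := le_trans (by positivity) (hC0 0)
  have p1 : 0 ≤ C1 := le_trans (by rw [pow_mul]; positivity) (hC1 0)
  refine ⟨2 ^ n * (C0 + C1), by positivity, fun ρ hρ => ?_⟩
  have a0 := hC0 ρ
  have a1 := hC1 ρ
  simp only [mul_zero, pow_zero, one_mul] at a0
  have hF := abs_nonneg (FW W ρ)
  rcases le_total ρ 1 with h1 | h1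
  · calc (1 + ρ) ^ n * |FW W ρ| ≤ 2 ^ n * |FW W ρ| := by gcongr; linarith
      _ ≤ 2 ^ n * (C0 + C1) := by gcongr; linarith
  · have hπ := pi_gt_three
    have h2 : ρ ^ n ≤ (2 * π * ρ) ^ (2 * n) := by
      rw [pow_mul]
      gcongr
      have h3 : ρ ≤ 2 * π * ρ := by nlinarith
      nlinarith
    calc (1 + ρ) ^ n * |FW W ρ| ≤ (2 * ρ) ^ n * |FW W ρ| := by gcongr; linarith
      _ = 2 ^ n * (ρ ^ n * |FW W ρ|) := by rw [mul_pow]; ring
      _ ≤ 2 ^ n * ((2 * π * ρ) ^ (2 * n) * |FW W ρ|) := by gcongr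
      _ ≤ 2 ^ n * (C0 + C1) := by gcongr; linarith

end prof

lemma norm_smul_e {r : ℝ} (hr : 0 ≤ r) (θ : ℝ) : ‖r • e θ‖ = r := by
  rw [norm_smul, norm_e, Real.norm_of_nonneg hr, mul_one]

lemma integral_radial {G : ℝ → ℝ} (hG : Integrable (fun x : E => G ‖x‖)) :
    ∫ x : E, G ‖x‖ = 2 * π * ∫ ρ in Ioi (0 : ℝ), ρ * G ρ := by
  rw [integral_polar' hG]
  have : ∀ θ : ℝ, ∫ r in Ioi (0 : ℝ), r * G ‖r • e θ‖ = ∫ ρ in Ioi (0 : ℝ), ρ * G ρ := fun θ =>
    setIntegral_congr_fun measurableSet_Ioi fun r hr => by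
      simp only [norm_smul_e (le_of_lt hr)]
  simp only [this, intervalIntegral.integral_const, smul_eq_mul]
  ring

lemma hcs_radial {R : ℝ} (hR : 0 < R) {G : ℝ → ℝ} (hz : ∀ σ, R ^ 2 ≤ σ → G σ = 0) :
    HasCompactSupport (fun x : E => G (‖x‖ ^ 2)) :=
  HasCompactSupport.intro (isCompact_closedBall (0 : E) R) fun x hx => hz _ (by
    simp only [Metric.mem_closedBall, dist_zero_right, not_le] at hx
    gcongr)

lemma integrable_radial_sq {R : ℝ} (hR : 0 < R) {G : ℝ → ℝ} (hG : Continuous G)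
    (hz : ∀ σ, R ^ 2 ≤ σ → G σ = 0) : Integrable (fun x : E => G (‖x‖ ^ 2)) :=
  (hG.comp (continuous_norm.pow 2)).integrable_of_hasCompactSupport (hcs_radial hR hz)

lemma integral_radial_sq {R : ℝ} (hR : 0 < R) {G : ℝ → ℝ} (hG : Continuous G)
    (hz : ∀ σ, R ^ 2 ≤ σ → G σ = 0) :
    ∫ x : E, G (‖x‖ ^ 2) = π * ∫ σ in (0 : ℝ)..R ^ 2, G σ := by
  rw [integral_radial (G := fun r => G (r ^ 2)) (integrable_radial_sq hR hG hz)]
  have h1 := integral_comp_rpow_Ioi_of_pos (g := G) (p := 2) two_pos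
  have h2 : ∫ x in Ioi (0 : ℝ), (2 * x ^ ((2 : ℝ) - 1)) • G (x ^ (2 : ℝ)) =
      2 * ∫ ρ in Ioi (0 : ℝ), ρ * G (ρ ^ 2) := by
    rw [← integral_const_mul]
    refine setIntegral_congr_fun measurableSet_Ioi fun x _ => ?_
    norm_num
    ring
  have h3 : ∫ y in Ioi (0 : ℝ), G y = ∫ σ in (0 : ℝ)..R ^ 2, G σ := by
    rw [intervalIntegral.integral_of_le (by positivity)]
    refine setIntegral_eq_of_subset_of_forall_sdiff_eq_zero measurableSet_Ioi Ioc_subset_Ioi_self ?_
    intro x hx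
    apply hz
    have h4 := hx.2
    simp only [mem_Ioc, not_and, not_le] at h4
    exact (h4 hx.1).le
  rw [← h3, ← h1, h2]; ring

lemma exists_rot (ξ : E) : ∃ θ, ξ = rot θ (‖ξ‖, 0) := by
  set z : ℂ := ⟨ξ 0, ξ 1⟩ with hz
  have hn : ‖z‖ = ‖ξ‖ := by
    have h1 : ‖z‖ ^ 2 = ‖ξ‖ ^ 2 := by
      rw [norm_sq_eq, Complex.sq_norm, Complex.normSq_apply]; simp [hz]; ring
    exact (pow_left_inj₀ (norm_nonneg _) (norm_nonneg _) two_ne_zero).1 h1
  refine ⟨z.arg, ?_⟩
  ext i; fin_cases i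
  · have := Complex.norm_mul_cos_arg z
    simp only [Fin.zero_eta, rot_zero, zero_mul, sub_zero, ← hn, this]
    rfl
  · have := Complex.norm_mul_sin_arg z
    simp only [Fin.mk_one, rot_one, zero_mul, add_zero, ← hn, this]
    rfl

section prof

variable {R : ℝ} {W V : ℕ → ℝ → ℝ}

/-- The projection of the radial function given by the Abel map is the original function. -/
lemma Prof.integral_abel (hR : 0 < R) (h : Prof R W) (s : ℝ) :
    ∫ t : ℝ, Pool.Agent.MP_918781_an.abel R W 0 (s ^ 2 + t ^ 2) = W 0 (s ^ 2) := by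
  have h1 := h.cont 1
  have hz : ∀ σ, R ^ 2 ≤ σ → W 1 (s ^ 2 + σ) = 0 := fun σ hσ =>
    h.zero _ _ (by nlinarith [sq_nonneg s])
  have hi := integrable_radial_sq (G := fun σ => W 1 (s ^ 2 + σ)) hR (by fun_prop) hz
  have hv := integral_radial_sq (G := fun σ => W 1 (s ^ 2 + σ)) hR (by fun_prop) hz
  have hi' := (integrable_rot 0).2 hi
  rw [integral_rot 0] at hv
  simp only [norm_rot_sq] at hi' hv
  rw [Measure.volume_eq_prod] at hi' hv
  rw [integral_prod _ hi'] at hv
  have hf : ∫ σ in (0 : ℝ)..R ^ 2, W 1 (s ^ 2 + σ) = W 0 (s ^ 2 + R ^ 2) - W 0 (s ^ 2 + 0) := by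
    have h0 := h.cont 0
    refine intervalIntegral.integral_eq_sub_of_hasDerivAt_of_le (f := fun σ => W 0 (s ^ 2 + σ))
      (by positivity) (by fun_prop) (fun x hx => ?_)
      (Continuous.intervalIntegrable (by fun_prop) _ _)
    exact (h.deriv 0 (s ^ 2 + x) (by have := hx.1; positivity)).comp_const_add (s ^ 2) x
  rw [hf, h.zero 0 _ (by nlinarith [sq_nonneg s])] at hv
  have he : ∀ t : ℝ, Pool.Agent.MP_918781_an.abel R W 0 (s ^ 2 + t ^ 2) =
      -(1 / π) * ∫ z : ℝ, W 1 (s ^ 2 + (t ^ 2 + z ^ 2)) := fun t => by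
    rw [h.abel_eq hR 0 (by positivity)]
    simp only [add_assoc]
  simp only [he]
  rw [integral_const_mul, hv]
  have := pi_pos
  field_simp
  simp

/-- The radial function in the plane attached to a profile. -/
noncomputable def radF (R : ℝ) (W : ℕ → ℝ → ℝ) (x : E) : ℂ :=
  (Pool.Agent.MP_918781_an.abel R W 0 (‖x‖ ^ 2) : ℝ)

lemma Prof.integrable_radF (hR : 0 < R) (h : Prof R W) : Integrable (radF R W) :=
  (integrable_radial_sq hR (h.abel.cont 0) (h.abel.zero 0)).ofReal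

lemma Prof.continuous_radF (h : Prof R W) : Continuous (radF R W) :=
  Complex.continuous_ofReal.comp ((h.abel.cont 0).comp (continuous_norm.pow 2))

lemma Prof.fourier_radF (hR : 0 < R) (h : Prof R W) (ξ : E) :
    𝓕 (radF R W) ξ = (FW W ‖ξ‖ : ℂ) := by
  obtain ⟨θ, hθ⟩ := exists_rot ξ
  generalize ‖ξ‖ = ρ at hθ
  rw [hθ, fourier_rot]
  have hi : Integrable (fun p : ℝ × ℝ =>
      Complex.exp (↑(-2 * π * (p.1 * ρ + p.2 * 0)) * Complex.I) * radF R W (rot θ p)) := by
    refine ((integrable_rot θ).2 (h.integrable_radF hR)).bdd_mul (c := 1) (by fun_prop) ?_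
    exact Eventually.of_forall fun p => (Complex.norm_exp_ofReal_mul_I _).le
  rw [Measure.volume_eq_prod] at hi ⊢
  rw [integral_prod _ hi]
  simp only [radF, norm_rot_sq, mul_zero, add_zero, integral_const_mul, integral_complex_ofReal,
    h.integral_abel hR]
  rw [integral_exp_mul (h.integrable_sq hR 0), sinT_even (by simp)]
  simp [FW]

lemma integrable_of_decay {G : ℝ → ℝ} (hG : Continuous G) {C : ℝ}
    (hb : ∀ ρ, 0 ≤ ρ → (1 + ρ) ^ 3 * |G ρ| ≤ C) : Integrable (fun x : E => G ‖x‖) := by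
  have h1 : Integrable (fun x : E => (1 + ‖x‖) ^ (-(3 : ℝ))) :=
    integrable_one_add_norm (by simp; norm_num)
  refine (h1.const_mul C).mono' (hG.comp continuous_norm).aestronglyMeasurable
    (Eventually.of_forall fun x => ?_)
  have h2 := hb ‖x‖ (norm_nonneg _)
  have h3 : (0 : ℝ) < 1 + ‖x‖ := by positivity
  rw [Real.norm_eq_abs, Real.rpow_neg h3.le, ← div_eq_mul_inv, le_div_iff₀ (by positivity)]
  rw [show (1 + ‖x‖) ^ (3 : ℝ) = (1 + ‖x‖) ^ 3 by norm_cast]
  linarith

lemma Prof.planch_zero (hR : 0 < R) (hW : Prof R W) (hV : Prof R V) :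
    ∫ ρ in Ioi (0 : ℝ), ρ * (FW W ρ * FW V ρ) =
      (1 / 2) * ∫ σ in (0 : ℝ)..R ^ 2, Pool.Agent.MP_918781_an.abel R W 0 σ *
        Pool.Agent.MP_918781_an.abel R V 0 σ := by
  obtain ⟨C, hC0, hC⟩ := hV.FW_decay hR 3
  obtain ⟨C', hC0', hC'⟩ := hW.FW_decay hR 0
  have hiV : Integrable (fun x : E => FW V ‖x‖) := integrable_of_decay (hV.continuous_FW hR) hC
  have hi : Integrable (𝓕 (radF R V)) := by
    rw [funext (hV.fourier_radF hR)]
    exact hiV.ofReal
  have h1 := planch_gen (hW.integrable_radF hR) (hV.integrable_radF hR) hV.continuous_radF hi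
  simp only [hW.fourier_radF hR, hV.fourier_radF hR, radF, Complex.conj_ofReal,
    ← Complex.ofReal_mul, integral_complex_ofReal, Complex.ofReal_inj] at h1
  have hi2 : Integrable (fun x : E => FW W ‖x‖ * FW V ‖x‖) :=
    hiV.bdd_mul (c := C') ((hW.continuous_FW hR).comp continuous_norm).aestronglyMeasurable
      (Eventually.of_forall fun x => by simpa using hC' ‖x‖ (norm_nonneg _))
  rw [integral_radial (G := fun ρ => FW W ρ * FW V ρ) hi2,
    integral_radial_sq (G := fun σ => Pool.Agent.MP_918781_an.abel R W 0 σ *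
      Pool.Agent.MP_918781_an.abel R V 0 σ) hR ((hW.abel.cont 0).mul (hV.abel.cont 0))
      (fun σ hσ => by simp [hW.abel.zero 0 σ hσ])] at h1
  have := pi_pos
  apply mul_left_cancel₀ (a := 2 * π) (by positivity)
  rw [h1]; ring

lemma Prof.planch (hR : 0 < R) (hW : Prof R W) (a : ℕ) : ∀ {V : ℕ → ℝ → ℝ}, Prof R V →
    ∫ ρ in Ioi (0 : ℝ), ρ * (2 * π * ρ) ^ (2 * a) * (FW W ρ * FW V ρ) =
      (4 ^ a / 2) * ∫ σ in (0 : ℝ)..R ^ 2, σ ^ a * (Pool.Agent.MP_918781_an.abel R W a σ *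
        Pool.Agent.MP_918781_an.abel R V a σ) := by
  induction a with
  | zero =>
    intro V hV
    simpa using hW.planch_zero hR hV
  | succ a ih =>
    intro V hV
    have h1 := ih hV.lap1
    set A := Pool.Agent.MP_918781_an.abel R W with hA
    set B := Pool.Agent.MP_918781_an.abel R V with hB
    have hAp : Prof R A := hW.abel
    have hBp : Prof R B := hV.abel
    have c1 := hAp.cont a
    have c2 := hAp.cont (a + 1)
    have c3 := hBp.cont (a + 1)
    have c4 := hBp.cont (a + 2)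
    have h2 : ∫ σ in (0 : ℝ)..R ^ 2, σ ^ a * (A a σ *
        Pool.Agent.MP_918781_an.abel R (Pool.Agent.MP_918781_an.lap1 V) a σ) =
        ∫ σ in (0 : ℝ)..R ^ 2,
          σ ^ a * (A a σ * (4 * σ * B (a + 2) σ + 4 * (a + 1) * B (a + 1) σ)) := by
      refine intervalIntegral.integral_congr_ae (Eventually.of_forall fun σ hσ => ?_)
      rw [uIoc_of_le (by positivity)] at hσ
      rw [hV.abel_lap1 a hσ.1]
    have h3 : ∫ σ in (0 : ℝ)..R ^ 2,
        (σ ^ a * (A a σ * (4 * σ * B (a + 2) σ + 4 * (a + 1) * B (a + 1) σ)) +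
          4 * (σ ^ (a + 1) * (A (a + 1) σ * B (a + 1) σ))) =
        4 * ((R ^ 2) ^ (a + 1) * (A a (R ^ 2) * B (a + 1) (R ^ 2))) -
          4 * ((0 : ℝ) ^ (a + 1) * (A a 0 * B (a + 1) 0)) := by
      refine intervalIntegral.integral_eq_sub_of_hasDerivAt_of_le
        (f := fun σ => 4 * (σ ^ (a + 1) * (A a σ * B (a + 1) σ)))
        (by positivity) (by fun_prop) (fun x hx => ?_)
        (Continuous.intervalIntegrable (by fun_prop) _ _)
      have := ((hasDerivAt_pow (a + 1) x).mul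
        ((hAp.deriv a x hx.1).mul (hBp.deriv (a + 1) x hx.1))).const_mul 4
      convert! this using 1
      simp only [Pi.mul_apply, Nat.add_sub_cancel]
      push_cast
      ring
    rw [hAp.zero a _ le_rfl, intervalIntegral.integral_add
      (Continuous.intervalIntegrable (by fun_prop) _ _)
      (Continuous.intervalIntegrable (by fun_prop) _ _), intervalIntegral.integral_const_mul] at h3
    rw [h2] at h1
    have h4 : ∫ ρ in Ioi (0 : ℝ), ρ * (2 * π * ρ) ^ (2 * (a + 1)) * (FW W ρ * FW V ρ) =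
        -∫ ρ in Ioi (0 : ℝ), ρ * (2 * π * ρ) ^ (2 * a) *
          (FW W ρ * FW (Pool.Agent.MP_918781_an.lap1 V) ρ) := by
      rw [← integral_neg]
      congr 1; funext ρ
      rw [hV.FW_lap1 hR]; ring
    rw [h4, h1]
    simp only [zero_mul, mul_zero, ne_eq, Nat.add_eq_zero_iff, one_ne_zero, and_false,
      not_false_eq_true, zero_pow, sub_zero] at h3
    rw [eq_neg_of_add_eq_zero_left h3]
    ring

lemma Prof.FW_zero (hR : 0 < R) (h : Prof R W) :
    FW W 0 = π * ∫ σ in (0 : ℝ)..R ^ 2, Pool.Agent.MP_918781_an.abel R W 0 σ := by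
  have h1 := h.fourier_radF hR 0
  rw [Real.fourier_eq] at h1
  simp only [inner_zero_right, neg_zero, AddChar.map_zero_eq_one, one_smul, radF,
    integral_complex_ofReal, norm_zero, Complex.ofReal_inj] at h1
  rw [← h1, integral_radial_sq hR (h.abel.cont 0) (h.abel.zero 0)]

lemma Prof.moment (hR : 0 < R) (h : Prof R W) (k : ℕ) :
    ∫ σ in (0 : ℝ)..R ^ 2, σ ^ (k + 1) * W (k + 1) σ =
      -(k + 1) * ∫ σ in (0 : ℝ)..R ^ 2, σ ^ k * W k σ := by
  have c1 := h.cont k
  have c2 := h.cont (k + 1)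
  have h3 : ∫ σ in (0 : ℝ)..R ^ 2, (σ ^ (k + 1) * W (k + 1) σ + (k + 1) * (σ ^ k * W k σ)) =
      (R ^ 2) ^ (k + 1) * W k (R ^ 2) - (0 : ℝ) ^ (k + 1) * W k 0 := by
    refine intervalIntegral.integral_eq_sub_of_hasDerivAt_of_le
      (f := fun σ => σ ^ (k + 1) * W k σ)
      (by positivity) (by fun_prop) (fun x hx => ?_)
      (Continuous.intervalIntegrable (by fun_prop) _ _)
    have := (hasDerivAt_pow (k + 1) x).mul (h.deriv k x hx.1)
    convert! this using 1
    simp only [Nat.add_sub_cancel]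
    push_cast
    ring
  rw [h.zero k _ le_rfl, intervalIntegral.integral_add
    (Continuous.intervalIntegrable (by fun_prop) _ _)
    (Continuous.intervalIntegrable (by fun_prop) _ _), intervalIntegral.integral_const_mul] at h3
  simp only [mul_zero, ne_eq, Nat.add_eq_zero_iff, one_ne_zero, and_false,
    not_false_eq_true, zero_pow, zero_mul, sub_zero] at h3
  linarith

lemma Prof.integrableOn_pow (hR : 0 < R) (h : Prof R W) (n : ℕ) :
    IntegrableOn (fun ρ => ρ * (2 * π * ρ) ^ n * (FW W ρ * FW W ρ)) (Ioi 0) := by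
  obtain ⟨C, hC0, hC⟩ := h.FW_decay hR (n + 3)
  obtain ⟨C', hC0', hC'⟩ := h.FW_decay hR 0
  have hc := h.continuous_FW hR
  have h1 : Integrable (fun x : ℝ => (1 + ‖x‖) ^ (-(2 : ℝ))) :=
    integrable_one_add_norm (by simp)
  refine Integrable.mono' (h1.const_mul ((2 * π) ^ n * C * C')).integrableOn
    (by fun_prop : Continuous _).aestronglyMeasurable ?_
  refine (ae_restrict_iff' measurableSet_Ioi).2 (Eventually.of_forall fun ρ hρ => ?_)
  have hρ' : 0 < ρ := hρ
  have a1 := hC ρ hρ'.le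
  have a2 := hC' ρ hρ'.le
  simp only [pow_zero, one_mul] at a2
  have hπ := pi_pos
  rw [Real.norm_eq_abs, Real.norm_of_nonneg hρ'.le, Real.rpow_neg (by positivity),
    ← div_eq_mul_inv, le_div_iff₀ (by positivity),
    show (1 + ρ) ^ (2 : ℝ) = (1 + ρ) ^ 2 by norm_cast, abs_mul, abs_mul (FW W ρ),
    abs_of_nonneg (by positivity)]
  have h3 : ρ * ρ ^ n ≤ (1 + ρ) ^ (n + 1) := by
    rw [← pow_succ']; gcongr; linarith
  calc ρ * (2 * π * ρ) ^ n * (|FW W ρ| * |FW W ρ|) * (1 + ρ) ^ 2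
      = (2 * π) ^ n * ((ρ * ρ ^ n) * (1 + ρ) ^ 2 * |FW W ρ|) * |FW W ρ| := by
        rw [mul_pow]; ring
    _ ≤ (2 * π) ^ n * ((1 + ρ) ^ (n + 1) * (1 + ρ) ^ 2 * |FW W ρ|) * C' := by gcongr
    _ ≤ (2 * π) ^ n * C * C' := by
        gcongr
        rw [← pow_add]; exact a1

end prof

end Pool.Agent.MP_918781_an

end

-- part MP_918781_an.Bessel
section

/-! Bessel-Clifford functions `S a y = sum (-y)^n / (n! (n+a)!)` (so `S a (x^2/4) = J_a(x)/(x/2)^a`). -/

namespace Pool.Agent.MP_918781_an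

open scoped ContDiff

noncomputable def S (a : ℕ) (y : ℝ) : ℝ :=
  ∑' n : ℕ, (-y) ^ n / ((n.factorial : ℝ) * ((n + a).factorial : ℝ))

/-- The terms of the series. -/
noncomputable def besT (a n : ℕ) (y : ℝ) : ℝ :=
  (-y) ^ n / ((n.factorial : ℝ) * ((n + a).factorial : ℝ))

lemma bes_fac_pos (n : ℕ) : (0 : ℝ) < n.factorial := by exact_mod_cast n.factorial_pos

lemma besT_le (a n : ℕ) {y R : ℝ} (h : |y| ≤ R) : ‖besT a n y‖ ≤ R ^ n / n.factorial := by
  have h1 := bes_fac_pos n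
  have h2 : (1 : ℝ) ≤ (n + a).factorial := by exact_mod_cast (n + a).factorial_pos
  have h3 := (abs_nonneg y).trans h
  rw [besT, norm_div, norm_pow, norm_neg, Real.norm_eq_abs, Real.norm_eq_abs,
    abs_of_pos (a := _ * _) (by positivity)]
  gcongr
  nlinarith

lemma besT_summable (a : ℕ) (y : ℝ) : Summable fun n => besT a n y :=
  Summable.of_norm_bounded (Real.summable_pow_div_factorial |y|) fun n => besT_le a n le_rfl

lemma S_eq_add (a : ℕ) (y : ℝ) :
    S a y = 1 / (a.factorial : ℝ) + ∑' n : ℕ, besT a (n + 1) y := by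
  have h := (besT_summable a y).tsum_eq_zero_add
  simpa [besT, S] using h

lemma hasDerivAt_besT (a n : ℕ) (y : ℝ) :
    HasDerivAt (besT a (n + 1)) (-besT (a + 1) n y) y := by
  have h := ((hasDerivAt_neg' y).pow (n + 1)).div_const
    (((n + 1).factorial : ℝ) * ((n + 1 + a).factorial : ℝ))
  refine h.congr_deriv ?_
  have h1 := bes_fac_pos n
  have h2 := bes_fac_pos (n + 1 + a)
  rw [besT, show n + (a + 1) = n + 1 + a by ring, Nat.factorial_succ n]
  push_cast
  field_simp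

lemma hasDerivAt_S (a : ℕ) (y : ℝ) : HasDerivAt (S a) (-S (a + 1) y) y := by
  have h := hasDerivAt_tsum_of_isPreconnected (Real.summable_pow_div_factorial (|y| + 1))
    (t := Metric.ball 0 (|y| + 1)) Metric.isOpen_ball (convex_ball _ _).isPreconnected
    (g := fun n => besT a (n + 1)) (g' := fun n u => -besT (a + 1) n u)
    (fun n u _ => hasDerivAt_besT a n u)
    (fun n u hu => by
      rw [norm_neg]
      exact besT_le _ _ (by simpa using (mem_ball_zero_iff.mp hu).le))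
    (y₀ := y) (by simp) ((summable_nat_add_iff 1).mpr (besT_summable a y)) (y := y) (by simp)
  rw [tsum_neg] at h
  rw [funext (S_eq_add a)]
  exact h.const_add _

lemma S_rec (a : ℕ) (y : ℝ) : y * S (a + 2) y = (a + 1) * S (a + 1) y - S a y := by
  have h1 := (summable_nat_add_iff 1).mpr (besT_summable a y)
  have h2 := (summable_nat_add_iff 1).mpr (besT_summable (a + 1) y)
  have h3 : ((a : ℝ) + 1) * (1 / ((a + 1).factorial : ℝ)) = 1 / (a.factorial : ℝ) := by
    have := bes_fac_pos a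
    rw [Nat.factorial_succ]; push_cast; field_simp
  rw [S_eq_add a, S_eq_add (a + 1), mul_add, h3, add_sub_add_left_eq_sub, ← tsum_mul_left,
    ← (h2.mul_left _).tsum_sub h1, S, ← tsum_mul_left]
  refine tsum_congr fun n => ?_
  have e1 := bes_fac_pos n
  have e2 := bes_fac_pos (n + 1 + a)
  rw [besT, besT, show n + (a + 2) = n + 1 + a + 1 by ring,
    show n + 1 + (a + 1) = n + 1 + a + 1 by ring, Nat.factorial_succ n,
    Nat.factorial_succ (n + 1 + a)]
  push_cast
  field_simp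
  ring

lemma S_zero (a : ℕ) : S a 0 = 1 / (a.factorial : ℝ) := by
  rw [S_eq_add]; simp [besT]

lemma contDiff_S (a : ℕ) : ContDiff ℝ ∞ (S a) := by
  have h : ∀ n : ℕ, ∀ a, ContDiff ℝ n (S a) := by
    intro n
    induction n with
    | zero =>
      exact fun a => contDiff_zero.mpr
        (continuous_iff_continuousAt.mpr fun y => (hasDerivAt_S a y).continuousAt)
    | succ n ih =>
      intro a
      rw [Nat.cast_succ, contDiff_succ_iff_deriv]
      refine ⟨fun y => (hasDerivAt_S a y).differentiableAt, by simp, ?_⟩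
      rw [funext fun y => (hasDerivAt_S a y).deriv]
      exact (ih (a + 1)).neg
  exact contDiff_infty.mpr fun n => h n a

lemma continuous_S (a : ℕ) : Continuous (S a) := (contDiff_S a).continuous

lemma S_tail (a N : ℕ) (hN : 3 ≤ N) {y : ℝ} (h0 : 0 ≤ y) (h1 : y ≤ 7) :
    |S a y - ∑ n ∈ Finset.range N, besT a n y| ≤
      2 * (y ^ N / ((N.factorial : ℝ) * ((N + a).factorial : ℝ))) := by
  have h2 : ∀ n, ‖besT a (n + N) y‖ ≤
      y ^ N / ((N.factorial : ℝ) * ((N + a).factorial : ℝ)) * (1 / 2) ^ n := by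
    have e : ∀ n, ‖besT a n y‖ = y ^ n / ((n.factorial : ℝ) * ((n + a).factorial : ℝ)) := by
      intro n
      rw [besT, norm_div, norm_pow, norm_neg, Real.norm_of_nonneg h0,
        Real.norm_of_nonneg (by positivity)]
    intro n
    induction n with
    | zero => simp [e]
    | succ n ih =>
      rw [pow_succ, ← mul_assoc]
      refine le_trans ?_ (mul_le_mul_of_nonneg_right ih (by norm_num))
      have e1 := bes_fac_pos (n + N)
      have e2 := bes_fac_pos (n + N + a)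
      have e3 : (3 : ℝ) ≤ (n + N : ℕ) := by exact_mod_cast hN.trans (Nat.le_add_left _ _)
      have e4 : ((n + N : ℕ) : ℝ) ≤ (n + N + a : ℕ) := by exact_mod_cast Nat.le_add_right _ _
      rw [e, e, show n + 1 + N = n + N + 1 by ring, show n + N + 1 + a = n + N + a + 1 by ring,
        Nat.factorial_succ, Nat.factorial_succ, Nat.cast_mul, Nat.cast_mul, Nat.cast_succ,
        Nat.cast_succ, pow_succ]
      generalize ((n + N : ℕ) : ℝ) = u at *
      generalize ((n + N + a : ℕ) : ℝ) = v at *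
      rw [show y ^ (n + N) * y / ((u + 1) * (n + N).factorial * ((v + 1) * (n + N + a).factorial)) =
        y ^ (n + N) / ((n + N).factorial * (n + N + a).factorial) * (y / ((u + 1) * (v + 1))) by
          field_simp]
      refine mul_le_mul_of_nonneg_left ?_ (by positivity)
      rw [div_le_iff₀ (by nlinarith)]
      nlinarith
  have h3 := (besT_summable a y).sum_add_tsum_nat_add N
  have h4 := tsum_of_norm_bounded (hasSum_geometric_two.mul_left _) h2
  rw [show S a y = ∑' n, besT a n y from rfl, ← h3, add_sub_cancel_left, mul_comm]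
  exact h4

lemma S_anti {a : ℕ} (h : ∀ y, 0 ≤ y → y ≤ 6.55 → 0 ≤ S (a + 1) y) (h' : 0 < S a 6.55) {y : ℝ}
    (h0 : 0 ≤ y) (h1 : y ≤ 6.55) : 0 < S a y := by
  have := antitoneOn_of_deriv_nonpos (convex_Icc (0 : ℝ) 6.55) (continuous_S a).continuousOn
    (fun u _ => (hasDerivAt_S a u).differentiableAt.differentiableWithinAt) fun u hu => by
      rw [(hasDerivAt_S a u).deriv]
      have := interior_subset hu
      linarith [h u this.1 this.2]
  exact h'.trans_le (this ⟨h0, h1⟩ ⟨by norm_num, le_rfl⟩ h1)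

lemma S6_nonneg (y : ℝ) (h0 : 0 ≤ y) (h1 : y ≤ 6.55) : 0 ≤ S 6 y := by
  have h := (abs_le.mp (S_tail 6 3 le_rfl h0 (by linarith))).1
  simp only [Finset.sum_range_succ, Finset.sum_range_zero, besT, Nat.factorial] at h
  norm_num at h
  nlinarith [mul_nonneg (sq_nonneg y) (sub_nonneg.mpr h1)]

lemma S5_pos {y : ℝ} (h0 : 0 ≤ y) (h1 : y ≤ 6.55) : 0 < S 5 y := by
  refine S_anti S6_nonneg ?_ h0 h1
  have h := (abs_le.mp (S_tail 5 8 (by norm_num) (y := 6.55) (by norm_num) (by norm_num))).1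
  simp only [Finset.sum_range_succ, Finset.sum_range_zero, besT, Nat.factorial] at h
  norm_num at h ⊢
  linarith

lemma S4_pos {y : ℝ} (h0 : 0 ≤ y) (h1 : y ≤ 6.55) : 0 < S 4 y := by
  refine S_anti (fun y h0 h1 => (S5_pos h0 h1).le) ?_ h0 h1
  have h := (abs_le.mp (S_tail 4 8 (by norm_num) (y := 6.55) (by norm_num) (by norm_num))).1
  simp only [Finset.sum_range_succ, Finset.sum_range_zero, besT, Nat.factorial] at h
  norm_num at h ⊢
  linarith

lemma S3_pos {y : ℝ} (h0 : 0 ≤ y) (h1 : y ≤ 6.55) : 0 < S 3 y := by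
  refine S_anti (fun y h0 h1 => (S4_pos h0 h1).le) ?_ h0 h1
  have h := (abs_le.mp (S_tail 3 8 (by norm_num) (y := 6.55) (by norm_num) (by norm_num))).1
  simp only [Finset.sum_range_succ, Finset.sum_range_zero, besT, Nat.factorial] at h
  norm_num at h ⊢
  linarith

lemma S2_pos {y : ℝ} (h0 : 0 ≤ y) (h1 : y ≤ 6.55) : 0 < S 2 y := by
  refine S_anti (fun y h0 h1 => (S3_pos h0 h1).le) ?_ h0 h1
  have h := (abs_le.mp (S_tail 2 10 (by norm_num) (y := 6.55) (by norm_num) (by norm_num))).1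
  simp only [Finset.sum_range_succ, Finset.sum_range_zero, besT, Nat.factorial] at h
  norm_num at h ⊢
  linarith

lemma exists_y1 : ∃ y : ℝ, 3.6 < y ∧ y < 3.675 ∧ S 1 y = 0 := by
  have h1 : 0 < S 1 3.6 := by
    have h := (abs_le.mp (S_tail 1 10 (by norm_num) (y := 3.6) (by norm_num) (by norm_num))).1
    simp only [Finset.sum_range_succ, Finset.sum_range_zero, besT, Nat.factorial] at h
    norm_num at h ⊢
    linarith
  have h2 : S 1 3.675 < 0 := by
    have h := (abs_le.mp (S_tail 1 10 (by norm_num) (y := 3.675) (by norm_num) (by norm_num))).2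
    simp only [Finset.sum_range_succ, Finset.sum_range_zero, besT, Nat.factorial] at h
    norm_num at h ⊢
    linarith
  obtain ⟨y, hy, h⟩ := intermediate_value_Ioo' (a := (3.6 : ℝ)) (b := 3.675) (by norm_num)
    (continuous_S 1).continuousOn ⟨h2, h1⟩
  exact ⟨y, hy.1, hy.2, h⟩

/-- The first zero of `S 1`, equal to `j_{1,1}^2 / 4`. -/
noncomputable def y1 : ℝ := exists_y1.choose

lemma y1_gt : 3.6 < y1 := exists_y1.choose_spec.1

lemma y1_lt : y1 < 3.675 := exists_y1.choose_spec.2.1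

lemma S1_y1 : S 1 y1 = 0 := exists_y1.choose_spec.2.2

lemma S1_strictAnti : StrictAntiOn (S 1) (Set.Icc 0 6.55) :=
  strictAntiOn_of_deriv_neg (convex_Icc _ _) (continuous_S 1).continuousOn fun u hu => by
    rw [(hasDerivAt_S 1 u).deriv]
    have := interior_subset hu
    linarith [S2_pos this.1 this.2]

lemma S1_pos {y : ℝ} (h0 : 0 ≤ y) (h1 : y < y1) : 0 < S 1 y := by
  have := y1_lt
  rw [← S1_y1]
  exact S1_strictAnti ⟨h0, by linarith⟩ ⟨by linarith, by linarith⟩ h1

lemma S1_neg {y : ℝ} (h0 : y1 < y) (h1 : y ≤ 6.55) : S 1 y < 0 := by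
  have := y1_gt
  rw [← S1_y1]
  exact S1_strictAnti ⟨by linarith, by linarith⟩ ⟨by linarith, h1⟩ h0

end Pool.Agent.MP_918781_an

end

-- part MP_918781_an.ODE
section

/-! Two one-dimensional inequalities, proved by Picone type identities. -/

namespace Pool.Agent.MP_918781_an

open Set

lemma ode_hasDerivAt_S (a : ℕ) (κ s : ℝ) :
    HasDerivAt (fun t => S a (κ * t)) (-S (a + 1) (κ * s) * κ) s :=
  ((hasDerivAt_S a (κ * s)).comp s ((hasDerivAt_id s).const_mul κ)).congr_deriv (by rw [mul_one])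

lemma ode_hasDerivAt_cube (κ s : ℝ) :
    HasDerivAt (fun t => t ^ 3 * S 3 (κ * t)) (s ^ 2 * S 2 (κ * s)) s := by
  refine ((hasDerivAt_pow 3 s).mul (ode_hasDerivAt_S 3 κ s)).congr_deriv ?_
  have h := S_rec 2 (κ * s)
  push_cast at h ⊢
  linear_combination (-s ^ 2) * h

lemma ode_cont_S (a : ℕ) (κ : ℝ) : Continuous fun t => S a (κ * t) :=
  (continuous_S a).comp (continuous_const.mul continuous_id)

lemma ode_cont_div {T M : ℝ} {g : ℝ → ℝ} (hg : ContinuousOn g (Icc 0 T))
    (hM : ∀ s ∈ Icc 0 T, |g s| ≤ M * s ^ 2) {k j : ℕ} (hk : k + (j + 1) = 4) :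
    ContinuousOn (fun s => g s ^ 2 / s ^ k) (Icc 0 T) := by
  intro s hs
  rcases hs.1.eq_or_lt with rfl | h
  · have h0 : g 0 = 0 := by simpa using hM 0 hs
    rw [ContinuousWithinAt, h0, zero_pow two_ne_zero, zero_div]
    refine squeeze_zero_norm' (a := fun s => M ^ 2 * s ^ (j + 1)) ?_ ?_
    · filter_upwards [self_mem_nhdsWithin] with s hs
      rcases hs.1.eq_or_lt with rfl | h
      · simp [h0]
      · rw [Real.norm_of_nonneg (by positivity), div_le_iff₀ (by positivity), mul_assoc,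
          ← pow_add, add_comm, hk, ← sq_abs]
        exact (pow_le_pow_left₀ (abs_nonneg _) (hM s hs) 2).trans_eq (by ring)
    · have : Continuous fun s : ℝ => M ^ 2 * s ^ (j + 1) := by fun_prop
      simpa using (this.tendsto 0).mono_left nhdsWithin_le_nhds
  · exact ((hg s hs).pow 2).div (continuousWithinAt_id.pow k) (pow_pos h k).ne'

lemma ode_f {Y : ℝ} (h0 : 0 < Y) (h1 : Y ≤ 6.55) :
    1 / Y - 1 / y1 ≤ 2 * S 1 Y / (Y ^ 3 * S 3 Y) := by
  have a1 := y1_gt
  have a2 := y1_lt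
  let f : ℝ → ℝ := fun y => 2 * S 1 y / (y ^ 3 * S 3 y) - y⁻¹
  have hd : ∀ y, 0 < y → y ≤ 6.55 →
      HasDerivAt f ((1 - (1 + S 1 y / (y * S 3 y)) ^ 2) / y ^ 2) y := by
    intro y h0 h1
    have h2 := S3_pos h0.le h1
    have h3 := ode_hasDerivAt_cube 1 y
    simp only [one_mul] at h3
    refine ((((hasDerivAt_S 1 y).const_mul 2).div h3 (by positivity)).sub
      (hasDerivAt_inv h0.ne')).congr_deriv ?_
    have h4 := S_rec 1 y
    have h5 : S 2 y = (y * S 3 y + S 1 y) / 2 := by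
      push_cast at h4
      linarith
    rw [h5]
    field_simp
    ring
  have h2 : f y1 ≤ f Y := by
    rcases le_total Y y1 with h | h
    · refine antitoneOn_of_deriv_nonpos (convex_Icc Y y1)
        (fun y hy => (hd y (by linarith [hy.1]) (by linarith [hy.2])).continuousAt.continuousWithinAt)
        (fun y hy => ?_) (fun y hy => ?_) ⟨le_rfl, h⟩ ⟨h, le_rfl⟩ h
      all_goals
        rw [interior_Icc] at hy
        have b1 : 0 < y := by linarith [hy.1]
        have b2 : y ≤ 6.55 := by linarith [hy.2]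
      · exact (hd y b1 b2).differentiableAt.differentiableWithinAt
      · rw [(hd y b1 b2).deriv]
        have b3 := div_pos (S1_pos b1.le hy.2) (mul_pos b1 (S3_pos b1.le b2))
        exact div_nonpos_of_nonpos_of_nonneg (by nlinarith) (by positivity)
    · refine monotoneOn_of_deriv_nonneg (convex_Icc y1 Y)
        (fun y hy => (hd y (by linarith [hy.1]) (by linarith [hy.2])).continuousAt.continuousWithinAt)
        (fun y hy => ?_) (fun y hy => ?_) ⟨le_rfl, h⟩ ⟨h, le_rfl⟩ h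
      all_goals
        rw [interior_Icc] at hy
        have b1 : 0 < y := by linarith [hy.1]
        have b2 : y ≤ 6.55 := by linarith [hy.2]
      · exact (hd y b1 b2).differentiableAt.differentiableWithinAt
      · rw [(hd y b1 b2).deriv]
        have b0 := mul_pos b1 (S3_pos b1.le b2)
        have b3 := div_neg_of_neg_of_pos (S1_neg hy.1 b2) b0
        have b4 : -1 ≤ S 1 y / (y * S 3 y) := by
          have h4 := S_rec 1 y
          push_cast at h4
          rw [le_div_iff₀ b0]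
          linarith [S2_pos b1.le b2]
        exact div_nonneg (by nlinarith) (by positivity)
  simp only [f, S1_y1, mul_zero, zero_div] at h2
  rw [one_div, one_div]
  linarith

lemma ode_even {κ T : ℝ} (hκ : 0 < κ) (hT : 0 < T) (h : κ * T ≤ 6.55) {p q : ℝ → ℝ}
    (hp : ContinuousOn p (Icc 0 T)) (hq : ContinuousOn q (Icc 0 T))
    (hd : ∀ s ∈ Ioo 0 T, HasDerivAt p (q s) s) (h0 : p T = 0) :
    κ ^ 2 * (1 / T - κ / y1) * (∫ s in (0 : ℝ)..T, s * p s) ^ 2 ≤
      ∫ s in (0 : ℝ)..T, (s ^ 2 * q s ^ 2 - κ * s * p s ^ 2) := by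
  have hB : ∀ s ∈ Icc 0 T, 0 < S 3 (κ * s) := fun s hs =>
    S3_pos (mul_nonneg hκ.le hs.1) (le_trans (by gcongr; exact hs.2) h)
  obtain ⟨M, hM⟩ := isCompact_Icc.exists_bound_of_continuousOn hp
  let l : ℝ → ℝ := fun s => ∫ t in (0 : ℝ)..s, t * p t
  have hc : ContinuousOn (fun t => t * p t) (Icc 0 T) := continuousOn_id.mul hp
  have hi : ∀ s ∈ Icc 0 T, IntervalIntegrable (fun t => t * p t) MeasureTheory.volume 0 s :=
    fun s hs => (hc.mono (by rw [uIcc_of_le hs.1]; exact Icc_subset_Icc_right hs.2)).intervalIntegrable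
  have hl : ContinuousOn l (Icc 0 T) := by
    have := intervalIntegral.continuousOn_primitive_interval' (hi T ⟨hT.le, le_rfl⟩) left_mem_uIcc
    rwa [uIcc_of_le hT.le] at this
  have hld : ∀ s ∈ Ioo 0 T, HasDerivAt l (s * p s) s := fun s hs =>
    intervalIntegral.integral_hasDerivAt_right (hi s ⟨hs.1.le, hs.2.le⟩)
      ((hc.mono Ioo_subset_Icc_self).stronglyMeasurableAtFilter isOpen_Ioo s hs)
      (hc.continuousAt (Icc_mem_nhds hs.1 hs.2))
  have hM0 : 0 ≤ M := (norm_nonneg _).trans (hM 0 ⟨le_rfl, hT.le⟩)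
  have hlM : ∀ s ∈ Icc 0 T, |l s| ≤ M * s ^ 2 := by
    intro s hs
    have := intervalIntegral.norm_integral_le_of_norm_le_const (a := 0) (b := s) (C := s * M)
      (f := fun t => t * p t) fun t ht => by
        rw [uIoc_of_le hs.1] at ht
        rw [norm_mul, Real.norm_of_nonneg ht.1.le]
        exact mul_le_mul ht.2 (hM t ⟨ht.1.le, ht.2.trans hs.2⟩) (norm_nonneg _) hs.1
    rw [sub_zero, abs_of_nonneg hs.1] at this
    exact this.trans_eq (by ring)
  let w : ℝ → ℝ := fun s => s ^ 2 * p s - 2 * l s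
  have hw : ContinuousOn w (Icc 0 T) :=
    ((continuousOn_id.pow 2).mul hp).sub (continuousOn_const.mul hl)
  have hwM : ∀ s ∈ Icc 0 T, |w s| ≤ 3 * M * s ^ 2 := by
    intro s hs
    refine (abs_sub _ _).trans ?_
    rw [abs_mul, abs_mul, abs_of_nonneg (sq_nonneg s), abs_two]
    nlinarith [hlM s hs, mul_le_mul_of_nonneg_left (hM s hs) (sq_nonneg s),
      Real.norm_eq_abs (p s)]
  have hwd : ∀ s ∈ Ioo 0 T, HasDerivAt w (s ^ 2 * q s) s := fun s hs =>
    (((hasDerivAt_pow 2 s).mul (hd s hs)).sub ((hld s hs).const_mul 2)).congr_deriv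
      (by push_cast; ring)
  let V : ℝ → ℝ := fun s => S 2 (κ * s) * w s ^ 2 / (s ^ 3 * S 3 (κ * s)) -
    2 * κ * (l s ^ 2 / s ^ 2)
  have hV : ContinuousOn V (Icc 0 T) := by
    have h1 := (((ode_cont_S 2 κ).continuousOn.div (ode_cont_S 3 κ).continuousOn
      fun s hs => (hB s hs).ne').mul (ode_cont_div hw hwM (k := 3) (j := 0) rfl)).sub
      ((continuousOn_const (c := 2 * κ)).mul (ode_cont_div hl hlM (k := 2) (j := 1) rfl))
    refine h1.congr fun s _ => ?_
    simp only [V, Pi.sub_apply, Pi.mul_apply, Pi.div_apply]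
    ring
  have h1 := intervalIntegral.sub_le_integral_of_hasDeriv_right_of_le hT.le hV
    (g' := fun s => s ^ 2 * q s ^ 2 - κ * s * p s ^ 2 -
      s ^ 2 * (q s - w s * S 2 (κ * s) / (s ^ 3 * S 3 (κ * s))) ^ 2)
    (φ := fun s => s ^ 2 * q s ^ 2 - κ * s * p s ^ 2) (fun s hs => by
      have b1 := hB s ⟨hs.1.le, hs.2.le⟩
      have b2 := hs.1
      refine (HasDerivAt.congr_deriv ((((ode_hasDerivAt_S 2 κ s).mul ((hwd s hs).pow 2)).div
        (ode_hasDerivAt_cube κ s) (by positivity)).sub (((((hld s hs).pow 2).div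
          (hasDerivAt_pow 2 s) (by positivity))).const_mul (2 * κ))) ?_).hasDerivWithinAt
      simp only [Pi.pow_apply, Pi.mul_apply, w]
      push_cast
      field_simp
      ring)
    ((((continuousOn_id.pow 2).mul (hq.pow 2)).sub
      ((continuousOn_const.mul continuousOn_id).mul (hp.pow 2))).integrableOn_Icc)
    fun s _ => sub_le_self _ (by positivity)
  refine le_trans ?_ h1
  have h2 := ode_f (mul_pos hκ hT) h
  have h3 := hB T ⟨hT.le, le_rfl⟩
  have h4 := S_rec 1 (κ * T)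
  have h5 : S 2 (κ * T) = (κ * T * S 3 (κ * T) + S 1 (κ * T)) / 2 := by
    push_cast at h4
    linarith
  have h6 : V T - V 0 = κ ^ 3 * (2 * S 1 (κ * T) / ((κ * T) ^ 3 * S 3 (κ * T))) * l T ^ 2 := by
    simp only [V, w, h0, h5]
    field_simp
    ring
  rw [h6, show κ ^ 2 * (1 / T - κ / y1) = κ ^ 3 * (1 / (κ * T) - 1 / y1) by field_simp]
  gcongr

lemma ode_odd {κ T : ℝ} (hκ : 0 < κ) (hT : 0 < T) (h : κ * T ≤ 6.55) {p q : ℝ → ℝ}
    (hp : ContinuousOn p (Icc 0 T)) (hq : ContinuousOn q (Icc 0 T))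
    (hd : ∀ s ∈ Ioo 0 T, HasDerivAt p (q s) s) (h0 : p T = 0) :
    0 ≤ ∫ s in (0 : ℝ)..T, (s ^ 3 * q s ^ 2 - κ * s ^ 2 * p s ^ 2) := by
  have hA : ∀ s ∈ Icc 0 T, 0 < S 2 (κ * s) := fun s hs =>
    S2_pos (mul_nonneg hκ.le hs.1) (le_trans (by gcongr; exact hs.2) h)
  have h1 := intervalIntegral.sub_le_integral_of_hasDeriv_right_of_le hT.le
    (g := fun s => -κ * (s ^ 3 * S 3 (κ * s) / S 2 (κ * s) * p s ^ 2))
    (continuousOn_const.mul (((((continuous_pow 3).mul (ode_cont_S 3 κ)).continuousOn).div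
      (ode_cont_S 2 κ).continuousOn fun s hs => (hA s hs).ne').mul (hp.pow 2)))
    (g' := fun s => s ^ 3 * q s ^ 2 - κ * s ^ 2 * p s ^ 2 -
      s ^ 3 * (q s + κ * p s * S 3 (κ * s) / S 2 (κ * s)) ^ 2)
    (φ := fun s => s ^ 3 * q s ^ 2 - κ * s ^ 2 * p s ^ 2) (fun s hs => by
      have b1 := hA s ⟨hs.1.le, hs.2.le⟩
      refine (HasDerivAt.congr_deriv ((((ode_hasDerivAt_cube κ s).div
        (ode_hasDerivAt_S 2 κ s) b1.ne').mul ((hd s hs).pow 2)).const_mul (-κ))
        ?_).hasDerivWithinAt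
      simp only [Pi.pow_apply, Pi.div_apply]
      push_cast
      field_simp
      ring)
    ((((continuousOn_id.pow 3).mul (hq.pow 2)).sub
      ((continuousOn_const.mul (continuousOn_id.pow 2)).mul (hp.pow 2))).integrableOn_Icc)
    fun s hs => sub_le_self _ (by have := hs.1; positivity)
  simpa [h0] using h1

end Pool.Agent.MP_918781_an

end

-- part MP_918781_an.Dir
section

/-! The inequality along one direction of the frequency plane. -/

namespace Pool.Agent.MP_918781_an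

open MeasureTheory Filter Topology Real Set
open scoped ENNReal ContDiff FourierTransform RealInnerProductSpace ComplexConjugate

/-- Weighted square integrals of the cosine transform of a profile. -/
noncomputable def II (W : ℕ → ℝ → ℝ) (a : ℕ) : ℝ :=
  ∫ ρ in Ioi (0 : ℝ), ρ * (2 * π * ρ) ^ (2 * a) * (FW W ρ * FW W ρ)

section prof

variable {R : ℝ} {W : ℕ → ℝ → ℝ}

lemma Prof.II_eq (hR : 0 < R) (h : Prof R W) (a : ℕ) :
    II W a = (4 ^ a / 2) * ∫ σ in (0 : ℝ)..R ^ 2, σ ^ a * Pool.Agent.MP_918781_an.abel R W a σ ^ 2 := by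
  rw [II, h.planch hR a h]
  simp only [sq]

lemma Prof.even_ineq (hR : 0 < R) (h : Prof R W) {κ : ℝ} (hκ : 0 < κ) (hb : κ * R ^ 2 ≤ 6.55) :
    8 * κ ^ 2 * (1 / R ^ 2 - κ / y1) * (FW W 0 / π) ^ 2 ≤ II W 2 - 4 * κ * II W 1 := by
  have hA := h.abel
  set A := Pool.Agent.MP_918781_an.abel R W with hAd
  have c1 := hA.cont 1
  have c2 := hA.cont 2
  have h1 := ode_even hκ (by positivity : 0 < R ^ 2) hb c1.continuousOn c2.continuousOn
    (fun s hs => hA.deriv 1 s hs.1) (hA.zero 1 _ le_rfl)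
  have h2 := hA.moment hR 0
  simp only [zero_add, pow_one, Nat.cast_zero, pow_zero, one_mul] at h2
  have h3 := h.FW_zero hR
  have hπ := pi_pos
  have h4 : FW W 0 / π = ∫ σ in (0 : ℝ)..R ^ 2, A 0 σ := by
    rw [h3, ← hAd]; field_simp
  have h5 : ∫ s in (0 : ℝ)..R ^ 2, (s ^ 2 * A 2 s ^ 2 - κ * s * A 1 s ^ 2) =
      (∫ s in (0 : ℝ)..R ^ 2, s ^ 2 * A 2 s ^ 2) - κ * ∫ s in (0 : ℝ)..R ^ 2, s ^ 1 * A 1 s ^ 2 := by
    rw [← intervalIntegral.integral_const_mul, ← intervalIntegral.integral_sub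
      (Continuous.intervalIntegrable (by fun_prop) _ _)
      (Continuous.intervalIntegrable (by fun_prop) _ _)]
    congr 1; funext s; ring
  rw [h.II_eq hR, h.II_eq hR, h4]
  rw [h2, h5] at h1
  rw [← hAd]
  nlinarith [h1]

lemma Prof.odd_ineq (hR : 0 < R) (h : Prof R W) {κ : ℝ} (hκ : 0 < κ) (hb : κ * R ^ 2 ≤ 6.55) :
    4 * κ * II W 2 ≤ II W 3 := by
  have hA := h.abel
  set A := Pool.Agent.MP_918781_an.abel R W with hAd
  have c1 := hA.cont 2
  have c2 := hA.cont 3
  have h1 := ode_odd hκ (by positivity : 0 < R ^ 2) hb c1.continuousOn c2.continuousOn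
    (fun s hs => hA.deriv 2 s hs.1) (hA.zero 2 _ le_rfl)
  have h5 : ∫ s in (0 : ℝ)..R ^ 2, (s ^ 3 * A 3 s ^ 2 - κ * s ^ 2 * A 2 s ^ 2) =
      (∫ s in (0 : ℝ)..R ^ 2, s ^ 3 * A 3 s ^ 2) - κ * ∫ s in (0 : ℝ)..R ^ 2, s ^ 2 * A 2 s ^ 2 := by
    rw [← intervalIntegral.integral_const_mul, ← intervalIntegral.integral_sub
      (Continuous.intervalIntegrable (by fun_prop) _ _)
      (Continuous.intervalIntegrable (by fun_prop) _ _)]
    congr 1; funext s; ring
  rw [h.II_eq hR, h.II_eq hR, ← hAd]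
  rw [h5] at h1
  nlinarith [h1]

lemma Prof.sq_le_II (hR : 0 < R) (hR' : R ≤ 4 / 3) (h : Prof R W) : FW W 0 ^ 2 ≤ II W 2 := by
  have hA := h.abel
  set A := Pool.Agent.MP_918781_an.abel R W with hAd
  have c1 := hA.cont 2
  have h0 := hA.moment hR 0
  have h1 := hA.moment hR 1
  simp only [zero_add, pow_one, Nat.cast_zero, pow_zero, one_mul, Nat.cast_one] at h0 h1
  have h3 := h.FW_zero hR
  rw [← hAd] at h3
  set m := ∫ σ in (0 : ℝ)..R ^ 2, A 0 σ with hm
  have h2 : ∫ σ in (0 : ℝ)..R ^ 2, σ ^ 2 * A 2 σ = 2 * m := by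
    rw [show (2 : ℕ) = 1 + 1 from rfl, h1, h0]; ring
  clear_value m
  have h4 : 0 ≤ ∫ σ in (0 : ℝ)..R ^ 2, σ ^ 2 * (A 2 σ - m) ^ 2 :=
    intervalIntegral.integral_nonneg (by positivity) fun σ _ => by positivity
  have h5 : ∫ σ in (0 : ℝ)..R ^ 2, σ ^ 2 * (A 2 σ - m) ^ 2 =
      (∫ σ in (0 : ℝ)..R ^ 2, σ ^ 2 * A 2 σ ^ 2) - 2 * m * (∫ σ in (0 : ℝ)..R ^ 2, σ ^ 2 * A 2 σ)
        + m ^ 2 * ∫ σ in (0 : ℝ)..R ^ 2, σ ^ 2 := by
    rw [← intervalIntegral.integral_const_mul, ← intervalIntegral.integral_const_mul,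
      ← intervalIntegral.integral_sub
      (Continuous.intervalIntegrable (by fun_prop) _ _)
      (Continuous.intervalIntegrable (by fun_prop) _ _), ← intervalIntegral.integral_add
      (Continuous.intervalIntegrable (by fun_prop) _ _)
      (Continuous.intervalIntegrable (by fun_prop) _ _)]
    congr 1; funext s; ring
  rw [h5, h2, integral_pow] at h4
  rw [h.II_eq hR, ← hAd, h3]
  have h6 : (R ^ 2) ^ (2 + 1) ≤ 6 := by
    calc (R ^ 2) ^ (2 + 1) ≤ ((4 / 3) ^ 2) ^ (2 + 1) := by gcongr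
      _ ≤ 6 := by norm_num
  have h7 : π ^ 2 ≤ 16 := by nlinarith [pi_le_four, pi_pos]
  have h8 : m ^ 2 * (((R ^ 2) ^ (2 + 1) - 0 ^ (2 + 1)) / ((2 : ℕ) + 1)) ≤ m ^ 2 * 2 := by
    gcongr
    norm_num at h6 ⊢
    linarith
  nlinarith [sq_nonneg m, mul_le_mul_of_nonneg_right h7 (sq_nonneg m)]

end prof

/-- The projection of `u` on the line of direction `e θ`, centred at `c`. -/
noncomputable def proj (u : E → ℝ) (θ c s : ℝ) : ℝ := ∫ t : ℝ, u (rot θ (c + s, t))

lemma Sm.contDiff_proj {u : E → ℝ} (hu : Sm u) (θ c : ℝ) : ContDiff ℝ ∞ (proj u θ c) := by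
  obtain ⟨M, hM⟩ := hu.2.isCompact.isBounded.subset_closedBall 0
  have he : proj u θ c = fun s => ∫ t in (-(|M| + 1))..(|M| + 1), u (rot θ (c + s, t)) := by
    funext s
    rw [proj, intervalIntegral.integral_eq_integral_of_support_subset]
    intro t ht
    have h1 := hM (subset_tsupport _ ht)
    simp only [Metric.mem_closedBall, dist_zero_right] at h1
    have h2 := norm_rot_sq θ (c + s, t)
    have h3 : |t| ≤ |M| := by
      rw [← sq_le_sq]
      nlinarith [norm_nonneg (rot θ (c + s, t)), sq_nonneg (c + s)]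
    rw [abs_le] at h3
    constructor <;> linarith [h3.1, h3.2]
  rw [he]
  exact contDiff_param _ _ (G := fun p => u (rot θ (c + p.1, p.2)))
    (hu.1.comp ((contDiff_rot θ).comp (by fun_prop)))

lemma Sm.proj_zero {u : E → ℝ} (hu : Sm u) {θ c R : ℝ}
    (h : ∀ x ∈ tsupport u, |⟪x, e θ⟫ - c| ≤ R) (s : ℝ) (hs : R ≤ |s|) : proj u θ c s = 0 := by
  have h1 : ∀ s, R < |s| → proj u θ c s = 0 := by
    intro s hs
    have : ∀ t, u (rot θ (c + s, t)) = 0 := by
      intro t
      by_contra hne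
      have := h _ (subset_tsupport _ hne)
      rw [inner_rot_e] at this
      simp only [add_sub_cancel_left] at this
      linarith
    simp [proj, this]
  have hc := (hu.contDiff_proj θ c).continuous
  rcases le_total 0 s with h0 | h0
  · have h2 : closure (Ioi s) ⊆ {s | proj u θ c s = 0} :=
      closure_minimal (fun x hx => h1 x (by
        rw [abs_of_nonneg h0] at hs
        exact lt_of_lt_of_le (lt_of_le_of_lt hs hx) (le_abs_self x)))
        (isClosed_eq hc continuous_const)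
    rw [closure_Ioi] at h2
    exact h2 self_mem_Ici
  · have h2 : closure (Iio s) ⊆ {s | proj u θ c s = 0} :=
      closure_minimal (fun x hx => h1 x (by
        rw [abs_of_nonpos h0] at hs
        have : x < s := hx
        exact lt_of_lt_of_le (by linarith) (neg_le_abs x)))
        (isClosed_eq hc continuous_const)
    rw [closure_Iio] at h2
    exact h2 self_mem_Iic

lemma integral_rot_shift {F : Type*} [NormedAddCommGroup F] [NormedSpace ℝ F] {f : E → F}
    (hf : Integrable f) (θ c : ℝ) : ∫ x, f x = ∫ s : ℝ, ∫ t : ℝ, f (rot θ (c + s, t)) := by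
  have hi := (integrable_rot θ).2 hf
  rw [integral_rot θ]
  rw [Measure.volume_eq_prod] at hi ⊢
  rw [integral_prod _ hi]
  exact (integral_add_left_eq_self (fun s => ∫ t : ℝ, f (rot θ (s, t))) c).symm

lemma Sm.integral_proj {u : E → ℝ} (hu : Sm u) (θ c : ℝ) :
    ∫ s, proj u θ c s = ∫ x, u x := (integral_rot_shift hu.integrable θ c).symm

lemma Sm.integrable_mul {u : E → ℝ} (hu : Sm u) {g : E → ℝ} (hg : Continuous g) :
    Integrable (fun x => u x * g x) :=
  (hu.continuous.mul hg).integrable_of_hasCompactSupport hu.2.mul_right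

lemma Sm.integral_mul_proj {u : E → ℝ} (hu : Sm u) (θ c : ℝ) :
    ∫ s, proj u θ c s * s = ∫ x, u x * (⟪x, e θ⟫ - c) := by
  rw [integral_rot_shift (hu.integrable_mul (by fun_prop)) θ c]
  simp only [inner_rot_e, add_sub_cancel_left, integral_mul_const, proj]

lemma Sm.ft_smul_e {u : E → ℝ} (hu : Sm u) (θ c ρ : ℝ) :
    ft u (ρ • e θ) = Complex.exp (↑(-2 * π * (c * ρ)) * Complex.I) *
      ∫ s : ℝ, Complex.exp (↑(-2 * π * (s * ρ)) * Complex.I) * (proj u θ c s : ℂ) := by
  rw [ft, Real.fourier_eq', integral_rot_shift _ θ c, ← integral_const_mul]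
  · congr 1; funext s
    simp only [inner_smul_right, inner_rot_e, smul_eq_mul, integral_const_mul, proj,
      integral_complex_ofReal]
    rw [← mul_assoc (Complex.exp _), ← Complex.exp_add]
    congr 2
    push_cast
    ring
  · simp only [smul_eq_mul]
    refine hu.integrable_ofReal.bdd_mul (c := 1) (by fun_prop) ?_
    exact Eventually.of_forall fun p => (Complex.norm_exp_ofReal_mul_I _).le

/-- Decomposition of a compactly supported smooth function on the line into two profiles. -/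
lemma exists_profiles {R : ℝ} (hR : 0 < R) {U : ℝ → ℝ} (hU : ContDiff ℝ ∞ U)
    (hz : ∀ s, R ≤ |s| → U s = 0) :
    ∃ We Wo, Prof R We ∧ Prof R Wo ∧ (∀ ρ, cosT U ρ = FW We ρ) ∧
      (∀ ρ, sinT U ρ = 2 * π * ρ * FW Wo ρ) ∧ FW We 0 = ∫ s, U s ∧ FW Wo 0 = ∫ s, U s * s := by
  have hc := hU.continuous
  set Ue : ℝ → ℝ := fun s => (U s + U (-s)) / 2 with hUe
  set Uo : ℝ → ℝ := fun s => (U s - U (-s)) / 2 with hUo
  have hn : ContDiff ℝ ∞ (fun s => U (-s)) := hU.comp contDiff_neg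
  have hes : ContDiff ℝ ∞ Ue := (hU.add hn).div_const 2
  have hos : ContDiff ℝ ∞ Uo := (hU.sub hn).div_const 2
  have hoc := hos.continuous
  have hez : ∀ s, R ≤ |s| → Ue s = 0 := fun s hs => by
    simp [hUe, hz s hs, hz (-s) (by simpa using hs)]
  have hoz : ∀ s, R ≤ |s| → Uo s = 0 := fun s hs => by
    simp [hUo, hz s hs, hz (-s) (by simpa using hs)]
  have hee : ∀ s, Ue (-s) = Ue s := fun s => by simp only [hUe, neg_neg]; ring
  have hoo : ∀ s, Uo (-s) = -Uo s := fun s => by simp only [hUo, neg_neg]; ring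
  have hie : Integrable Ue := hes.continuous.integrable_of_hasCompactSupport (hcs_of_abs hez)
  have hio : Integrable Uo := hoc.integrable_of_hasCompactSupport (hcs_of_abs hoz)
  set V : ℝ → ℝ := fun s => -∫ t in R..s, Uo t with hV
  have hVd : ∀ s, HasDerivAt V (-Uo s) s := fun s => (hoc.integral_hasStrictDerivAt R s).hasDerivAt.neg
  have hVs : ContDiff ℝ ∞ V := by
    rw [contDiff_infty_iff_deriv]
    refine ⟨fun s => (hVd s).differentiableAt, ?_⟩
    rw [funext fun s => (hVd s).deriv]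
    exact hos.neg
  have hVe : ∀ s, V (-s) = V s := by
    intro s
    have h1 : ∫ t in (-s)..s, Uo t = 0 := by
      have h2 := intervalIntegral.integral_comp_neg (a := -s) (b := s) Uo
      simp only [hoo, intervalIntegral.integral_neg, neg_neg] at h2
      linarith
    have h2 := intervalIntegral.integral_add_adjacent_intervals (a := R) (b := -s) (c := s)
      (μ := volume) (hoc.intervalIntegrable _ _) (hoc.intervalIntegrable _ _)
    simp only [hV]
    linarith
  have hVz : ∀ s, R ≤ s → V s = 0 := by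
    intro s hs
    simp only [hV, neg_eq_zero]
    rw [intervalIntegral.integral_congr (g := fun _ => 0), intervalIntegral.integral_zero]
    intro t ht
    rw [uIcc_of_le hs] at ht
    exact hoz t (le_trans ht.1 (le_abs_self t))
  have hVz' : ∀ s, R ≤ |s| → V s = 0 := by
    intro s hs
    rcases abs_choice s with h1 | h1 <;> rw [h1] at hs
    · exact hVz s hs
    · rw [← hVe]; exact hVz _ hs
  have hVc := hVs.continuous
  have hiV : Integrable V := hVc.integrable_of_hasCompactSupport (hcs_of_abs hVz')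
  obtain ⟨We, hWe, hWe'⟩ := (EvenSm.mk hes hee fun s hs => hez s (hs.trans (le_abs_self s))).exists_prof hR
  obtain ⟨Wo, hWo, hWo'⟩ := (EvenSm.mk hVs hVe hVz).exists_prof hR
  have hsum : ∀ s, U s = Ue s + Uo s := fun s => by simp only [hUe, hUo]; ring
  have hcos : ∀ ρ, cosT U ρ = FW We ρ := by
    intro ρ
    have h1 := cosT_odd hoo ρ
    simp only [FW, hWe']
    unfold cosT at h1 ⊢
    simp only [hsum, add_mul]
    rw [integral_add (integrable_mul_bdd hie (by fun_prop) fun s => abs_cos_le_one _)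
      (integrable_mul_bdd hio (by fun_prop) fun s => abs_cos_le_one _), h1, add_zero]
  refine ⟨We, Wo, hWe, hWo, hcos, fun ρ => ?_, ?_, ?_⟩
  · have h1 := sinT_even hee ρ
    simp only [FW, hWo']
    unfold cosT
    unfold sinT at h1 ⊢
    simp only [hsum, add_mul]
    have i1 : Integrable fun s => Uo s * sin (2 * π * ρ * s) :=
      integrable_mul_bdd hio (by fun_prop) fun s => abs_sin_le_one _
    have i2 : Integrable fun s => V s * cos (2 * π * ρ * s) :=
      integrable_mul_bdd hiV (by fun_prop) fun s => abs_cos_le_one _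
    rw [integral_add (integrable_mul_bdd hie (by fun_prop) fun s => abs_sin_le_one _) i1, h1,
      zero_add]
    have hd : ∀ s, HasDerivAt (fun s => V s * sin (2 * π * ρ * s))
        (2 * π * ρ * (V s * cos (2 * π * ρ * s)) - Uo s * sin (2 * π * ρ * s)) s := by
      intro s
      have hl : HasDerivAt (fun s : ℝ => 2 * π * ρ * s) (2 * π * ρ) s := by
        simpa using (hasDerivAt_id s).const_mul (2 * π * ρ)
      convert! (hVd s).mul hl.sin using 1
      ring
    have h4 := integral_eq_zero_of_hasDerivAt_of_integrable hd ((i2.const_mul _).sub i1)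
      (integrable_mul_bdd hiV (by fun_prop) fun s => abs_sin_le_one _)
    rw [integral_sub (i2.const_mul _) i1, integral_const_mul] at h4
    linarith
  · rw [← hcos]; simp [cosT]
  · simp only [FW, hWo', cosT, mul_zero, zero_mul, cos_zero, mul_one]
    have i1 : Integrable fun s => Uo s * s :=
      (hoc.mul continuous_id).integrable_of_hasCompactSupport (hcs_of_abs hoz).mul_right
    have i2 : Integrable fun s => Ue s * s :=
      (hes.continuous.mul continuous_id).integrable_of_hasCompactSupport (hcs_of_abs hez).mul_right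
    have hd : ∀ s, HasDerivAt (fun s => V s * s) (V s - Uo s * s) s := by
      intro s
      convert! (hVd s).mul (hasDerivAt_id s) using 1
      simp only [id_eq]; ring
    have h4 := integral_eq_zero_of_hasDerivAt_of_integrable hd (hiV.sub i1)
      ((hVc.mul continuous_id).integrable_of_hasCompactSupport (hcs_of_abs hVz').mul_right)
    rw [integral_sub hiV i1] at h4
    have h5 := integral_neg_eq_self (fun s => Ue s * s) volume
    simp only [hee, mul_neg, integral_neg] at h5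
    simp only [hsum, add_mul]
    rw [integral_add i2 i1]
    linarith

/-- The inequality along the ray of direction `e θ`. -/
lemma dir_ineq {u : E → ℝ} (hu : Sm u) {θ c R κ : ℝ} (hR : 0 < R) (hR' : R ≤ 4 / 3)
    (hκ : 0 < κ) (hκ' : κ ≤ 3.68) (h : ∀ x ∈ tsupport u, |⟪x, e θ⟫ - c| ≤ R) :
    8 * κ ^ 2 * (1 / R ^ 2 - κ / y1) * ((∫ x, u x) / π) ^ 2 +
        4 * (3.68 - κ) * (∫ x, u x * (⟪x, e θ⟫ - c)) ^ 2 ≤
      ∫ r in Ioi (0 : ℝ), r * (((2 * π * ‖r • e θ‖) ^ 4 - 4 * κ * (2 * π * ‖r • e θ‖) ^ 2) *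
        ‖ft u (r • e θ)‖ ^ 2) := by
  have hU := hu.contDiff_proj θ c
  have hz := hu.proj_zero h
  obtain ⟨We, Wo, hWe, hWo, hcos, hsin, h0, h1⟩ := exists_profiles hR hU hz
  rw [hu.integral_proj] at h0
  rw [hu.integral_mul_proj] at h1
  have hiU : Integrable (proj u θ c) :=
    hU.continuous.integrable_of_hasCompactSupport (hcs_of_abs hz)
  have hn : ∀ ρ, ‖ft u (ρ • e θ)‖ ^ 2 = FW We ρ ^ 2 + (2 * π * ρ * FW Wo ρ) ^ 2 := by
    intro ρ
    rw [hu.ft_smul_e θ c, norm_mul, Complex.norm_exp_ofReal_mul_I, one_mul, integral_exp_mul hiU,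
      hcos, hsin, Complex.sq_norm, Complex.normSq_apply]
    simp only [Complex.sub_re, Complex.ofReal_re, Complex.mul_re, Complex.I_re, zero_mul,
      Complex.I_im, Complex.ofReal_im, mul_zero, sub_self, sub_zero, Complex.sub_im,
      Complex.mul_im, one_mul, zero_add, zero_sub]
    ring
  have hR2 : R ^ 2 ≤ (4 / 3) ^ 2 := by gcongr
  have e1 := hWe.even_ineq hR hκ (by nlinarith)
  have e2 := hWo.odd_ineq hR (κ := 3.68) (by norm_num) (by nlinarith)
  have e3 := hWo.sq_le_II hR hR'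
  have hsplit : ∫ r in Ioi (0 : ℝ), r * (((2 * π * ‖r • e θ‖) ^ 4 -
      4 * κ * (2 * π * ‖r • e θ‖) ^ 2) * ‖ft u (r • e θ)‖ ^ 2) =
      (II We 2 - 4 * κ * II We 1) + (II Wo 3 - 4 * κ * II Wo 2) := by
    unfold II
    rw [← integral_const_mul, ← integral_const_mul, ← integral_sub (hWe.integrableOn_pow hR _)
      ((hWe.integrableOn_pow hR _).const_mul _), ← integral_sub (hWo.integrableOn_pow hR _)
      ((hWo.integrableOn_pow hR _).const_mul _), ← integral_add]
    rotate_left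
    · exact (hWe.integrableOn_pow hR _).sub ((hWe.integrableOn_pow hR _).const_mul _)
    · exact (hWo.integrableOn_pow hR _).sub ((hWo.integrableOn_pow hR _).const_mul _)
    refine setIntegral_congr_fun measurableSet_Ioi fun r hr => ?_
    simp only [norm_smul_e (le_of_lt hr), hn]
    ring
  rw [hsplit, ← h0, ← h1]
  nlinarith [mul_le_mul_of_nonneg_left e3 (sub_nonneg.2 hκ')]

end Pool.Agent.MP_918781_an

end

-- part MP_918781_an.Strip
section

/-! The buckling quotient of a function supported in a strip of width `π/2`. -/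

namespace Pool.Agent.MP_918781_an

open MeasureTheory Filter Topology Real Set
open scoped ENNReal ContDiff FourierTransform RealInnerProductSpace

/-- The discrete inequality behind the strip estimate. -/
lemma st_discrete {f : ℤ → ℝ} (hf : ∀ n, 0 ≤ f n) {τ : ℝ} (hτ : 0 ≤ τ) {S0 S1 S2 L : ℝ}
    (h0 : HasSum (fun n => f n ^ 2) S0)
    (h1 : HasSum (fun n : ℤ => (16 * (n : ℝ) ^ 2) * f n ^ 2) S1)
    (h2 : HasSum (fun n : ℤ => (16 * (n : ℝ) ^ 2) ^ 2 * f n ^ 2) S2)
    (hL : HasSum f L) (hz : 2 * f 0 ≤ L) :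
    0 ≤ S2 + (2 * τ - 14.72) * S1 + τ * (τ - 14.72) * S0 := by
  have hS := (h2.add (h1.mul_left (2 * τ - 14.72))).add (h0.mul_left (τ * (τ - 14.72)))
  have hS' : HasSum (fun n : ℤ => ((16 * (n : ℝ) ^ 2 + τ) * (16 * (n : ℝ) ^ 2 + τ - 14.72)) *
      f n ^ 2) (S2 + (2 * τ - 14.72) * S1 + τ * (τ - 14.72) * S0) := by
    convert hS using 2
    ring
  rcases le_or_gt 14.72 τ with hl | hl
  · refine hS'.nonneg fun n => ?_
    have : (0 : ℝ) ≤ 16 * (n : ℝ) ^ 2 + τ - 14.72 := by nlinarith [sq_nonneg (n : ℝ)]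
    positivity
  set T := τ * (14.72 - τ) with hT
  have hT0 : 0 ≤ T := mul_nonneg hτ (by linarith)
  have hT1 : T ≤ 54.2 := by nlinarith [sq_nonneg (τ - 7.36)]
  set a := f 0 with ha
  have ha0 : 0 ≤ a := hf 0
  set p1 := (16 + τ) * (16 + τ - 14.72) with hp1
  have hp1pos : 0 < p1 := mul_pos (by linarith) (by linarith)
  have hTp : 2 * T * p1⁻¹ ≤ 0.88 := by
    rw [← div_eq_mul_inv, div_le_iff₀ hp1pos]
    nlinarith [sq_nonneg (τ - 2.47)]
  set δ := p1⁻¹ - 1 / 768 with hδ
  have hz2 : HasSum (fun n : ℤ => 1 / (n : ℝ) ^ 2) (π ^ 2 / 6 + π ^ 2 / 6 - 1 / ((0 : ℤ) : ℝ) ^ 2) := by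
    refine HasSum.of_nat_of_neg (f := fun n : ℤ => 1 / (n : ℝ) ^ 2) ?_ ?_
    · simpa using hasSum_zeta_two
    · simpa using hasSum_zeta_two
  have hq : HasSum (fun n : ℤ => 1 / 768 * (1 / (n : ℝ) ^ 2) + (if n = 1 then δ else 0) +
      (if n = -1 then δ else 0)) (1 / 768 * (π ^ 2 / 6 + π ^ 2 / 6 - 1 / ((0 : ℤ) : ℝ) ^ 2) + δ + δ) :=
    ((hz2.mul_left _).add (hasSum_ite_eq 1 δ)).add (hasSum_ite_eq (-1) δ)
  have hr := ((hL.mul_left (2 * T * a)).sub (hq.mul_left (T ^ 2 * a ^ 2))).sub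
    (hasSum_ite_eq (0 : ℤ) (3 * T * a ^ 2))
  have key : ∀ (p q x : ℝ), 0 < p → p⁻¹ ≤ q →
      2 * T * a * x - T ^ 2 * a ^ 2 * q ≤ p * x ^ 2 := by
    intro p q x hp hpq
    have h3 : T ^ 2 * a ^ 2 * p⁻¹ ≤ T ^ 2 * a ^ 2 * q := by gcongr
    have h4 : 0 ≤ p * (x - T * a * p⁻¹) ^ 2 := by positivity
    have h5 : p * (x - T * a * p⁻¹) ^ 2 = p * x ^ 2 - 2 * T * a * x + T ^ 2 * a ^ 2 * p⁻¹ := by
      field_simp
      ring
    linarith
  refine le_trans ?_ (hasSum_le (fun n => ?_) hr hS')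
  · have hpi : π ^ 2 ≤ 9.87 := by nlinarith [pi_lt_d4, pi_pos]
    have hb : T * (1 / 768 * (π ^ 2 / 6 + π ^ 2 / 6 - 1 / ((0 : ℤ) : ℝ) ^ 2) + δ + δ) ≤ 1 := by
      have e1 : T * (1 / 768 * (π ^ 2 / 6 + π ^ 2 / 6 - 1 / ((0 : ℤ) : ℝ) ^ 2) + δ + δ) =
          T * ((π ^ 2 / 3 - 2) / 768) + 2 * T * p1⁻¹ := by
        rw [hδ]; simp; ring
      have e2 : T * ((π ^ 2 / 3 - 2) / 768) ≤ 54.2 * (1.29 / 768) := by
        have e3 : (π ^ 2 / 3 - 2) / 768 ≤ 1.29 / 768 := by linarith
        refine le_trans (mul_le_mul_of_nonneg_left e3 hT0) ?_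
        gcongr
      rw [e1]
      norm_num at e2 hTp ⊢
      linarith
    have h6 : T * a * (2 * a) ≤ T * a * L := mul_le_mul_of_nonneg_left hz (by positivity)
    have h7 : T * a ^ 2 * (T * (1 / 768 * (π ^ 2 / 6 + π ^ 2 / 6 - 1 / ((0 : ℤ) : ℝ) ^ 2) + δ + δ))
        ≤ T * a ^ 2 * 1 := mul_le_mul_of_nonneg_left hb (by positivity)
    nlinarith
  · by_cases hn0 : n = 0
    · subst hn0
      simp only [Int.cast_zero]
      rw [← ha]
      norm_num
      rw [hT]
      nlinarith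
    by_cases hn1 : n = 1
    · subst hn1
      have := key p1 (1 / 768 + δ) (f 1) hp1pos (by rw [hδ]; linarith)
      refine le_trans (le_of_eq ?_) (this.trans (le_of_eq ?_))
      · norm_num
      · rw [hp1]; norm_num
    by_cases hn2 : n = -1
    · subst hn2
      have := key p1 (1 / 768 + δ) (f (-1)) hp1pos (by rw [hδ]; linarith)
      refine le_trans (le_of_eq ?_) (this.trans (le_of_eq ?_))
      · norm_num
      · rw [hp1]; norm_num
    have hn4 : (4 : ℝ) ≤ (n : ℝ) ^ 2 := by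
      have : (4 : ℤ) ≤ n ^ 2 := by
        rcases le_or_gt 0 n with h | h
        · nlinarith [show 2 ≤ n by omega]
        · nlinarith [show n ≤ -2 by omega]
      exact_mod_cast this
    simp only [hn0, hn1, hn2, if_false, add_zero, sub_zero]
    refine key _ _ _ (mul_pos (by linarith) (by linarith)) ?_
    have h8 : 768 * (n : ℝ) ^ 2 ≤
        (16 * (n : ℝ) ^ 2 + τ) * (16 * (n : ℝ) ^ 2 + τ - 14.72) := by
      calc 768 * (n : ℝ) ^ 2 = (16 * (n : ℝ) ^ 2) * 48 := by ring
        _ ≤ (16 * (n : ℝ) ^ 2 + τ) * (16 * (n : ℝ) ^ 2 + τ - 14.72) :=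
          mul_le_mul (by linarith) (by linarith) (by norm_num) (by linarith)
    calc _ ≤ (768 * (n : ℝ) ^ 2)⁻¹ := inv_anti₀ (by linarith) h8
      _ = _ := by rw [mul_inv]; ring

/-- Sampling for a continuous function vanishing outside an interval of length `w`. -/
lemma st_sampling {g : ℝ → ℂ} (hg : Continuous g) {a w : ℝ} (hw : 0 < w)
    (hz : ∀ s, s ≤ a ∨ a + w ≤ s → g s = 0) {C : ℝ}
    (hC : ∀ x, ‖𝓕 g x‖ ≤ C * (1 + x ^ 2)⁻¹) (hc : Continuous (𝓕 g)) :
    Integrable (fun x => ‖𝓕 g x‖ ^ 2) ∧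
    HasSum (fun n : ℤ => ‖𝓕 g (n / w)‖ ^ 2) (w * ∫ x, ‖𝓕 g x‖ ^ 2) ∧
    ∃ L, HasSum (fun n : ℤ => ‖𝓕 g (n / w)‖) L ∧ 2 * ‖𝓕 g (((0 : ℤ) : ℝ) / w)‖ ≤ L := by
  have hC0 : 0 ≤ C := by
    have := le_trans (norm_nonneg _) (hC 0)
    simpa using this
  have hab : a < a + w := lt_add_of_pos_right a hw
  have hsupp : HasCompactSupport g := by
    refine HasCompactSupport.intro (isCompact_Icc (a := a) (b := a + w)) fun x hx => hz x ?_
    rw [mem_Icc, not_and_or, not_le, not_le] at hx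
    exact hx.imp le_of_lt le_of_lt
  have hgi : Integrable g := hg.integrable_of_hasCompactSupport hsupp
  have hFi : Integrable (𝓕 g) :=
    (integrable_inv_one_add_sq.const_mul C).mono' hc.aestronglyMeasurable
      (Eventually.of_forall hC)
  have hFb : ∀ x, ‖𝓕 g x‖ ≤ C := fun x => (hC x).trans (by
    have : (1 + x ^ 2)⁻¹ ≤ 1 := inv_le_one_of_one_le₀ (by nlinarith [sq_nonneg x])
    nlinarith)
  have hsub : ∀ F : ℝ → ℂ, Function.support (fun x => F x * g x) ⊆ Ioc a (a + w) := by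
    intro F x hx
    by_contra hx'
    rw [mem_Ioc, not_and_or, not_lt, not_le] at hx'
    exact hx (by simp [hz x (hx'.imp id le_of_lt)])
  have hcoef : ∀ n : ℤ, fourierCoeffOn hab g n = (w⁻¹ : ℝ) • 𝓕 g (n / w) := by
    intro n
    rw [fourierCoeffOn_eq_integral, Real.fourier_eq']
    simp only [smul_eq_mul, add_sub_cancel_left, one_div]
    rw [intervalIntegral.integral_eq_integral_of_support_subset (hsub _)]
    congr 2
    funext x
    rw [fourier_coe_apply]
    congr 2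
    simp
    ring
  have hnorm : ∀ n : ℤ, ‖𝓕 g (n / w)‖ = w * ‖fourierCoeffOn hab g n‖ := by
    intro n
    rw [hcoef, norm_smul, Real.norm_of_nonneg (inv_nonneg.2 hw.le), ← mul_assoc,
      mul_inv_cancel₀ hw.ne', one_mul]
  refine ⟨?_, ?_, ?_⟩
  · refine (hFi.norm.const_mul C).mono' (hc.norm.pow 2).aestronglyMeasurable
      (Eventually.of_forall fun x => ?_)
    rw [Real.norm_of_nonneg (by positivity), sq]
    exact mul_le_mul_of_nonneg_right (hFb x) (norm_nonneg _)
  · have hL2 : MemLp g 2 (volume.restrict (Ioc a (a + w))) :=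
      (hg.memLp_of_hasCompactSupport hsupp).restrict _
    have h := (hasSum_sq_fourierCoeffOn hab hL2).mul_left (w ^ 2)
    have hs2 : Function.support (fun x => ‖g x‖ ^ 2) ⊆ Ioc a (a + w) := by
      intro x hx
      refine hsub (fun _ => 1) ?_
      simpa using hx
    rw [intervalIntegral.integral_eq_integral_of_support_subset hs2,
      ← planch_gen_sq hgi hg hFi] at h
    have e1 : w ^ 2 * (a + w - a)⁻¹ • ∫ ξ : ℝ, ‖𝓕 g ξ‖ ^ 2 = w * ∫ ξ : ℝ, ‖𝓕 g ξ‖ ^ 2 := by
      simp only [add_sub_cancel_left, smul_eq_mul]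
      field_simp
    rw [e1] at h
    simpa only [hnorm, mul_pow] using h
  · have hsum : Summable fun n : ℤ => ‖𝓕 g (n / w)‖ := by
      have h1 : Summable fun n : ℤ => C * w ^ 2 * (1 / (n : ℝ) ^ 2) :=
        (Real.summable_one_div_int_pow.2 one_lt_two).mul_left _
      refine Summable.of_norm_bounded_eventually h1 ?_
      filter_upwards [(Set.finite_singleton (0 : ℤ)).compl_mem_cofinite] with n hn
      have hn' : (n : ℝ) ≠ 0 := by exact_mod_cast hn
      rw [norm_norm]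
      refine (hC _).trans ?_
      rw [mul_assoc]
      refine mul_le_mul_of_nonneg_left ?_ hC0
      calc (1 + ((n : ℝ) / w) ^ 2)⁻¹ ≤ (((n : ℝ) / w) ^ 2)⁻¹ :=
            inv_anti₀ (by positivity) (by linarith)
        _ = _ := by field_simp
    refine ⟨_, hsum.hasSum, ?_⟩
    have : Fact (0 < w) := ⟨hw⟩
    let G : C(AddCircle w, ℂ) := ⟨AddCircle.liftIoc w a g, AddCircle.liftIoc_continuous
      (by rw [hz a (Or.inl le_rfl), hz (a + w) (Or.inr le_rfl)]) hg.continuousOn⟩
    have hG : ∀ n, fourierCoeff G n = fourierCoeffOn hab g n := fun n =>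
      fourierCoeff_liftIoc_eq g n
    have hsG : Summable fun n => ‖fourierCoeff G n‖ := by
      refine (hsum.mul_left w⁻¹).congr fun n => ?_
      rw [hG, hnorm, ← mul_assoc, inv_mul_cancel₀ hw.ne', one_mul]
    have hp := has_pointwise_sum_fourier_series_of_summable (f := G) hsG.of_norm
      ((a + w : ℝ) : AddCircle w)
    have hG0 : G ((a + w : ℝ) : AddCircle w) = 0 := by
      change AddCircle.liftIoc w a g _ = 0
      rw [AddCircle.liftIoc_coe_apply ⟨hab, le_rfl⟩, hz (a + w) (Or.inr le_rfl)]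
    rw [hG0] at hp
    set t : ℤ → ℂ := fun i => fourierCoeff G i • fourier i ((a + w : ℝ) : AddCircle w) with ht
    have htn : ∀ n, ‖t n‖ = ‖fourierCoeff G n‖ := by
      intro n
      rw [ht]
      simp only [norm_smul, fourier_apply, Circle.norm_coe, mul_one]
    have hu := hp.update 0 0
    have hun := (hsG.hasSum).update 0 0
    have hle : ‖0 - t 0 + 0‖ ≤ 0 - ‖fourierCoeff G 0‖ + ∑' n, ‖fourierCoeff G n‖ := by
      refine HasSum.norm_le_of_bounded hu hun fun n => ?_
      by_cases hn : n = 0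
      · subst hn; simp
      · rw [Function.update_of_ne hn, Function.update_of_ne hn, htn]
    simp only [zero_sub, add_zero, norm_neg, htn] at hle
    simp only [hnorm, ← hG]
    rw [tsum_mul_left]
    nlinarith

/-- The derivative in the direction `e θ`. -/
noncomputable def stD (θ : ℝ) (u : E → ℝ) (x : E) : ℝ := fderiv ℝ u x (e θ)

lemma Sm.stD {u : E → ℝ} (hu : Sm u) (θ : ℝ) : Sm (stD θ u) := by
  refine ⟨?_, ?_⟩
  · have h : ContDiff ℝ ∞ (fderiv ℝ u) := hu.1.fderiv_right (m := ∞) le_rfl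
    exact h.clm_apply contDiff_const
  · exact hu.2.fderiv_apply ℝ _

lemma tsupport_stD_subset (u : E → ℝ) (θ : ℝ) : tsupport (stD θ u) ⊆ tsupport u :=
  tsupport_fderiv_apply_subset ℝ _

lemma Sm.ft_stD {u : E → ℝ} (hu : Sm u) (θ : ℝ) (ξ : E) :
    ft (Pool.Agent.MP_918781_an.stD θ u) ξ = (2 * π * Complex.I * (⟪ξ, e θ⟫ : ℝ)) * ft u ξ := by
  have h := SchwartzMap.fourier_lineDerivOp_eq hu.sch (e θ)
  have h1 : LineDeriv.lineDerivOp (e θ) hu.sch = (hu.stD θ).sch := by
    ext x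
    rw [SchwartzMap.lineDerivOp_apply_eq_fderiv, Sm.sch_apply]
    have hd : HasFDerivAt (fun x => (u x : ℂ)) (Complex.ofRealCLM.comp (fderiv ℝ u x)) x :=
      Complex.ofRealCLM.hasFDerivAt.comp x
        ((hu.1.differentiable (by simp)) x).hasFDerivAt
    have : fderiv ℝ hu.sch x = Complex.ofRealCLM.comp (fderiv ℝ u x) := hd.fderiv
    rw [this]; rfl
  rw [h1] at h
  have ht : (fun x : E => inner ℝ x (e θ)).HasTemperateGrowth :=
    ((innerSL ℝ).flip _).hasTemperateGrowth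
  rw [(hu.stD θ).ft_eq, h, hu.ft_eq]
  simp only [smul_apply, SchwartzMap.smulLeftCLM_apply_apply ht]
  simp
  ring

lemma Sm.norm_ft_stD_sq {u : E → ℝ} (hu : Sm u) (θ a b : ℝ) :
    ‖ft (Pool.Agent.MP_918781_an.stD θ u) (rot θ (a, b))‖ ^ 2 =
      (2 * π * a) ^ 2 * ‖ft u (rot θ (a, b))‖ ^ 2 := by
  rw [hu.ft_stD, inner_rot_e, norm_mul, mul_pow]
  congr 1
  simp [mul_pow]

/-- Slices of the Fourier transform are Fourier transforms of functions on an interval. -/
lemma st_slice {v : E → ℝ} (hv : Sm v) (θ c : ℝ)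
    (h : ∀ x ∈ tsupport v, |⟪x, e θ⟫ - c| ≤ π / 4) (b : ℝ) :
    ∃ g : ℝ → ℂ, Continuous g ∧ (∀ s, s ≤ c - π / 4 ∨ c - π / 4 + π / 2 ≤ s → g s = 0) ∧
      𝓕 g = fun a => ft v (rot θ (a, b)) := by
  set F : ℝ → ℝ → ℂ := fun s t =>
    Complex.exp (↑(-2 * π * (t * b)) * Complex.I) * (v (rot θ (s, t)) : ℂ) with hF
  have hvc : Continuous fun p : ℝ × ℝ => (v (rot θ p) : ℂ) :=
    Complex.continuous_ofReal.comp (hv.continuous.comp (continuous_rot θ))
  have hFc : Continuous F.uncurry := by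
    have : Continuous fun p : ℝ × ℝ => Complex.exp (↑(-2 * π * (p.2 * b)) * Complex.I) := by
      fun_prop
    exact this.mul hvc
  have hg : Continuous fun s => ∫ t, F s t := by
    have hk : IsCompact ((fun x : E => ⟪x, e' θ⟫) '' tsupport v) :=
      hv.2.isCompact.image (by fun_prop)
    rw [← continuousOn_univ]
    refine continuousOn_integral_of_compact_support hk hFc.continuousOn fun s t _ ht => ?_
    have : v (rot θ (s, t)) = 0 := by
      by_contra hne
      exact ht ⟨rot θ (s, t), subset_tsupport _ hne, inner_rot_e' θ _⟩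
    simp [hF, this]
  have hzero : ∀ s, s < c - π / 4 ∨ c - π / 4 + π / 2 < s → ∫ t, F s t = 0 := by
    intro s hs
    have : ∀ t, F s t = 0 := by
      intro t
      have : v (rot θ (s, t)) = 0 := by
        by_contra hne
        have h1 := h _ (subset_tsupport _ hne)
        rw [inner_rot_e, abs_le] at h1
        rcases hs with hs | hs <;> linarith [h1.1, h1.2]
      simp [hF, this]
    simp [this]
  refine ⟨fun s => ∫ t, F s t, hg, fun s hs => ?_, ?_⟩
  · have hcl : IsClosed {s | ∫ t, F s t = 0} := isClosed_eq hg continuous_const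
    rcases hs with hs | hs
    · have : closure (Iio (c - π / 4)) ⊆ {s | ∫ t, F s t = 0} :=
        hcl.closure_subset_iff.2 fun s hs => hzero s (Or.inl hs)
      rw [closure_Iio] at this
      exact this hs
    · have : closure (Ioi (c - π / 4 + π / 2)) ⊆ {s | ∫ t, F s t = 0} :=
        hcl.closure_subset_iff.2 fun s hs => hzero s (Or.inr hs)
      rw [closure_Ioi] at this
      exact this hs
  · funext a
    have hvi : Integrable fun p : ℝ × ℝ => (v (rot θ p) : ℂ) :=
      (integrable_rot θ (f := fun x => (v x : ℂ))).2 hv.integrable_ofReal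
    have hI : Integrable (fun p : ℝ × ℝ =>
        Complex.exp (↑(-2 * π * (p.1 * a + p.2 * b)) * Complex.I) * (v (rot θ p) : ℂ))
        (volume.prod volume) := by
      refine hvi.bdd_mul (c := 1) (Continuous.aestronglyMeasurable (by fun_prop))
        (Eventually.of_forall fun p => ?_)
      rw [Complex.norm_exp_ofReal_mul_I]
    rw [ft, fourier_rot, Measure.volume_eq_prod, integral_prod _ hI, Real.fourier_eq']
    congr 1
    funext s
    rw [smul_eq_mul, ← integral_const_mul]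
    congr 1
    funext t
    rw [hF, ← mul_assoc, ← Complex.exp_add]
    congr 2
    simp
    ring

lemma st_slice_sampling {v : E → ℝ} (hv : Sm v) (θ c : ℝ)
    (h : ∀ x ∈ tsupport v, |⟪x, e θ⟫ - c| ≤ π / 4) (b : ℝ) :
    Integrable (fun a => ‖ft v (rot θ (a, b))‖ ^ 2) ∧
    HasSum (fun n : ℤ => ‖ft v (rot θ (n / (π / 2), b))‖ ^ 2)
      (π / 2 * ∫ a, ‖ft v (rot θ (a, b))‖ ^ 2) ∧
    ∃ L, HasSum (fun n : ℤ => ‖ft v (rot θ (n / (π / 2), b))‖) L ∧
      2 * ‖ft v (rot θ (((0 : ℤ) : ℝ) / (π / 2), b))‖ ≤ L := by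
  obtain ⟨g, hg, hz, hF⟩ := st_slice hv θ c h b
  obtain ⟨C, hC0, hC⟩ := hv.ft_decay 2
  have := st_sampling hg (a := c - π / 4) (w := π / 2) (by positivity) hz (C := C) ?_ ?_
  · rw [hF] at this
    exact this
  · intro x
    rw [hF, ← div_eq_mul_inv, le_div_iff₀ (by positivity), mul_comm]
    refine le_trans (mul_le_mul_of_nonneg_right ?_ (norm_nonneg _)) (hC (rot θ (x, b)))
    have h1 := norm_rot_sq θ (x, b)
    simp only at h1
    nlinarith [norm_nonneg (rot θ (x, b)), sq_nonneg b]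
  · rw [hF]
    exact hv.continuous_ft.comp ((continuous_rot θ).comp (by fun_prop))

lemma st_inner {u : E → ℝ} (hu : Sm u) (θ c : ℝ)
    (h : ∀ x ∈ tsupport u, |⟪x, e θ⟫ - c| ≤ π / 4) (b : ℝ) :
    0 ≤ ∫ a, ((2 * π * ‖rot θ (a, b)‖) ^ 4 * ‖ft u (rot θ (a, b))‖ ^ 2 -
      14.72 * ((2 * π * ‖rot θ (a, b)‖) ^ 2 * ‖ft u (rot θ (a, b))‖ ^ 2)) := by
  have h1 : ∀ x ∈ tsupport (stD θ u), |⟪x, e θ⟫ - c| ≤ π / 4 := fun x hx =>
    h x (tsupport_stD_subset u θ hx)
  have h2 : ∀ x ∈ tsupport (stD θ (stD θ u)), |⟪x, e θ⟫ - c| ≤ π / 4 := fun x hx =>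
    h1 x (tsupport_stD_subset _ θ hx)
  obtain ⟨i0, s0, L, hL, hz⟩ := st_slice_sampling hu θ c h b
  obtain ⟨i1, s1, -⟩ := st_slice_sampling (hu.stD θ) θ c h1 b
  obtain ⟨i2, s2, -⟩ := st_slice_sampling ((hu.stD θ).stD θ) θ c h2 b
  simp only [(hu.stD θ).norm_ft_stD_sq] at i2 s2
  simp only [hu.norm_ft_stD_sq] at i1 s1 i2 s2
  have hn : ∀ n : ℤ, (2 * π * ((n : ℝ) / (π / 2))) ^ 2 = 16 * (n : ℝ) ^ 2 := by
    intro n
    have := pi_pos
    field_simp
    ring
  simp only [hn] at s1 s2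
  have key := st_discrete (f := fun n : ℤ => ‖ft u (rot θ (n / (π / 2), b))‖)
    (fun _ => norm_nonneg _) (τ := (2 * π * b) ^ 2) (sq_nonneg _) s0 s1
    (by simpa only [← mul_assoc, ← sq] using s2) hL hz
  set τ := (2 * π * b) ^ 2 with hτ
  have e1 : ∀ a : ℝ, (2 * π * ‖rot θ (a, b)‖) ^ 4 * ‖ft u (rot θ (a, b))‖ ^ 2 -
      14.72 * ((2 * π * ‖rot θ (a, b)‖) ^ 2 * ‖ft u (rot θ (a, b))‖ ^ 2) =
      (2 * π * a) ^ 2 * ((2 * π * a) ^ 2 * ‖ft u (rot θ (a, b))‖ ^ 2) +
        (2 * τ - 14.72) * ((2 * π * a) ^ 2 * ‖ft u (rot θ (a, b))‖ ^ 2) +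
        τ * (τ - 14.72) * ‖ft u (rot θ (a, b))‖ ^ 2 := by
    intro a
    have h3 : (2 * π * ‖rot θ (a, b)‖) ^ 2 = (2 * π * a) ^ 2 + τ := by
      rw [mul_pow, norm_rot_sq, hτ]; ring
    have h4 : (2 * π * ‖rot θ (a, b)‖) ^ 4 = ((2 * π * a) ^ 2 + τ) ^ 2 := by
      rw [← h3]; ring
    rw [h3, h4]
    ring
  simp only [e1]
  have i21 : Integrable fun a : ℝ =>
      (2 * π * a) ^ 2 * ((2 * π * a) ^ 2 * ‖ft u (rot θ (a, b))‖ ^ 2) +
        (2 * τ - 14.72) * ((2 * π * a) ^ 2 * ‖ft u (rot θ (a, b))‖ ^ 2) :=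
    i2.add (i1.const_mul _)
  rw [integral_add i21 (i0.const_mul _), integral_add i2 (i1.const_mul _),
    integral_const_mul, integral_const_mul]
  have e2 : ∀ a : ℝ, (2 * π * a) ^ 2 * ((2 * π * a) ^ 2 * ‖ft u (rot θ (a, b))‖ ^ 2) =
      ((2 * π * a) ^ 2) ^ 2 * ‖ft u (rot θ (a, b))‖ ^ 2 := fun a => by ring
  simp only [e2]
  refine le_of_mul_le_mul_left (a := π / 2) ?_ (by positivity)
  linarith

lemma strip {u : E → ℝ} (hu : Sm u) (θ c : ℝ)
    (h : ∀ x ∈ tsupport u, |⟪x, e θ⟫ - c| ≤ π / 4) : 14.72 * DD u ≤ NN u := by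
  have i4 : Integrable fun ξ : E => (2 * π * ‖ξ‖) ^ 4 * ‖ft u ξ‖ ^ 2 := by
    simpa only [mul_pow, mul_assoc] using
      ((hu.integrable_pow_ft_sq 4).const_mul (π ^ 4)).const_mul (2 ^ 4)
  have i2 : Integrable fun ξ : E => (2 * π * ‖ξ‖) ^ 2 * ‖ft u ξ‖ ^ 2 := by
    simpa only [mul_pow, mul_assoc] using
      ((hu.integrable_pow_ft_sq 2).const_mul (π ^ 2)).const_mul (2 ^ 2)
  have i : Integrable fun ξ : E => (2 * π * ‖ξ‖) ^ 4 * ‖ft u ξ‖ ^ 2 -
      14.72 * ((2 * π * ‖ξ‖) ^ 2 * ‖ft u ξ‖ ^ 2) := i4.sub (i2.const_mul 14.72)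
  rw [← sub_nonneg, hu.NN_eq, hu.DD_eq, ← integral_const_mul,
    ← integral_sub i4 (i2.const_mul _), integral_rot θ, Measure.volume_eq_prod,
    integral_prod_symm _ ((integrable_rot θ).2 i)]
  exact integral_nonneg fun b => st_inner hu θ c h b

end Pool.Agent.MP_918781_an

end

-- part MP_918781_an.Main
section

/-! The sharp inequality under a mean width bound, and its stability. -/

namespace Pool.Agent.MP_918781_an

open MeasureTheory Filter Topology Real Set
open scoped ENNReal ContDiff FourierTransform RealInnerProductSpace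

/-- First moment. -/
noncomputable def mom (u : E → ℝ) : E := !₂[∫ x, u x * x 0, ∫ x, u x * x 1]

lemma Sm.integral_mul_inner {u : E → ℝ} (hu : Sm u) (θ c : ℝ) :
    ∫ x, u x * (⟪x, e θ⟫ - c) = ⟪mom u, e θ⟫ - c * ∫ x, u x := by
  have i0 : Integrable fun x : E => u x * x 0 := hu.integrable_mul (by fun_prop)
  have i1 : Integrable fun x : E => u x * x 1 := hu.integrable_mul (by fun_prop)
  have h : ∀ x : E, u x * (⟪x, e θ⟫ - c) =
      (u x * x 0) * cos θ + (u x * x 1) * sin θ - c * u x := fun x => by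
    rw [inner_eq]; simp only [e_zero, e_one]; ring
  simp only [h]
  have i2 : Integrable fun x : E => (u x * x 0) * cos θ + (u x * x 1) * sin θ :=
    (i0.mul_const _).add (i1.mul_const _)
  rw [integral_sub i2 (hu.integrable.const_mul _),
    integral_add (i0.mul_const _) (i1.mul_const _), integral_mul_const, integral_mul_const,
    integral_const_mul, inner_eq]
  simp [mom]

lemma glob_ineq {u : E → ℝ} (hu : Sm u) {c R : ℝ → ℝ} (hc : Continuous c) (hRc : Continuous R)
    (hR : ∀ θ, 0 < R θ) (hR' : ∀ θ, R θ ≤ 4 / 3) {κ : ℝ} (hκ : 0 < κ) (hκ' : κ ≤ 3.68)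
    (h : ∀ θ, ∀ x ∈ tsupport u, |⟪x, e θ⟫ - c θ| ≤ R θ) :
    ∫ θ in (-π)..π, (8 * κ ^ 2 * (1 / R θ ^ 2 - κ / y1) * ((∫ x, u x) / π) ^ 2 +
        4 * (3.68 - κ) * (⟪mom u, e θ⟫ - c θ * ∫ x, u x) ^ 2) ≤ NN u - 4 * κ * DD u := by
  have i4 : Integrable fun ξ : E => (2 * π * ‖ξ‖) ^ 4 * ‖ft u ξ‖ ^ 2 := by
    simpa only [mul_pow, mul_assoc] using
      ((hu.integrable_pow_ft_sq 4).const_mul (π ^ 4)).const_mul (2 ^ 4)
  have i2 : Integrable fun ξ : E => (2 * π * ‖ξ‖) ^ 2 * ‖ft u ξ‖ ^ 2 := by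
    simpa only [mul_pow, mul_assoc] using
      ((hu.integrable_pow_ft_sq 2).const_mul (π ^ 2)).const_mul (2 ^ 2)
  have he : ∀ ξ : E, ((2 * π * ‖ξ‖) ^ 4 - 4 * κ * (2 * π * ‖ξ‖) ^ 2) * ‖ft u ξ‖ ^ 2 =
      (2 * π * ‖ξ‖) ^ 4 * ‖ft u ξ‖ ^ 2 - 4 * κ * ((2 * π * ‖ξ‖) ^ 2 * ‖ft u ξ‖ ^ 2) :=
    fun ξ => by ring
  have hi : Integrable fun ξ : E =>
      ((2 * π * ‖ξ‖) ^ 4 - 4 * κ * (2 * π * ‖ξ‖) ^ 2) * ‖ft u ξ‖ ^ 2 := by
    simp only [he]; exact i4.sub (i2.const_mul _)
  have h1 : NN u - 4 * κ * DD u = ∫ ξ : E,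
      ((2 * π * ‖ξ‖) ^ 4 - 4 * κ * (2 * π * ‖ξ‖) ^ 2) * ‖ft u ξ‖ ^ 2 := by
    simp only [he]
    rw [integral_sub i4 (i2.const_mul _), integral_const_mul, hu.NN_eq, hu.DD_eq]
  rw [h1, integral_polar' hi]
  refine intervalIntegral.integral_mono_on (by linarith [pi_pos]) ?_ (intervalIntegrable_polar hi)
    fun θ _ => ?_
  · refine Continuous.intervalIntegrable ?_ _ _
    have := continuous_e
    have h2 : Continuous fun θ => 1 / R θ ^ 2 :=
      continuous_const.div (hRc.pow 2) fun θ => (pow_pos (hR θ) 2).ne'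
    fun_prop
  · rw [← hu.integral_mul_inner]
    exact dir_ineq hu (hR θ) (hR' θ) hκ hκ' (h θ)

/-- Support function. -/
noncomputable def hs (K : Set E) (θ : ℝ) : ℝ := sSup ((fun x : E => ⟪x, e θ⟫) '' K)

/-- Width. -/
noncomputable def wd (K : Set E) (θ : ℝ) : ℝ := hs K θ + hs K (θ + π)

lemma continuous_hs {K : Set E} (hK : IsCompact K) : Continuous (hs K) := by
  have := continuous_e
  exact hK.continuous_sSup (f := fun θ (x : E) => ⟪x, e θ⟫) (by fun_prop)

lemma continuous_wd {K : Set E} (hK : IsCompact K) : Continuous (wd K) := by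
  have := continuous_hs hK
  unfold wd; fun_prop

lemma le_hs {K : Set E} (hK : IsCompact K) (θ : ℝ) {x : E} (hx : x ∈ K) : ⟪x, e θ⟫ ≤ hs K θ :=
  le_csSup (hK.image (by fun_prop)).bddAbove ⟨x, hx, rfl⟩

lemma exists_hs {K : Set E} (hK : IsCompact K) (hne : K.Nonempty) (θ : ℝ) :
    ∃ x ∈ K, ⟪x, e θ⟫ = hs K θ :=
  (hK.image (f := fun x : E => ⟪x, e θ⟫) (by fun_prop)).sSup_mem (hne.image _)

lemma neg_le_hs {K : Set E} (hK : IsCompact K) (θ : ℝ) {x : E} (hx : x ∈ K) :
    -⟪x, e θ⟫ ≤ hs K (θ + π) := by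
  have := le_hs hK (θ + π) hx
  rwa [e_add_pi, inner_neg_right] at this

lemma e_add_two_pi (θ : ℝ) : e (θ + 2 * π) = e θ := by
  ext i; fin_cases i <;> simp

lemma hs_periodic (K : Set E) : Function.Periodic (hs K) (2 * π) := fun θ => by
  simp only [hs, e_add_two_pi]

lemma wd_periodic (K : Set E) : Function.Periodic (wd K) π := fun θ => by
  simp only [wd]
  rw [show θ + π + π = θ + 2 * π by ring, hs_periodic K θ, add_comm]

lemma slab {K : Set E} (hK : IsCompact K) (θ : ℝ) {x : E} (hx : x ∈ K) :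
    |⟪x, e θ⟫ - (hs K θ - hs K (θ + π)) / 2| ≤ wd K θ / 2 := by
  have h1 := le_hs hK θ hx
  have h2 := neg_le_hs hK θ hx
  rw [abs_le, wd]
  constructor <;> linarith

lemma inner_sub_le_wd {K : Set E} (hK : IsCompact K) (θ : ℝ) {x y : E} (hx : x ∈ K) (hy : y ∈ K) :
    ⟪x - y, e θ⟫ ≤ wd K θ := by
  have h1 := le_hs hK θ hx
  have h2 := neg_le_hs hK θ hy
  rw [inner_sub_left, wd]
  linarith

lemma inner_e_e (α θ : ℝ) : ⟪e α, e θ⟫ = cos (θ - α) := by
  rw [inner_eq, cos_sub]; simp only [e_zero, e_one]; ring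

lemma exists_polar (ξ : E) : ∃ θ ∈ Icc (-π) π, ξ = ‖ξ‖ • e θ := by
  set z : ℂ := ⟨ξ 0, ξ 1⟩ with hz
  have hn : ‖z‖ = ‖ξ‖ := by
    have h1 : ‖z‖ ^ 2 = ‖ξ‖ ^ 2 := by
      rw [norm_sq_eq, Complex.sq_norm, Complex.normSq_apply]; simp [hz]; ring
    exact (pow_left_inj₀ (norm_nonneg _) (norm_nonneg _) two_ne_zero).1 h1
  refine ⟨z.arg, ⟨(Complex.neg_pi_lt_arg z).le, Complex.arg_le_pi z⟩, ?_⟩
  ext i; fin_cases i
  · have := Complex.norm_mul_cos_arg z
    simp only [Fin.zero_eta, PiLp.smul_apply, e_zero, smul_eq_mul, ← hn, this]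
    rfl
  · have := Complex.norm_mul_sin_arg z
    simp only [Fin.mk_one, PiLp.smul_apply, e_one, smul_eq_mul, ← hn, this]
    rfl

lemma wd_pos {u : E → ℝ} (hu : Sm u) (hne : u ≠ 0) (θ : ℝ) : 0 < wd (tsupport u) θ := by
  obtain ⟨x, hx⟩ := Function.ne_iff.1 hne
  have ho : IsOpen (Function.support u) := hu.continuous.isOpen_support
  obtain ⟨r, hr, hb⟩ := Metric.isOpen_iff.1 ho x hx
  have h1 : x + (r / 2) • e θ ∈ tsupport u := by
    refine subset_tsupport _ (hb ?_)
    rw [Metric.mem_ball, dist_eq_norm, add_sub_cancel_left, norm_smul_e (by positivity)]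
    linarith
  have h2 := inner_sub_le_wd hu.2.isCompact θ h1 (subset_tsupport _ hx)
  rw [add_sub_cancel_left, inner_smul_left, inner_e_e] at h2
  simp only [conj_trivial, sub_self, cos_zero, mul_one] at h2
  linarith

/-- A set of mean width at most two and some width larger than `8/3` is thin. -/
lemma thin_of_long {K : Set E} (hK : IsCompact K) (hne : K.Nonempty)
    (hw : ∫ θ in (-π)..π, wd K θ ≤ 4 * π) {θ₀ : ℝ} (h0 : 8 / 3 < wd K θ₀) :
    ∃ θ, wd K θ ≤ π / 2 := by
  by_contra hcon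
  push Not at hcon
  obtain ⟨x, hx, hx'⟩ := exists_hs hK hne θ₀
  obtain ⟨y, hy, hy'⟩ := exists_hs hK hne (θ₀ + π)
  rw [e_add_pi, inner_neg_right] at hy'
  have hd : 8 / 3 < ‖x - y‖ := by
    have h1 := real_inner_le_norm (x - y) (e θ₀)
    rw [norm_e, inner_sub_left] at h1
    rw [wd] at h0
    linarith
  obtain ⟨α, -, hα⟩ := exists_polar (x - y)
  have hlow : ∀ θ, ‖x - y‖ * cos (θ - α) ≤ wd K θ := fun θ => by
    have h1 := inner_sub_le_wd hK θ hx hy
    rw [hα, inner_smul_left, inner_e_e] at h1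
    simpa using h1
  have hc := continuous_wd hK
  have hπ := pi_pos
  set β := 3 * π / 10 with hβ
  have hp := wd_periodic K
  have e1 : ∫ θ in (-π)..0, wd K θ = ∫ θ in (α - β)..(α - β + π), wd K θ := by
    have := hp.intervalIntegral_add_eq (-π) (α - β)
    simpa using this
  have e2 : ∫ θ in (0 : ℝ)..π, wd K θ = ∫ θ in (α - β)..(α - β + π), wd K θ := by
    have := hp.intervalIntegral_add_eq 0 (α - β)
    simpa using this
  have e3 := intervalIntegral.integral_add_adjacent_intervals (a := -π) (b := 0) (c := π)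
    (μ := volume) (hc.intervalIntegrable _ _) (hc.intervalIntegrable _ _)
  have e4 := intervalIntegral.integral_add_adjacent_intervals (a := α - β) (b := α + β)
    (c := α - β + π) (μ := volume) (hc.intervalIntegrable _ _) (hc.intervalIntegrable _ _)
  have l1 : ∫ θ in (α - β)..(α + β), ‖x - y‖ * cos (θ - α) ≤ ∫ θ in (α - β)..(α + β), wd K θ :=
    intervalIntegral.integral_mono_on (by linarith)
      (Continuous.intervalIntegrable (by fun_prop) _ _) (hc.intervalIntegrable _ _)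
      fun θ _ => hlow θ
  have l2 : ∫ _ in (α + β)..(α - β + π), π / 2 ≤ ∫ θ in (α + β)..(α - β + π), wd K θ :=
    intervalIntegral.integral_mono_on (by linarith)
      (Continuous.intervalIntegrable (by fun_prop) _ _) (hc.intervalIntegrable _ _)
      fun θ _ => (hcon θ).le
  rw [intervalIntegral.integral_const_mul, intervalIntegral.integral_comp_sub_right
    (fun θ => cos θ) α, integral_cos] at l1
  rw [intervalIntegral.integral_const, smul_eq_mul] at l2
  have hs1 : sin β = (1 + √5) / 4 := by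
    rw [← cos_pi_div_five, ← cos_pi_div_two_sub]
    congr 1; rw [hβ]; ring
  rw [show α + β - α = β by ring, show α - β - α = -β by ring, sin_neg, hs1] at l1
  have h5 : 2.236 < √5 := Real.lt_sqrt_of_sq_lt (by norm_num)
  have p1 := pi_gt_d4
  have p2 := pi_lt_d4
  have l3 : 8 / 3 * (2 * ((1 + 2.236) / 4)) ≤ ‖x - y‖ * ((1 + √5) / 4 - -((1 + √5) / 4)) := by
    rw [sub_neg_eq_add, ← two_mul]
    gcongr
  have l4 : (α - β + π - (α + β)) * (π / 2) = π ^ 2 / 5 := by rw [hβ]; ring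
  have l5 : 3.1415 ^ 2 ≤ π ^ 2 := by gcongr
  rw [l4] at l2
  norm_num at l3 l5 p1 p2
  linarith

lemma one_div_sq_ge {R : ℝ} (h0 : 0 < R) (h1 : R ≤ 4 / 3) :
    2 * (1 - R) + (R - 1) ^ 2 ≤ 1 / R ^ 2 - 1 := by
  rw [le_sub_iff_add_le, le_div_iff₀ (by positivity)]
  have : 0 ≤ (R - 1) ^ 2 * (2 * R + 1 - R ^ 2) :=
    mul_nonneg (sq_nonneg _) (by nlinarith)
  nlinarith

section short

variable {u : E → ℝ}

lemma short_sharp (hu : Sm u) (hne : u ≠ 0)
    (hw : ∫ θ in (-π)..π, wd (tsupport u) θ ≤ 4 * π) (hs' : ∀ θ, wd (tsupport u) θ ≤ 8 / 3) :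
    (1 / 50) * ∫ θ in (-π)..π, ((∫ x, u x) ^ 2 * (wd (tsupport u) θ / 2 - 1) ^ 2 +
      (⟪mom u, e θ⟫ - (hs (tsupport u) θ - hs (tsupport u) (θ + π)) / 2 * ∫ x, u x) ^ 2) ≤
      NN u - 4 * y1 * DD u := by
  have hK := hu.2.isCompact
  have c1 := continuous_hs hK
  have c2 := continuous_wd hK
  have c3 := continuous_e
  have hy := y1_gt
  have hy' := y1_lt
  have hπ := pi_pos
  have hp := wd_pos hu hne
  refine le_trans ?_ (glob_ineq hu (c := fun θ => (hs (tsupport u) θ - hs (tsupport u) (θ + π)) / 2)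
    (R := fun θ => wd (tsupport u) θ / 2) (by fun_prop) (by fun_prop)
    (fun θ => by have := hp θ; positivity) (fun θ => by have := hs' θ; linarith) (κ := y1)
    (by linarith) (by linarith) fun θ x hx => slab hK θ hx)
  set m := ∫ x, u x with hm
  set A := 8 * y1 ^ 2 * (m / π) ^ 2 with hA
  have hA0 : 0 ≤ A := by positivity
  have hA1 : (1 / 50) * m ^ 2 ≤ A := by
    rw [hA, div_pow, ← mul_div_assoc, le_div_iff₀ (by positivity)]
    have : π ^ 2 ≤ 16 := by nlinarith [pi_le_four]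
    have h2 : 1 / 50 * π ^ 2 ≤ 8 * y1 ^ 2 := by nlinarith
    nlinarith [sq_nonneg m]
  have h1 : 0 ≤ ∫ θ in (-π)..π, A * (2 - wd (tsupport u) θ) := by
    rw [intervalIntegral.integral_const_mul, intervalIntegral.integral_sub
      (Continuous.intervalIntegrable (by fun_prop) _ _) (c2.intervalIntegrable _ _),
      intervalIntegral.integral_const, smul_eq_mul]
    apply mul_nonneg hA0
    linarith
  rw [← intervalIntegral.integral_const_mul]
  refine le_trans (le_add_of_nonneg_right h1) ?_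
  rw [← intervalIntegral.integral_add (Continuous.intervalIntegrable (by fun_prop) _ _)
    (Continuous.intervalIntegrable (by fun_prop) _ _)]
  refine intervalIntegral.integral_mono_on (by linarith)
    (Continuous.intervalIntegrable (by fun_prop) _ _) (Continuous.intervalIntegrable ?_ _ _)
    fun θ _ => ?_
  · have h2 : Continuous fun θ => 1 / (wd (tsupport u) θ / 2) ^ 2 :=
      continuous_const.div (by fun_prop) fun θ => by have := hp θ; positivity
    fun_prop
  · have h2 := one_div_sq_ge (R := wd (tsupport u) θ / 2) (by have := hp θ; positivity)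
      (by have := hs' θ; linarith)
    rw [div_self (by linarith : y1 ≠ 0)]
    have h3 := mul_le_mul_of_nonneg_left h2 hA0
    have h4 := mul_le_mul_of_nonneg_right hA1 (sq_nonneg (wd (tsupport u) θ / 2 - 1))
    set M := ⟪mom u, e θ⟫ - (hs (tsupport u) θ - hs (tsupport u) (θ + π)) / 2 * m
    have h5 : 1 / 50 * M ^ 2 ≤ 4 * (3.68 - y1) * M ^ 2 := by
      gcongr; linarith
    have h6 : 8 * y1 ^ 2 * (1 / (wd (tsupport u) θ / 2) ^ 2 - 1) * (m / π) ^ 2 =
        A * (1 / (wd (tsupport u) θ / 2) ^ 2 - 1) := by rw [hA]; ring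
    rw [h6]
    nlinarith

lemma short_gap (hu : Sm u) (hne : u ≠ 0) (hs' : ∀ θ, wd (tsupport u) θ ≤ 8 / 3) :
    14.72 * DD u ≤ NN u + 100 * (∫ x, u x) ^ 2 := by
  have hK := hu.2.isCompact
  have c1 := continuous_hs hK
  have c2 := continuous_wd hK
  have c3 := continuous_e
  have hy := y1_gt
  have hπ := pi_gt_three
  have hp := wd_pos hu hne
  have h := glob_ineq hu (c := fun θ => (hs (tsupport u) θ - hs (tsupport u) (θ + π)) / 2)
    (R := fun θ => wd (tsupport u) θ / 2) (by fun_prop) (by fun_prop)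
    (fun θ => by have := hp θ; positivity) (fun θ => by have := hs' θ; linarith) (κ := 3.68)
    (by norm_num) le_rfl fun θ x hx => slab hK θ hx
  set m := ∫ x, u x with hm
  have h1 : ∫ _ in (-π)..π, -(111 * (m / π) ^ 2) ≤ NN u - 4 * 3.68 * DD u := by
    refine le_trans (intervalIntegral.integral_mono_on (by linarith)
      (Continuous.intervalIntegrable (by fun_prop) _ _) (Continuous.intervalIntegrable ?_ _ _)
      fun θ _ => ?_) h
    · have h2 : Continuous fun θ => 1 / (wd (tsupport u) θ / 2) ^ 2 :=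
        continuous_const.div (by fun_prop) fun θ => by have := hp θ; positivity
      fun_prop
    · have h2 : 0 ≤ 1 / (wd (tsupport u) θ / 2) ^ 2 := by positivity
      have h3 : 3.68 / y1 ≤ 1.023 := by rw [div_le_iff₀ (by linarith)]; linarith
      have h4 : -111 ≤ 8 * 3.68 ^ 2 * (1 / (wd (tsupport u) θ / 2) ^ 2 - 3.68 / y1) := by
        nlinarith
      have h5 := mul_le_mul_of_nonneg_right h4 (sq_nonneg (m / π))
      simp only [sub_self, mul_zero, zero_mul, add_zero]
      linarith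
  rw [intervalIntegral.integral_const, smul_eq_mul] at h1
  have h2 : (π - -π) * -(111 * (m / π) ^ 2) = -(222 / π * m ^ 2) := by field_simp; ring
  have h3 : 222 / π ≤ 100 := by rw [div_le_iff₀ (by linarith)]; linarith
  have h4 := mul_le_mul_of_nonneg_right h3 (sq_nonneg m)
  rw [h2] at h1
  linarith

end short

lemma long_or_short {u : E → ℝ} (hu : Sm u) (hne : u ≠ 0)
    (hw : ∫ θ in (-π)..π, wd (tsupport u) θ ≤ 4 * π) :
    14.72 * DD u ≤ NN u ∨ ∀ θ, wd (tsupport u) θ ≤ 8 / 3 := by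
  by_cases h : ∀ θ, wd (tsupport u) θ ≤ 8 / 3
  · exact Or.inr h
  · push Not at h
    obtain ⟨θ₀, h0⟩ := h
    obtain ⟨x, hx⟩ := Function.ne_iff.1 hne
    obtain ⟨θ, hθ⟩ := thin_of_long hu.2.isCompact ⟨x, subset_tsupport _ hx⟩ hw h0
    exact Or.inl (strip hu θ _ fun x hx => (slab hu.2.isCompact θ hx).trans (by linarith))

/-- The sharp inequality. -/
lemma sharp {u : E → ℝ} (hu : Sm u) (hne : u ≠ 0)
    (hw : ∫ θ in (-π)..π, wd (tsupport u) θ ≤ 4 * π) : 4 * y1 * DD u ≤ NN u := by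
  rcases long_or_short hu hne hw with h | h
  · have := DD_nonneg u
    have := y1_lt
    nlinarith
  · have h1 := short_sharp hu hne hw h
    have h2 : 0 ≤ ∫ θ in (-π)..π, ((∫ x, u x) ^ 2 * (wd (tsupport u) θ / 2 - 1) ^ 2 +
      (⟪mom u, e θ⟫ - (hs (tsupport u) θ - hs (tsupport u) (θ + π)) / 2 * ∫ x, u x) ^ 2) :=
      intervalIntegral.integral_nonneg (by linarith [pi_pos]) fun θ _ => by positivity
    linarith

/-- Stability: almost extremal functions are supported in an almost unit disc. -/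
lemma stab {ε : ℝ} (h0 : 0 < ε) (h1 : ε ≤ 1) : ∃ δ : ℝ, 0 < δ ∧ ∀ u : E → ℝ, Sm u → u ≠ 0 →
    ∫ θ in (-π)..π, wd (tsupport u) θ ≤ 4 * π → NN u < (4 * y1 + δ) * DD u →
    ∃ z, tsupport u ⊆ Metric.closedBall z (1 + ε) := by
  refine ⟨ε ^ 3 / 10 ^ 7, by positivity, fun u hu hne hw hlt => ?_⟩
  have hδ : ε ^ 3 / 10 ^ 7 ≤ 1 / 100 := by
    have : ε ^ 3 ≤ 1 := pow_le_one₀ h0.le h1
    linarith
  have hδ0 : 0 < ε ^ 3 / 10 ^ 7 := by positivity
  have hD := DD_nonneg u
  have hy := y1_lt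
  rcases long_or_short hu hne hw with h | h
  · nlinarith
  have hK := hu.2.isCompact
  have c1 := continuous_hs hK
  have c2 := continuous_wd hK
  have c3 := continuous_e
  have hπ := pi_gt_three
  have a0 := sharp hu hne hw
  have a1 := short_sharp hu hne hw h
  have a2 := short_gap hu hne h
  set m := ∫ x, u x with hm
  set δ := ε ^ 3 / 10 ^ 7 with hδd
  have a3 : NN u - 4 * y1 * DD u < 10 ^ 4 * δ * m ^ 2 := by
    have b1 : DD u ≤ 50 * (NN u - 4 * y1 * DD u) + 5000 * m ^ 2 := by nlinarith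
    have b2 := mul_le_mul_of_nonneg_left b1 hδ0.le
    have b3 := mul_le_mul_of_nonneg_right hδ (sub_nonneg.2 a0)
    nlinarith
  have hm0 : m ≠ 0 := by
    intro hm0
    rw [hm0] at a3
    linarith
  set z : E := m⁻¹ • mom u with hz
  set g : ℝ → ℝ := fun θ => (wd (tsupport u) θ / 2 - 1) ^ 2 +
    ((hs (tsupport u) θ - hs (tsupport u) (θ + π)) / 2 - ⟪z, e θ⟫) ^ 2 with hg
  have hgc : Continuous g := by rw [hg]; fun_prop
  have hg0 : ∀ θ, 0 ≤ g θ := fun θ => by rw [hg]; positivity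
  have a4 : ∫ θ in (-π)..π, (m ^ 2 * (wd (tsupport u) θ / 2 - 1) ^ 2 +
      (⟪mom u, e θ⟫ - (hs (tsupport u) θ - hs (tsupport u) (θ + π)) / 2 * m) ^ 2) =
      m ^ 2 * ∫ θ in (-π)..π, g θ := by
    rw [← intervalIntegral.integral_const_mul]
    congr 1; funext θ
    simp only [hg, hz, inner_smul_left, conj_trivial]
    field_simp
    ring
  have a5 : ∫ θ in (-π)..π, g θ < 5 * 10 ^ 5 * δ := by
    have hm2 : 0 < m ^ 2 := by positivity
    rw [a4] at a1
    by_contra hc
    push Not at hc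
    have := mul_le_mul_of_nonneg_left hc hm2.le
    nlinarith
  refine ⟨z, fun p hp => ?_⟩
  by_contra hc
  rw [Metric.mem_closedBall, dist_eq_norm, not_le] at hc
  obtain ⟨α, -, hα⟩ := exists_polar (p - z)
  have hper : Function.Periodic g (2 * π) := fun θ => by
    have e1 := hs_periodic (tsupport u) θ
    have e2 := hs_periodic (tsupport u) (θ + π)
    simp only [hg, wd, e_add_two_pi, e1, show θ + 2 * π + π = θ + π + 2 * π by ring, e2]
  have b1 : ∫ θ in (-π)..π, g θ = ∫ θ in (α - ε / 2)..(α - ε / 2 + 2 * π), g θ := by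
    have := hper.intervalIntegral_add_eq (-π) (α - ε / 2)
    rwa [show -π + 2 * π = π by ring] at this
  have b2 := intervalIntegral.integral_add_adjacent_intervals (a := α - ε / 2) (b := α + ε / 2)
    (c := α - ε / 2 + 2 * π) (μ := volume) (hgc.intervalIntegrable _ _) (hgc.intervalIntegrable _ _)
  have b3 : 0 ≤ ∫ θ in (α + ε / 2)..(α - ε / 2 + 2 * π), g θ :=
    intervalIntegral.integral_nonneg (by linarith) fun θ _ => hg0 θ
  have b4 : ∫ _ in (α - ε / 2)..(α + ε / 2), ε ^ 2 / 8 ≤ ∫ θ in (α - ε / 2)..(α + ε / 2), g θ := by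
    refine intervalIntegral.integral_mono_on (by linarith)
      (Continuous.intervalIntegrable (by fun_prop) _ _) (hgc.intervalIntegrable _ _) fun θ hθ => ?_
    have d1 := le_hs hK θ hp
    have d2 : ⟪p - z, e θ⟫ = ‖p - z‖ * cos (θ - α) := by
      conv_lhs => rw [hα]
      rw [inner_smul_left, inner_e_e]; simp
    have d3 := one_sub_sq_div_two_le_cos (x := θ - α)
    have d4 : (θ - α) ^ 2 ≤ (ε / 2) ^ 2 := by
      apply sq_le_sq' <;> linarith [hθ.1, hθ.2]
    have d5 : 1 - ε ^ 2 / 8 ≤ cos (θ - α) := by nlinarith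
    have d6 : (1 + ε) * (1 - ε ^ 2 / 8) ≤ ‖p - z‖ * cos (θ - α) := by
      have : 0 ≤ 1 - ε ^ 2 / 8 := by nlinarith
      gcongr
    have d7 : 1 + ε / 2 ≤ (1 + ε) * (1 - ε ^ 2 / 8) := by nlinarith [mul_pos h0 h0]
    rw [inner_sub_left] at d2
    simp only [hg, wd]
    nlinarith [sq_nonneg ((hs (tsupport u) θ + hs (tsupport u) (θ + π)) / 2 - 1 -
      ((hs (tsupport u) θ - hs (tsupport u) (θ + π)) / 2 - ⟪z, e θ⟫))]
  rw [intervalIntegral.integral_const, smul_eq_mul] at b4
  have b5 : (α + ε / 2 - (α - ε / 2)) * (ε ^ 2 / 8) = ε ^ 3 / 8 := by ring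
  have b6 : 0 < ε ^ 3 := by positivity
  rw [b5] at b4
  rw [hδd] at a5
  linarith

end Pool.Agent.MP_918781_an

end
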