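import Pool.Agent.MP_918781_an.Four
import Pool.Agent.MP_918781_an.Mg.Main

-- part MP_918781_an.TestFn
section

/-! Almost extremal test functions on the unit disc, and a pointwise bound. -/

namespace Pool.Agent.MP_918781_an

open MeasureTheory Filter Topology Real Set
open scoped ENNReal ContDiff FourierTransform RealInnerProductSpace

lemma tf_prim {g : ℝ → ℝ} (hg : ContDiff ℝ ∞ g) (a : ℝ) :
    (∀ s, HasDerivAt (fun s => ∫ t in a..s, g t) (g s) s) ∧
      ContDiff ℝ ∞ (fun s => ∫ t in a..s, g t) := by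
  have h : ∀ s, HasDerivAt (fun s => ∫ t in a..s, g t) (g s) s := fun s =>
    (hg.continuous.integral_hasStrictDerivAt a s).hasDerivAt
  refine ⟨h, contDiff_infty_iff_deriv.2 ⟨fun s => (h s).differentiableAt, ?_⟩⟩
  rw [show deriv (fun s => ∫ t in a..s, g t) = g from funext fun s => (h s).deriv]
  exact hg

lemma tf_th {d : ℝ} (hd : 0 < d) : ∃ th th' : ℝ → ℝ, ContDiff ℝ ∞ th ∧
    (∀ r, HasDerivAt th (th' r) r) ∧ (∀ r, 0 ≤ th' r ∧ th' r ≤ 1) ∧ (∀ r, r ≤ d → th r = 0) ∧
    (∀ r, 0 ≤ th r) ∧ ∀ r, 0 ≤ r → r - 2 * d ≤ th r ∧ th r ≤ r := by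
  have hg : ContDiff ℝ ∞ fun t : ℝ => smoothTransition ((t - d) / d) :=
    smoothTransition.contDiff.comp ((contDiff_id.sub contDiff_const).div_const d)
  obtain ⟨h1, h2⟩ := tf_prim hg 0
  have hi : ∀ a b, IntervalIntegrable (fun t : ℝ => smoothTransition ((t - d) / d)) volume a b :=
    fun a b => hg.continuous.intervalIntegrable a b
  have hz : ∀ r, r ≤ d → ∫ t in (0 : ℝ)..r, smoothTransition ((t - d) / d) = 0 := fun r hr => by
    rw [intervalIntegral.integral_congr (g := fun _ => 0)]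
    · simp
    · intro t ht
      have : t ≤ d := by
        rcases mem_uIcc.1 ht with h | h <;> linarith [h.2]
      exact smoothTransition.zero_of_nonpos (div_nonpos_of_nonpos_of_nonneg (by linarith) hd.le)
  have hn : ∀ a b, a ≤ b → 0 ≤ ∫ t in a..b, smoothTransition ((t - d) / d) := fun a b h =>
    intervalIntegral.integral_nonneg h fun t _ => smoothTransition.nonneg _
  refine ⟨_, _, h2, h1, fun r => ⟨smoothTransition.nonneg _, smoothTransition.le_one _⟩, hz,
    fun r => ?_, fun r hr => ⟨?_, ?_⟩⟩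
  · rcases le_total r 0 with h | h
    · exact (hz r (by linarith)).ge
    · exact hn 0 r h
  · rcases le_total r (2 * d) with h | h
    · linarith [hn 0 r hr]
    · rw [← intervalIntegral.integral_add_adjacent_intervals (hi 0 (2 * d)) (hi (2 * d) r)]
      have h3 : ∫ t in (2 * d)..r, smoothTransition ((t - d) / d) = r - 2 * d := by
        rw [intervalIntegral.integral_congr (g := fun _ => 1)]
        · simp
        · intro t ht
          rw [uIcc_of_le h] at ht
          exact smoothTransition.one_of_one_le (by rw [le_div_iff₀ hd]; linarith [ht.1])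
      linarith [hn 0 (2 * d) (by linarith)]
  · have := intervalIntegral.integral_mono_on hr (hi 0 r) (intervalIntegrable_const (c := (1 : ℝ)))
      fun t _ => smoothTransition.le_one _
    simpa using this

lemma tf_hasFDerivAt {G : ℝ → ℝ} {g : ℝ} (x : E) (h : HasDerivAt G g (‖x‖ ^ 2)) :
    HasFDerivAt (fun y : E => G (‖y‖ ^ 2)) (g • (2 • innerSL ℝ x)) x :=
  h.comp_hasFDerivAt x (hasStrictFDerivAt_norm_sq x).hasFDerivAt

lemma tf_pd_rad {G G' : ℝ → ℝ} (h : ∀ s, HasDerivAt G (G' s) s) (i : Fin 2) :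
    pd i (fun y : E => G (‖y‖ ^ 2)) = fun x => 2 * x i * G' (‖x‖ ^ 2) := by
  funext x
  rw [pd, (tf_hasFDerivAt x (h _)).fderiv]
  simp [EuclideanSpace.inner_single_right]
  ring

lemma tf_pd_mul {G G' : ℝ → ℝ} (h : ∀ s, HasDerivAt G (G' s) s) (i : Fin 2) (x : E) :
    pd i (fun y : E => 2 * y i * G (‖y‖ ^ 2)) x =
      2 * G (‖x‖ ^ 2) + 4 * x i ^ 2 * G' (‖x‖ ^ 2) := by
  have h1 : HasFDerivAt (fun y : E => 2 * y i) ((2 : ℝ) • (EuclideanSpace.proj i : E →L[ℝ] ℝ)) x :=
    ((EuclideanSpace.proj i : E →L[ℝ] ℝ).hasFDerivAt).const_mul 2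
  have h2 : HasFDerivAt (fun y : E => 2 * y i * G (‖y‖ ^ 2)) _ x := h1.mul (tf_hasFDerivAt x (h _))
  rw [pd, h2.fderiv]
  simp [EuclideanSpace.inner_single_right]
  ring

lemma tf_radial {G : ℝ → ℝ} (hG : Continuous G) (h0 : ∀ s, 1 ≤ s → G s = 0) :
    ∫ x : E, G (‖x‖ ^ 2) = π * ∫ s in (0 : ℝ)..1, G s := by
  have hc : Continuous fun x : E => G (‖x‖ ^ 2) := by fun_prop
  have hs : HasCompactSupport fun x : E => G (‖x‖ ^ 2) :=
    HasCompactSupport.intro (isCompact_closedBall (0 : E) 1) fun x hx => h0 _ (by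
      have : 1 < ‖x‖ := by simpa using hx
      nlinarith)
  rw [integral_polar' (hc.integrable_of_hasCompactSupport hs)]
  have h1 : ∀ θ : ℝ, ∫ r in Ioi (0 : ℝ), r * G (‖r • e θ‖ ^ 2) = (∫ s in (0 : ℝ)..1, G s) / 2 := by
    intro θ
    have h2 : ∀ r : ℝ, ‖r • e θ‖ ^ 2 = r ^ 2 := fun r => by
      rw [norm_smul, norm_e, mul_one, Real.norm_eq_abs, sq_abs]
    simp only [h2]
    have h3 : ∫ r in Ioi (0 : ℝ), r * G (r ^ 2) = ∫ r in (0 : ℝ)..1, r * G (r ^ 2) := by
      rw [intervalIntegral.integral_of_le zero_le_one]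
      refine setIntegral_eq_of_subset_of_forall_sdiff_eq_zero measurableSet_Ioi Ioc_subset_Ioi_self
        fun r hr => ?_
      have h4 : 1 < r := by
        by_contra h5
        exact hr.2 ⟨hr.1, not_lt.1 h5⟩
      rw [h0 _ (by nlinarith), mul_zero]
    have h4 := intervalIntegral.integral_comp_mul_deriv (a := 0) (b := 1) (f := fun r : ℝ => r ^ 2)
      (f' := fun r => 2 * r) (g := G) (fun r _ => by simpa using hasDerivAt_pow 2 r)
      (by fun_prop) hG
    simp only [Function.comp_apply, one_pow, ne_eq, OfNat.ofNat_ne_zero, not_false_eq_true,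
      zero_pow] at h4
    rw [h3, ← h4, ← intervalIntegral.integral_div]
    exact intervalIntegral.integral_congr fun r _ => by ring
  simp only [h1, intervalIntegral.integral_const, smul_eq_mul]
  ring

/-- The radial profile. -/
noncomputable def tfF (s : ℝ) : ℝ := S 1 (y1 * s)

lemma tf_S (a : ℕ) (s : ℝ) : HasDerivAt (fun s => S a (y1 * s)) (-S (a + 1) (y1 * s) * y1) s := by
  have := (hasDerivAt_S a (y1 * s)).comp s ((hasDerivAt_id s).const_mul y1)
  rwa [mul_one] at this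

lemma tfF_anti : AntitoneOn tfF (Icc 0 1) := by
  refine antitoneOn_of_deriv_nonpos (convex_Icc 0 1)
    (fun s _ => (tf_S 1 s).continuousAt.continuousWithinAt)
    (fun s _ => (tf_S 1 s).differentiableAt.differentiableWithinAt) fun s hs => ?_
  rw [interior_Icc] at hs
  have h1 : deriv tfF s = _ := (tf_S 1 s).deriv
  have h2 := y1_gt
  have h3 := y1_lt
  have h4 : 0 < S 2 (y1 * s) := S2_pos (by nlinarith [hs.1]) (by nlinarith [hs.2])
  rw [h1]
  nlinarith

lemma tfF_zero : tfF 0 = 1 := by simp [tfF, S_zero]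

lemma tfF_one : tfF 1 = 0 := by simp [tfF, S1_y1]

lemma tfF_pos {s : ℝ} (h0 : 0 ≤ s) (h1 : s < 1) : 0 < tfF s :=
  S1_pos (by nlinarith [y1_gt]) (by nlinarith [y1_gt])

lemma tfF_smooth : ContDiff ℝ ∞ tfF := (contDiff_S 1).comp (contDiff_const.mul contDiff_id)

/-- The truncated profile. -/
lemma tf_profile {d : ℝ} (hd : 0 < d) : ∃ (p : ℝ → ℝ) (b : ℝ), ContDiff ℝ ∞ p ∧ 0 < b ∧ b < 1 ∧
    (∀ s, b ≤ s → p s = 0) ∧ (∀ s, 0 ≤ p s) ∧
    (∀ s ∈ Icc (0 : ℝ) 1, tfF s - 2 * d ≤ p s ∧ p s ≤ tfF s) ∧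
    ∀ s ∈ Icc (0 : ℝ) 1, deriv p s ^ 2 ≤ (S 2 (y1 * s) * y1) ^ 2 := by
  obtain ⟨th, th', h1, h2, h3, h4, h5, h6⟩ := tf_th hd
  obtain ⟨b, hb, hb'⟩ : ∃ b, tfF b < d ∧ b ∈ Ioo (0 : ℝ) 1 := by
    have h7 : ∀ᶠ s in 𝓝 (1 : ℝ), tfF s < d :=
      tfF_smooth.continuous.continuousAt.eventually (gt_mem_nhds (by rw [tfF_one]; exact hd))
    exact ((h7.filter_mono nhdsWithin_le_nhds).and
      (Ioo_mem_nhdsLT (by norm_num : (0 : ℝ) < 1))).exists
  obtain ⟨p, hp⟩ : ∃ p : ℝ → ℝ, p = fun s => if s ≤ 1 then th (tfF s) else 0 := ⟨_, rfl⟩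
  have hA : ∀ s, s < 1.5 → p s = th (tfF s) := fun s hs => by
    rw [hp]
    dsimp only
    split_ifs with h
    · rfl
    · have h7 : tfF s < 0 := S1_neg (by nlinarith [y1_gt]) (by nlinarith [y1_lt])
      exact (h4 _ (by linarith)).symm
  have hA' : ∀ s, s < 1.5 → p =ᶠ[𝓝 s] fun s => th (tfF s) := fun s hs =>
    (eventually_lt_nhds hs).mono hA
  have hB : ∀ s, b ≤ s → p s = 0 := fun s hs => by
    rw [hp]
    dsimp only
    split_ifs with h
    · have := tfF_anti ⟨hb'.1.le, hb'.2.le⟩ ⟨hb'.1.le.trans hs, h⟩ hs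
      exact h4 _ (by linarith)
    · rfl
  have hf0 : ∀ s ∈ Icc (0 : ℝ) 1, 0 ≤ tfF s := fun s hs =>
    tfF_one ▸ tfF_anti hs ⟨zero_le_one, le_rfl⟩ hs.2
  refine ⟨p, b, contDiff_iff_contDiffAt.2 fun s => ?_, hb'.1, hb'.2, hB, fun s => ?_,
    fun s hs => ?_, fun s hs => ?_⟩
  · rcases lt_or_ge s 1.5 with h | h
    · exact (h1.comp tfF_smooth).contDiffAt.congr_of_eventuallyEq (hA' s h)
    · refine (contDiffAt_const (c := (0 : ℝ))).congr_of_eventuallyEq ?_
      exact (eventually_gt_nhds (by linarith [hb'.2] : b < s)).mono fun t ht => hB t ht.le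
  · rw [hp]
    dsimp only
    split_ifs
    · exact h5 _
    · exact le_rfl
  · rw [hA s (by linarith [hs.2])]
    exact h6 _ (hf0 s hs)
  · have h7 : HasDerivAt (fun s => th (tfF s)) (th' (tfF s) * (-S 2 (y1 * s) * y1)) s :=
      (h2 (tfF s)).comp s (tf_S 1 s)
    rw [(hA' s (by linarith [hs.2])).deriv_eq, h7.deriv, mul_pow]
    have h8 : th' (tfF s) ^ 2 ≤ 1 := pow_le_one₀ (h3 _).1 (h3 _).2
    have h9 : (-S 2 (y1 * s) * y1) ^ 2 = (S 2 (y1 * s) * y1) ^ 2 := by ring
    rw [h9]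
    exact mul_le_of_le_one_left (sq_nonneg _) h8

lemma tf_key {d : ℝ} (hd : 0 < d) {p : ℝ → ℝ} (hp : ContDiff ℝ ∞ p) (h1 : p 1 = 0)
    (h0 : ∀ s, 0 ≤ p s) (h2 : ∀ s ∈ Icc (0 : ℝ) 1, tfF s - 2 * d ≤ p s ∧ p s ≤ tfF s)
    (h3 : ∀ s ∈ Icc (0 : ℝ) 1, deriv p s ^ 2 ≤ (S 2 (y1 * s) * y1) ^ 2) :
    ∫ s in (0 : ℝ)..1, ((p s + s * deriv p s) ^ 2 - y1 * (s * p s ^ 2)) ≤ 4 * d * y1 := by
  have hp' : Continuous (deriv p) := (contDiff_infty_iff_deriv.1 hp).2.continuous
  have hpc := hp.continuous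
  have hpd : ∀ s, HasDerivAt p (deriv p s) s := fun s =>
    ((contDiff_infty_iff_deriv.1 hp).1 s).hasDerivAt
  have hS : ∀ a, Continuous fun s => S a (y1 * s) := fun a =>
    (contDiff_S a).continuous.comp (continuous_const.mul continuous_id)
  have hΦ : ∀ s, HasDerivAt (fun s => s * p s ^ 2 - s ^ 2 * (S 2 (y1 * s) * y1) * S 1 (y1 * s))
      (p s ^ 2 + 2 * s * p s * deriv p s - y1 * s * S 1 (y1 * s) ^ 2 +
        s ^ 2 * (S 2 (y1 * s) * y1) ^ 2) s := fun s => by
    have a1 := (hasDerivAt_id s).mul ((hpd s).pow 2)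
    have a2 := ((hasDerivAt_pow 2 s).mul ((tf_S 2 s).mul_const y1)).mul (tf_S 1 s)
    have a3 := S_rec 1 (y1 * s)
    refine (a1.sub a2).congr_deriv ?_
    simp only [id, Pi.pow_apply, Pi.mul_apply]
    norm_num at a3 ⊢
    linear_combination (s * y1 * S 1 (y1 * s)) * a3
  have hc : Continuous fun s => p s ^ 2 + 2 * s * p s * deriv p s - y1 * s * S 1 (y1 * s) ^ 2 +
      s ^ 2 * (S 2 (y1 * s) * y1) ^ 2 := by
    have := hS 1
    have := hS 2
    fun_prop
  have h4 := intervalIntegral.integral_eq_sub_of_hasDerivAt (a := 0) (b := 1)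
    (fun s _ => hΦ s) (hc.intervalIntegrable 0 1)
  simp only [h1, mul_one, S1_y1] at h4
  have h5 := intervalIntegral.integral_mono_on (μ := volume) zero_le_one
    (f := fun s => (p s + s * deriv p s) ^ 2 - y1 * (s * p s ^ 2))
    (g := fun s => (p s ^ 2 + 2 * s * p s * deriv p s - y1 * s * S 1 (y1 * s) ^ 2 +
      s ^ 2 * (S 2 (y1 * s) * y1) ^ 2) + 4 * d * y1)
    (Continuous.intervalIntegrable (by fun_prop) 0 1)
    ((hc.add continuous_const).intervalIntegrable 0 1) fun s hs => by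
      have a1 := mul_le_mul_of_nonneg_left (h3 s hs) (sq_nonneg s)
      have a2 : tfF s ≤ 1 := tfF_zero ▸ tfF_anti ⟨le_rfl, zero_le_one⟩ hs hs.1
      obtain ⟨a3, a4⟩ := h2 s hs
      have a5 := h0 s
      have a6 : tfF s ^ 2 - p s ^ 2 ≤ 4 * d := by nlinarith
      have a7 : 0 ≤ tfF s ^ 2 - p s ^ 2 := by nlinarith
      have a8 : s * (tfF s ^ 2 - p s ^ 2) ≤ 4 * d := by nlinarith [hs.1, hs.2]
      have a9 := mul_le_mul_of_nonneg_left a8 (by linarith [y1_gt] : 0 ≤ y1)
      unfold tfF at a9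
      nlinarith
  rw [intervalIntegral.integral_add (hc.intervalIntegrable 0 1) intervalIntegrable_const, h4] at h5
  simpa using h5

lemma exists_near_extremal {ε : ℝ} (h0 : 0 < ε) (h1 : ε < 1) :
    ∃ c C : ℝ, 0 < c ∧ ∀ η : ℝ, 0 < η → ∃ v : E → ℝ, IsTest (Metric.ball 0 1) v ∧
      (∀ x, 0 ≤ v x) ∧ NN v - 4 * y1 * DD v ≤ η ∧ DD v ≤ C ∧
      ∀ x : E, ‖x‖ ≤ 1 - ε → c ≤ v x := by
  have hy := y1_gt
  have hm : 0 < tfF (1 - ε / 2) := tfF_pos (by linarith) (by linarith)
  refine ⟨ε / 2 * (tfF (1 - ε / 2) / 2), 4 * π, by positivity, fun η hη => ?_⟩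
  obtain ⟨d, hd, hd1, hd2⟩ : ∃ d : ℝ, 0 < d ∧ d ≤ tfF (1 - ε / 2) / 4 ∧
      d ≤ η / (64 * π * y1) :=
    ⟨min _ _, lt_min (by positivity) (by positivity), min_le_left _ _, min_le_right _ _⟩
  obtain ⟨p, b, hp, hb0, hb1, hpb, hp0, hpf, hpd⟩ := tf_profile hd
  have hp' : ContDiff ℝ ∞ (deriv p) := (contDiff_infty_iff_deriv.1 hp).2
  have hpc := hp.continuous
  have hpc' := hp'.continuous
  have hdp : ∀ s, HasDerivAt (fun s => -p s) (-deriv p s) s := fun s =>
    ((contDiff_infty_iff_deriv.1 hp).1 s).hasDerivAt.neg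
  have hdz : ∀ s, 1 ≤ s → deriv p s = 0 := fun s hs => by
    have : p =ᶠ[𝓝 s] fun _ => 0 :=
      (eventually_gt_nhds (by linarith : b < s)).mono fun t ht => hpb t ht.le
    rw [this.deriv_eq, deriv_const]
  obtain ⟨hΨ, hΨ'⟩ := tf_prim hp.neg 1
  have eΨ : ∀ s, ∫ t in (1 : ℝ)..s, -p t = ∫ t in s..1, p t := fun s => by
    rw [intervalIntegral.integral_neg, intervalIntegral.integral_symm, neg_neg]
  have hz : ∀ s, b ≤ s → ∫ t in (1 : ℝ)..s, -p t = 0 := fun s hs => by
    rw [intervalIntegral.integral_congr (g := fun _ => 0)]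
    · simp
    · intro t ht
      have : b ≤ t := by
        rcases mem_uIcc.1 ht with h | h <;> linarith [h.1]
      simp [hpb t this]
  obtain ⟨Ψ, hΨe⟩ : ∃ Ψ : ℝ → ℝ, Ψ = fun s => ∫ t in (1 : ℝ)..s, -p t := ⟨_, rfl⟩
  rw [← hΨe] at hΨ hΨ'
  have hsupp : ∀ x : E, x ∉ Metric.closedBall (0 : E) √b → Ψ (‖x‖ ^ 2) = 0 := fun x hx => by
    rw [hΨe]
    have h2 : √b < ‖x‖ := by simpa using hx
    exact hz _ ((Real.sqrt_lt' (lt_of_le_of_lt (Real.sqrt_nonneg _) h2)).1 h2).le
  have e1 : ∀ i, pd i (fun y : E => Ψ (‖y‖ ^ 2)) = fun x => 2 * x i * -p (‖x‖ ^ 2) :=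
    tf_pd_rad hΨ
  have eN : NN (fun y : E => Ψ (‖y‖ ^ 2)) =
      π * ∫ s in (0 : ℝ)..1, 16 * (p s + s * deriv p s) ^ 2 := by
    rw [← tf_radial (by fun_prop) fun s hs => by rw [hpb s (by linarith), hdz s hs]; ring, NN]
    congr 1; funext x
    rw [e1, e1, tf_pd_mul hdp, tf_pd_mul hdp]
    generalize p (‖x‖ ^ 2) = A
    generalize deriv p (‖x‖ ^ 2) = B
    rw [norm_sq_eq]; ring
  have eD : DD (fun y : E => Ψ (‖y‖ ^ 2)) = π * ∫ s in (0 : ℝ)..1, 4 * (s * p s ^ 2) := by
    rw [← tf_radial (by fun_prop) fun s hs => by rw [hpb s (by linarith)]; ring, DD]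
    congr 1; funext x
    rw [e1, e1]
    dsimp only
    generalize p (‖x‖ ^ 2) = A
    rw [norm_sq_eq]; ring
  refine ⟨fun y => Ψ (‖y‖ ^ 2), ⟨hΨ'.comp (contDiff_norm_sq ℝ),
    HasCompactSupport.intro (isCompact_closedBall _ _) hsupp, ?_⟩, fun x => ?_, ?_, ?_,
    fun x hx => ?_⟩
  · refine (closure_minimal (fun x hx => ?_) Metric.isClosed_closedBall).trans
      (Metric.closedBall_subset_ball ((Real.sqrt_lt' one_pos).2 (by linarith) : √b < 1))
    by_contra h
    exact hx (hsupp x h)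
  · rw [hΨe]
    dsimp only
    rcases le_total (‖x‖ ^ 2) 1 with h | h
    · rw [eΨ]; exact intervalIntegral.integral_nonneg h fun t _ => hp0 t
    · exact (hz _ (by linarith)).ge
  · have h2 := tf_key hd hp (hpb 1 hb1.le) hp0 hpf hpd
    rw [intervalIntegral.integral_sub (Continuous.intervalIntegrable (by fun_prop) 0 1)
      (Continuous.intervalIntegrable (by fun_prop) 0 1), intervalIntegral.integral_const_mul] at h2
    rw [eN, eD, intervalIntegral.integral_const_mul, intervalIntegral.integral_const_mul]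
    rw [le_div_iff₀ (by positivity)] at hd2
    nlinarith [mul_le_mul_of_nonneg_left h2 pi_pos.le]
  · rw [eD]
    have h2 := intervalIntegral.integral_mono_on (μ := volume) zero_le_one
      (f := fun s => 4 * (s * p s ^ 2)) (g := fun _ => 4)
      (Continuous.intervalIntegrable (by fun_prop) 0 1) intervalIntegrable_const fun s hs => by
        have a2 : tfF s ≤ 1 := tfF_zero ▸ tfF_anti ⟨le_rfl, zero_le_one⟩ hs hs.1
        have a3 : p s ^ 2 ≤ 1 := pow_le_one₀ (hp0 s) ((hpf s hs).2.trans a2)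
        have a4 : s * p s ^ 2 ≤ 1 := mul_le_one₀ hs.2 (sq_nonneg _) a3
        linarith
    simp only [intervalIntegral.integral_const, sub_zero, smul_eq_mul, one_mul] at h2
    nlinarith [pi_pos]
  · have h2 : ‖x‖ ^ 2 ≤ 1 - ε := by nlinarith [norm_nonneg x]
    have h3 : 0 ≤ ‖x‖ ^ 2 := sq_nonneg _
    rw [hΨe]
    dsimp only
    generalize ‖x‖ ^ 2 = s at *
    rw [eΨ, ← intervalIntegral.integral_add_adjacent_intervals (b := 1 - ε / 2)
      (hpc.intervalIntegrable _ _) (hpc.intervalIntegrable _ _)]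
    have h4 : 0 ≤ ∫ t in (1 - ε / 2)..1, p t :=
      intervalIntegral.integral_nonneg (by linarith) fun t _ => hp0 t
    have h5 := intervalIntegral.integral_mono_on (μ := volume) (by linarith : s ≤ 1 - ε / 2)
      (f := fun _ => tfF (1 - ε / 2) / 2) (g := p) intervalIntegrable_const
      (hpc.intervalIntegrable _ _) fun t ht => by
        have a1 : t ∈ Icc (0 : ℝ) 1 := ⟨by linarith [ht.1], by linarith [ht.2]⟩
        have a2 := tfF_anti a1 ⟨by linarith, by linarith⟩ ht.2
        linarith [(hpf t a1).1]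
    simp only [intervalIntegral.integral_const, smul_eq_mul] at h5
    nlinarith

lemma tf_line {u : E → ℝ} (hu : Sm u) (hs : tsupport u ⊆ Metric.closedBall 0 1) (y : E)
    (i : Fin 2) :
    Integrable (fun t : ℝ => u (y + t • EuclideanSpace.single i 1)) ∧
    HasCompactSupport (fun t : ℝ => u (y + t • EuclideanSpace.single i 1)) := by
  have h : HasCompactSupport (fun t : ℝ => u (y + t • EuclideanSpace.single i 1)) := by
    refine HasCompactSupport.intro (isCompact_closedBall (0 : ℝ) (1 + ‖y‖)) fun t ht => ?_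
    refine image_eq_zero_of_notMem_tsupport fun h => ht ?_
    have h1 : ‖y + t • EuclideanSpace.single i (1 : ℝ)‖ ≤ 1 := by simpa using hs h
    have h2 : ‖t • EuclideanSpace.single i (1 : ℝ)‖ = ‖t‖ := by simp [norm_smul]
    have h3 := norm_sub_le (y + t • EuclideanSpace.single i (1 : ℝ)) y
    rw [add_sub_cancel_left, h2] at h3
    rw [mem_closedBall_zero_iff]
    linarith
  have hc := hu.continuous
  exact ⟨Continuous.integrable_of_hasCompactSupport (by fun_prop) h, h⟩

lemma tf_line_le {u : E → ℝ} (hu : Sm u) (hs : tsupport u ⊆ Metric.closedBall 0 1) (y : E)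
    (i : Fin 2) (b : ℝ) : |u (y + b • EuclideanSpace.single i 1)| ≤
      ∫ t : ℝ, |pd i u (y + t • EuclideanSpace.single i 1)| := by
  have hc : ContDiff ℝ 1 fun t : ℝ => u (y + t • EuclideanSpace.single i 1) :=
    (hu.1.of_le (by exact_mod_cast le_top)).comp
      (contDiff_const.add (contDiff_id.smul contDiff_const))
  have hd : ∀ t : ℝ, deriv (fun t : ℝ => u (y + t • EuclideanSpace.single i 1)) t =
      pd i u (y + t • EuclideanSpace.single i 1) := fun t => by
    have h1 : HasDerivAt (fun t : ℝ => y + t • (EuclideanSpace.single i (1 : ℝ) : E))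
        (EuclideanSpace.single i 1) t := by
      simpa using ((hasDerivAt_id t).smul_const (EuclideanSpace.single i (1 : ℝ) : E)).const_add y
    exact (((hu.1.differentiable (by simp)) _).hasFDerivAt.comp_hasDerivAt t h1).deriv
  rw [← (tf_line hu hs y i).2.integral_Iic_deriv_eq hc b]
  simp only [hd]
  refine abs_integral_le_integral_abs.trans (setIntegral_le_integral
    (tf_line (hu.pd i) ((tsupport_pd_subset u i).trans hs) y i).1.abs
    (Eventually.of_forall fun _ => abs_nonneg _))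

lemma sup_bound {v : E → ℝ} (hv : Sm v) (hs : tsupport v ⊆ Metric.closedBall 0 1) (x : E) :
    v x ^ 2 ≤ NN v := by
  have hs1 := (tsupport_pd_subset v 1).trans hs
  have hs2 := (tsupport_pd_subset (pd 1 v) 0).trans hs1
  have hw : Sm (pd 0 (pd 1 v)) := (hv.pd 1).pd 0
  have r1 : ∀ a t : ℝ, a • (EuclideanSpace.single 0 (1 : ℝ) : E) + t • EuclideanSpace.single 1 1 =
      rot 0 (a, t) := fun a t => by
    ext i; fin_cases i <;> simp [rot]
  have hI : Integrable fun p : ℝ × ℝ => |pd 0 (pd 1 v) (rot 0 p)| :=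
    (integrable_rot 0 (f := fun x => |pd 0 (pd 1 v) x|)).2 hw.integrable.abs
  have h1 : |v x| ≤ ∫ y, |pd 0 (pd 1 v) y| := by
    have a1 := tf_line_le hv hs (x 0 • EuclideanSpace.single 0 1) 1 (x 1)
    have a2 : x 0 • (EuclideanSpace.single 0 (1 : ℝ) : E) + x 1 • EuclideanSpace.single 1 1 = x := by
      ext i; fin_cases i <;> simp
    rw [a2] at a1
    refine a1.trans ?_
    rw [integral_rot 0, Measure.volume_eq_prod, integral_prod_symm _ hI]
    refine integral_mono (tf_line (hv.pd 1) hs1 _ 1).1.abs hI.integral_prod_right fun t => ?_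
    have a3 := tf_line_le (hv.pd 1) hs1 (t • EuclideanSpace.single 1 1) 0 (x 0)
    simp only [add_comm (t • (EuclideanSpace.single 1 (1 : ℝ) : E)), r1] at a3
    simp only [r1]
    exact a3
  have h2 : 4 * ∫ y, pd 0 (pd 1 v) y ^ 2 ≤ NN v := by
    rw [hw.planch, hv.NN_eq, ← integral_const_mul]
    refine integral_mono_of_nonneg (Eventually.of_forall fun ξ => by positivity)
      (((hv.integrable_pow_ft_sq 4).const_mul ((2 * π) ^ 4)).congr
        (Eventually.of_forall fun ξ => by ring)) (Eventually.of_forall fun ξ => ?_)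
    dsimp only
    rw [(hv.pd 1).norm_ft_pd_sq, hv.norm_ft_pd_sq]
    have a1 : (2 * π * ‖ξ‖) ^ 4 = (2 * π) ^ 4 * (ξ 0 ^ 2 + ξ 1 ^ 2) ^ 2 := by
      rw [← norm_sq_eq]; ring
    have a2 : 4 * (ξ 0 ^ 2 * ξ 1 ^ 2) ≤ (ξ 0 ^ 2 + ξ 1 ^ 2) ^ 2 := by
      nlinarith [sq_nonneg (ξ 0 ^ 2 - ξ 1 ^ 2)]
    have a3 := mul_le_mul_of_nonneg_left a2
      (by positivity : 0 ≤ (2 * π) ^ 4 * ‖ft v ξ‖ ^ 2)
    rw [a1]
    nlinarith
  obtain ⟨I, hI'⟩ : ∃ I : ℝ, I = ∫ y, |pd 0 (pd 1 v) y| := ⟨_, rfl⟩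
  have hB : Integrable ((Metric.closedBall (0 : E) 1).indicator fun _ => (I / 4) ^ 2) :=
    (integrable_indicator_iff measurableSet_closedBall).2
      (integrableOn_const (isCompact_closedBall _ _).measure_lt_top.ne)
  have h3 : ∫ y, 2 * (I / 4) * |pd 0 (pd 1 v) y| ≤ ∫ y, (pd 0 (pd 1 v) y ^ 2 +
      (Metric.closedBall (0 : E) 1).indicator (fun _ => (I / 4) ^ 2) y) := by
    refine integral_mono (hw.integrable.abs.const_mul _) (hw.integrable_sq.add hB) fun y => ?_
    dsimp only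
    by_cases h : y ∈ Metric.closedBall (0 : E) 1
    · rw [indicator_of_mem h, ← sq_abs (pd 0 (pd 1 v) y)]
      nlinarith [sq_nonneg (|pd 0 (pd 1 v) y| - I / 4)]
    · rw [indicator_of_notMem h, image_eq_zero_of_notMem_tsupport fun h' => h (hs2 h')]
      simp
  rw [integral_const_mul, integral_add hw.integrable_sq hB,
    integral_indicator_const _ measurableSet_closedBall, ← hI', Measure.real,
    EuclideanSpace.volume_closedBall_fin_two] at h3
  simp only [ENNReal.ofReal_one, one_pow, one_mul, ENNReal.toReal_ofReal pi_pos.le,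
    smul_eq_mul] at h3
  rw [← hI'] at h1
  have h4 : v x ^ 2 ≤ I ^ 2 := by
    rw [← sq_abs]; exact pow_le_pow_left₀ (abs_nonneg _) h1 2
  nlinarith [mul_le_mul_of_nonneg_right pi_le_four (sq_nonneg (I / 4))]

end Pool.Agent.MP_918781_an

end

-- part MP_918781_an.H20
section

/-! Reduction of the eigenvalue to test functions; covariance and algebra of the two forms;
reduction to connected sets. -/

namespace Pool.Agent.MP_918781_an

open MeasureTheory Filter Topology Real Set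
open scoped ENNReal ContDiff FourierTransform RealInnerProductSpace

lemma h20_pd_zero {u : E → ℝ} {x : E} (hx : x ∉ tsupport u) (i : Fin 2) : pd i u x = 0 :=
  image_eq_zero_of_notMem_tsupport fun h => hx (tsupport_pd_subset u i h)

lemma h20_pd_pd_zero {u : E → ℝ} {x : E} (hx : x ∉ tsupport u) (i j : Fin 2) :
    pd i (pd j u) x = 0 :=
  h20_pd_zero (fun h => hx (tsupport_pd_subset u j h)) i

lemma h20_NN {Ω : Set E} {u : E → ℝ} (hu : IsTest Ω u) :
    ∫ x in Ω, (pd 0 (pd 0 u) x + pd 1 (pd 1 u) x) ^ 2 = NN u :=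
  setIntegral_eq_integral_of_forall_compl_eq_zero fun x hx => by
    simp [h20_pd_pd_zero fun h => hx (hu.2.2 h)]

lemma h20_DD {Ω : Set E} {u : E → ℝ} (hu : IsTest Ω u) :
    ∫ x in Ω, ((pd 0 u x) ^ 2 + (pd 1 u x) ^ 2) = DD u :=
  setIntegral_eq_integral_of_forall_compl_eq_zero fun x hx => by
    simp [h20_pd_zero fun h => hx (hu.2.2 h)]

lemma Sm.h20_memLp {u : E → ℝ} (hu : Sm u) (Ω : Set E) : MemLp u 2 (volume.restrict Ω) :=
  (hu.continuous.memLp_of_hasCompactSupport hu.2).restrict Ω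

lemma Sm.h20_const {u : E → ℝ} (hu : Sm u) (Ω : Set E) : L2Lim Ω (fun _ => u) u :=
  ⟨hu.h20_memLp Ω, by simp⟩

lemma buckling_le {Ω : Set E} (ho : IsOpen Ω) {u : E → ℝ} (hu : IsTest Ω u) (hne : u ≠ 0) :
    buckling Ω ≤ ENNReal.ofReal (NN u / DD u) := by
  have h1 : IsH20 Ω u (fun i => pd i u) fun i j => pd i (pd j u) :=
    ⟨fun _ => u, fun _ => hu, hu.sm.h20_const Ω, fun i => (hu.sm.pd i).h20_const Ω,
      fun i j => ((hu.sm.pd j).pd i).h20_const Ω⟩
  have h2 : ¬ u =ᵐ[volume.restrict Ω] 0 := fun h => hne (funext fun x => by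
    by_cases hx : x ∈ Ω
    · exact Measure.eqOn_open_of_ae_eq h ho hu.sm.continuous.continuousOn continuousOn_const hx
    · exact image_eq_zero_of_notMem_tsupport fun h => hx (hu.2.2 h))
  rw [← h20_NN hu, ← h20_DD hu]
  exact iInf_le_of_le u (iInf_le_of_le _ (iInf_le_of_le _ (iInf_le_of_le h1 (iInf_le _ h2))))

lemma h20_norm_toLp {μ : Measure E} {f : E → ℝ} (hf : MemLp f 2 μ) :
    ‖hf.toLp f‖ ^ 2 = ∫ x, f x ^ 2 ∂μ := by
  rw [← real_inner_self_eq_norm_sq, L2.inner_def]
  refine integral_congr_ae ?_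
  filter_upwards [hf.coeFn_toLp] with x hx
  rw [hx, real_inner_self_eq_norm_sq, Real.norm_eq_abs, sq_abs]

lemma L2Lim.h20_sq {Ω : Set E} {f : ℕ → E → ℝ} {g : E → ℝ} (h : L2Lim Ω f g)
    (hf : ∀ n, Sm (f n)) :
    Tendsto (fun n => ∫ x in Ω, f n x ^ 2) atTop (𝓝 (∫ x in Ω, g x ^ 2)) := by
  have h1 := (Lp.tendsto_Lp_iff_tendsto_eLpNorm'' f (fun n => (hf n).h20_memLp Ω) g h.1).mpr h.2
  simpa only [h20_norm_toLp] using h1.norm.pow 2

lemma L2Lim.h20_add {Ω : Set E} {f f' : ℕ → E → ℝ} {g g' : E → ℝ} (h : L2Lim Ω f g)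
    (h' : L2Lim Ω f' g') (hf : ∀ n, Sm (f n)) (hf' : ∀ n, Sm (f' n)) :
    L2Lim Ω (fun n x => f n x + f' n x) fun x => g x + g' x := by
  refine ⟨h.1.add h'.1, ?_⟩
  have h1 := h.2.add h'.2
  rw [add_zero] at h1
  refine tendsto_of_tendsto_of_tendsto_of_le_of_le tendsto_const_nhds h1 (fun _ => zero_le)
    fun n => le_trans (le_of_eq ?_) (eLpNorm_add_le
      (((hf n).h20_memLp Ω).sub h.1).1 (((hf' n).h20_memLp Ω).sub h'.1).1 one_le_two)
  congr 1
  funext x
  simp only [Pi.sub_apply, Pi.add_apply]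
  ring

lemma h20_norm_fderiv (u : E → ℝ) (x : E) : ‖fderiv ℝ u x‖ ≤ ‖pd 0 u x‖ + ‖pd 1 u x‖ := by
  refine ContinuousLinearMap.opNorm_le_bound _ (by positivity) fun v => ?_
  have h : v = v 0 • EuclideanSpace.single 0 (1 : ℝ) + v 1 • EuclideanSpace.single 1 (1 : ℝ) := by
    ext i; fin_cases i <;> simp
  have h0 := PiLp.norm_apply_le v 0
  have h1 := PiLp.norm_apply_le v 1
  conv_lhs => rw [h]
  rw [map_add, map_smul, map_smul]
  refine (norm_add_le _ _).trans ?_
  rw [norm_smul, norm_smul, add_mul, mul_comm ‖pd 0 u x‖, mul_comm ‖pd 1 u x‖]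
  unfold pd
  gcongr

lemma h20_poincare {Ω : Set E} (hv : volume Ω < ⊤) : ∃ C : ℝ≥0∞, C ≠ ⊤ ∧ ∀ u, IsTest Ω u →
    eLpNorm u 2 (volume.restrict Ω) ≤
      C * (eLpNorm (pd 0 u) 2 (volume.restrict Ω) + eLpNorm (pd 1 u) 2 (volume.restrict Ω)) := by
  refine ⟨eLpNormLESNormFDerivOneConst (volume : Measure E) (2 : NNReal) *
    volume Ω ^ (1 / (1 : ℝ≥0∞).toReal - 1 / (2 : ℝ≥0∞).toReal), ENNReal.mul_ne_top
      ENNReal.coe_ne_top (ENNReal.rpow_ne_top_of_nonneg (by norm_num) hv.ne), fun u hu => ?_⟩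
  have h1 := eLpNorm_le_eLpNorm_fderiv_one (volume : Measure E) (u := u)
    (hu.1.of_le (by exact_mod_cast le_top)) hu.2.1 (p := 2)
    (by rw [finrank_euclideanSpace_fin]; exact_mod_cast NNReal.HolderConjugate.two_two)
  have hm : AEStronglyMeasurable (fderiv ℝ u) (volume.restrict Ω) :=
    (hu.1.continuous_fderiv (by simp)).aestronglyMeasurable
  have h2 := eLpNorm_le_eLpNorm_mul_rpow_measure_univ (p := 1) (q := 2) one_le_two hm
  have hs : Function.support (fderiv ℝ u) ⊆ Ω := (support_fderiv_subset ℝ).trans hu.2.2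
  rw [← eLpNorm_norm (fderiv ℝ u), eLpNorm_restrict_eq_of_support_subset
    (f := fun x => ‖fderiv ℝ u x‖) fun x hx => hs (norm_ne_zero_iff.mp hx), eLpNorm_norm,
    Measure.restrict_apply_univ] at h2
  have h3 : eLpNorm (fderiv ℝ u) 2 (volume.restrict Ω) ≤
      eLpNorm (pd 0 u) 2 (volume.restrict Ω) + eLpNorm (pd 1 u) 2 (volume.restrict Ω) := by
    refine (eLpNorm_mono_real (h20_norm_fderiv u)).trans ?_
    rw [← eLpNorm_norm (pd 0 u), ← eLpNorm_norm (pd 1 u)]
    exact eLpNorm_add_le ((hu.sm.pd 0).h20_memLp Ω).1.norm ((hu.sm.pd 1).h20_memLp Ω).1.norm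
      one_le_two
  refine (eLpNorm_restrict_le _ _ _ _).trans (h1.trans ?_)
  rw [mul_assoc, mul_comm (volume Ω ^ _)]
  gcongr
  exact h2.trans (by gcongr)

lemma le_buckling {Ω : Set E} (ho : IsOpen Ω) (hv : volume Ω < ⊤) {μ : ℝ}
    (h : ∀ u, IsTest Ω u → μ * DD u ≤ NN u) : ENNReal.ofReal μ ≤ buckling Ω := by
  refine le_iInf fun u => le_iInf fun g => le_iInf fun H => le_iInf fun hu => le_iInf fun hne => ?_
  obtain ⟨φ, hφ, h0, h1, h2⟩ := hu
  have s1 : ∀ i n, Sm (pd i (φ n)) := fun i n => (hφ n).sm.pd i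
  have s2 : ∀ i n, Sm (pd i (pd i (φ n))) := fun i n => (s1 i n).pd i
  have hN := ((h2 0 0).h20_add (h2 1 1) (s2 0) (s2 1)).h20_sq fun n => (s2 0 n).add (s2 1 n)
  have hD := ((h1 0).h20_sq (s1 0)).add ((h1 1).h20_sq (s1 1))
  have i0 := (h1 0).1.integrable_sq
  have i1 := (h1 1).1.integrable_sq
  simp only [fun n => h20_NN (hφ n)] at hN
  have e : ∀ n, (∫ x in Ω, pd 0 (φ n) x ^ 2) + ∫ x in Ω, pd 1 (φ n) x ^ 2 = DD (φ n) := fun n =>
    (integral_add (s1 0 n).integrable_sq.integrableOn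
      (s1 1 n).integrable_sq.integrableOn).symm.trans (h20_DD (hφ n))
  simp only [← integral_add i0 i1, e] at hD
  have h3 := le_of_tendsto_of_tendsto' (hD.const_mul μ) hN fun n => h _ (hφ n)
  refine ENNReal.ofReal_le_ofReal ((le_div_iff₀ ?_).mpr h3)
  refine lt_of_le_of_ne (integral_nonneg fun x => by positivity) fun h4 => hne ?_
  have h5 := (integral_eq_zero_iff_of_nonneg
    (fun x => add_nonneg (sq_nonneg _) (sq_nonneg _)) (i0.add i1)).mp h4.symm
  have h6 : ∀ i, Tendsto (fun n => eLpNorm (pd i (φ n)) 2 (volume.restrict Ω)) atTop (𝓝 0) := by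
    intro i
    refine (h1 i).2.congr fun n => eLpNorm_congr_ae ?_
    filter_upwards [h5] with x hx
    have hx' : g 0 x ^ 2 + g 1 x ^ 2 = 0 := hx
    have : g i x = 0 := by
      fin_cases i
      · exact pow_eq_zero_iff two_ne_zero |>.mp
          (show g 0 x ^ 2 = 0 by nlinarith [sq_nonneg (g 0 x), sq_nonneg (g 1 x)])
      · exact pow_eq_zero_iff two_ne_zero |>.mp
          (show g 1 x ^ 2 = 0 by nlinarith [sq_nonneg (g 0 x), sq_nonneg (g 1 x)])
    simp [this]
  obtain ⟨C, hC, hP⟩ := h20_poincare hv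
  have h7 := h0.2.add (ENNReal.Tendsto.const_mul ((h6 0).add (h6 1)) (Or.inr hC))
  simp only [add_zero, mul_zero] at h7
  rw [← eLpNorm_eq_zero_iff h0.1.1 two_ne_zero]
  refine le_antisymm (ge_of_tendsto' h7 fun n => ?_) zero_le
  have m := (hφ n).sm.h20_memLp Ω
  have h8 := eLpNorm_add_le (h0.1.sub m).1 m.1 one_le_two
  rw [sub_add_cancel, eLpNorm_sub_comm] at h8
  exact h8.trans (add_le_add le_rfl (hP _ (hφ n)))

lemma Sm.comp_affine {u : E → ℝ} (hu : Sm u) (z : E) {r : ℝ} (hr : 0 < r) :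
    Sm (fun x => u (z + r • x)) :=
  ⟨hu.1.comp (contDiff_const.add (contDiff_id.const_smul r)),
    hu.2.comp_homeomorph ((Homeomorph.smulOfNeZero r hr.ne').trans (Homeomorph.addLeft z))⟩

lemma Sm.h20_diff {u : E → ℝ} (hu : Sm u) : Differentiable ℝ u := hu.1.differentiable (by simp)

lemma h20_pd_smul {u : E → ℝ} (hu : Sm u) (a : ℝ) (i : Fin 2) :
    pd i (fun x => a * u x) = fun x => a * pd i u x := by
  funext x
  simp only [pd, fderiv_const_mul (hu.h20_diff x)]
  rfl

lemma h20_pd_add {u v : E → ℝ} (hu : Sm u) (hv : Sm v) (i : Fin 2) :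
    pd i (fun x => u x + v x) = fun x => pd i u x + pd i v x := by
  funext x
  simp only [pd, fderiv_fun_add (hu.h20_diff x) (hv.h20_diff x)]
  rfl

lemma h20_pd_sub {u v : E → ℝ} (hu : Sm u) (hv : Sm v) (i : Fin 2) :
    pd i (fun x => u x - v x) = fun x => pd i u x - pd i v x := by
  funext x
  simp only [pd, fderiv_fun_sub (hu.h20_diff x) (hv.h20_diff x)]
  rfl

lemma h20_pd_affine {u : E → ℝ} (hu : Sm u) (z : E) (r : ℝ) (i : Fin 2) :
    pd i (fun x => u (z + r • x)) = fun x => r * pd i u (z + r • x) := by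
  funext x
  have h := (hu.h20_diff (z + r • x)).hasFDerivAt.comp x
    (((hasFDerivAt_id x).const_smul r).const_add z)
  have h1 : fderiv ℝ (fun x => u (z + r • x)) x = _ := h.fderiv
  simp [pd, h1]

lemma h20_integral_affine (f : E → ℝ) (z : E) (r : ℝ) :
    ∫ x, f (z + r • x) = (r ^ 2)⁻¹ * ∫ x, f x := by
  rw [Measure.integral_comp_smul volume (fun y => f (z + y)) r, integral_add_left_eq_self,
    finrank_euclideanSpace_fin, abs_of_nonneg (by positivity), smul_eq_mul]

lemma NN_affine {u : E → ℝ} (hu : Sm u) (z : E) {r : ℝ} (hr : 0 < r) :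
    NN (fun x => u (z + r • x)) = r ^ 2 * NN u := by
  have h := h20_integral_affine (fun x => r ^ 4 * (pd 0 (pd 0 u) x + pd 1 (pd 1 u) x) ^ 2) z r
  rw [integral_const_mul (r ^ 4) fun x => (pd 0 (pd 0 u) x + pd 1 (pd 1 u) x) ^ 2] at h
  simp only [NN, h20_pd_affine hu, fun i => h20_pd_smul ((hu.pd i).comp_affine z hr),
    fun i => h20_pd_affine (hu.pd i)]
  refine Eq.trans (integral_congr_ae (Eventually.of_forall fun x => by ring)) (h.trans ?_)
  field_simp

lemma DD_affine {u : E → ℝ} (hu : Sm u) (z : E) {r : ℝ} (hr : 0 < r) :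
    DD (fun x => u (z + r • x)) = DD u := by
  have h := h20_integral_affine (fun x => r ^ 2 * (pd 0 u x ^ 2 + pd 1 u x ^ 2)) z r
  rw [integral_const_mul (r ^ 2) fun x => pd 0 u x ^ 2 + pd 1 u x ^ 2] at h
  simp only [DD, h20_pd_affine hu]
  refine Eq.trans (integral_congr_ae (Eventually.of_forall fun x => by ring)) (h.trans ?_)
  field_simp

lemma Sm.smul {u : E → ℝ} (hu : Sm u) (a : ℝ) : Sm (fun x => a * u x) :=
  ⟨contDiff_const.mul hu.1, hu.2.mul_left⟩

lemma Sm.sub {u v : E → ℝ} (hu : Sm u) (hv : Sm v) : Sm (fun x => u x - v x) :=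
  ⟨hu.1.sub hv.1, hu.2.sub hv.2⟩

lemma NN_smul {u : E → ℝ} (hu : Sm u) (a : ℝ) : NN (fun x => a * u x) = a ^ 2 * NN u := by
  simp only [NN, h20_pd_smul hu, fun i => h20_pd_smul (hu.pd i)]
  rw [← integral_const_mul]
  exact integral_congr_ae (Eventually.of_forall fun x => by ring)

lemma DD_smul {u : E → ℝ} (hu : Sm u) (a : ℝ) : DD (fun x => a * u x) = a ^ 2 * DD u := by
  simp only [DD, h20_pd_smul hu]
  rw [← integral_const_mul]
  exact integral_congr_ae (Eventually.of_forall fun x => by ring)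

lemma Sm.h20_intN {u : E → ℝ} (hu : Sm u) : Integrable fun x =>
    (Pool.Agent.MP_918781_an.pd 0 (Pool.Agent.MP_918781_an.pd 0 u) x +
      Pool.Agent.MP_918781_an.pd 1 (Pool.Agent.MP_918781_an.pd 1 u) x) ^ 2 :=
  (((hu.pd 0).pd 0).add ((hu.pd 1).pd 1)).integrable_sq

lemma Sm.h20_intD {u : E → ℝ} (hu : Sm u) : Integrable fun x =>
    Pool.Agent.MP_918781_an.pd 0 u x ^ 2 + Pool.Agent.MP_918781_an.pd 1 u x ^ 2 :=
  (hu.pd 0).integrable_sq.add (hu.pd 1).integrable_sq

lemma NN_par {u v : E → ℝ} (hu : Sm u) (hv : Sm v) :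
    NN (fun x => u x + v x) + NN (fun x => u x - v x) = 2 * NN u + 2 * NN v := by
  rw [NN, NN, NN, NN, ← integral_add (hu.add hv).h20_intN (hu.sub hv).h20_intN, ← mul_add,
    ← integral_add hu.h20_intN hv.h20_intN, ← integral_const_mul]
  simp only [h20_pd_add hu hv, h20_pd_sub hu hv, fun i => h20_pd_add (hu.pd i) (hv.pd i),
    fun i => h20_pd_sub (hu.pd i) (hv.pd i)]
  exact integral_congr_ae (Eventually.of_forall fun x => by ring)

lemma DD_par {u v : E → ℝ} (hu : Sm u) (hv : Sm v) :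
    DD (fun x => u x + v x) + DD (fun x => u x - v x) = 2 * DD u + 2 * DD v := by
  rw [DD, DD, DD, DD, ← integral_add (hu.add hv).h20_intD (hu.sub hv).h20_intD, ← mul_add,
    ← integral_add hu.h20_intD hv.h20_intD, ← integral_const_mul]
  simp only [h20_pd_add hu hv, h20_pd_sub hu hv]
  exact integral_congr_ae (Eventually.of_forall fun x => by ring)

lemma h20_NN_add {u v : E → ℝ} (hu : Sm u) (hv : Sm v)
    (h : ∀ x, x ∉ tsupport u ∨ x ∉ tsupport v) : NN (fun x => u x + v x) = NN u + NN v := by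
  rw [NN, NN, NN, ← integral_add hu.h20_intN hv.h20_intN]
  simp only [h20_pd_add hu hv, fun i => h20_pd_add (hu.pd i) (hv.pd i)]
  refine integral_congr_ae (Eventually.of_forall fun x => ?_)
  rcases h x with h | h <;> simp [h20_pd_pd_zero h]

lemma h20_DD_add {u v : E → ℝ} (hu : Sm u) (hv : Sm v)
    (h : ∀ x, x ∉ tsupport u ∨ x ∉ tsupport v) : DD (fun x => u x + v x) = DD u + DD v := by
  rw [DD, DD, DD, ← integral_add hu.h20_intD hv.h20_intD]
  simp only [h20_pd_add hu hv]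
  refine integral_congr_ae (Eventually.of_forall fun x => ?_)
  rcases h x with h | h <;> simp [h20_pd_zero h]

lemma h20_split {u : E → ℝ} (hu : Sm u) {A B : Set E} (hA : IsOpen A) (hB : IsOpen B)
    (hAB : Disjoint A B) (h : tsupport u ⊆ A ∪ B) :
    Sm (A.indicator u) ∧ tsupport (A.indicator u) ⊆ tsupport u ∩ A := by
  have h1 : ∀ x, x ∉ tsupport u ∩ A → A.indicator u =ᶠ[𝓝 x] 0 := by
    intro x hx
    by_cases h2 : x ∈ tsupport u
    · have h3 : x ∈ B := (h h2).resolve_left fun h3 => hx ⟨h2, h3⟩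
      filter_upwards [hB.mem_nhds h3] with y hy
      exact indicator_of_notMem (disjoint_right.mp hAB hy) _
    · filter_upwards [notMem_tsupport_iff_eventuallyEq.mp h2] with y hy
      exact indicator_apply_eq_zero.mpr fun _ => hy
  have h2 : tsupport (A.indicator u) ⊆ tsupport u ∩ A := fun x hx => by
    by_contra hn
    exact notMem_tsupport_iff_eventuallyEq.mpr (h1 x hn) hx
  refine ⟨⟨contDiff_iff_contDiffAt.mpr fun x => ?_,
    hu.2.of_isClosed_subset (isClosed_tsupport _) (h2.trans inter_subset_left)⟩, h2⟩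
  by_cases hx : x ∈ A
  · refine hu.1.contDiffAt.congr_of_eventuallyEq ?_
    filter_upwards [hA.mem_nhds hx] with y hy
    exact indicator_of_mem hy _
  · exact contDiffAt_const.congr_of_eventuallyEq (h1 x fun h => hx h.2)

lemma reduce_connected {Ω : Set E} (ho : IsOpen Ω) {μ : ℝ}
    (h : ∀ u, IsTest Ω u → (∃ C : Set E, IsPreconnected C ∧ C ⊆ Ω ∧ tsupport u ⊆ C) →
      μ * DD u ≤ NN u) :
    ∀ u, IsTest Ω u → μ * DD u ≤ NN u := by
  classical
  have key : ∀ t : Finset E, ∀ u, IsTest Ω u →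
      tsupport u ⊆ ⋃ x ∈ t, connectedComponentIn Ω x → μ * DD u ≤ NN u := by
    intro t
    induction t using Finset.induction_on with
    | empty =>
      exact fun u hu ht => h u hu ⟨∅, isPreconnected_empty, empty_subset _, by simpa using ht⟩
    | insert x t _ ih =>
      intro u hu ht
      set A := connectedComponentIn Ω x with hA
      let B := ⋃ y ∈ Ω \ A, connectedComponentIn Ω y
      have hAo : IsOpen A := ho.connectedComponentIn
      have hBo : IsOpen B := isOpen_biUnion fun _ _ => ho.connectedComponentIn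
      have hAB : Disjoint A B := by
        refine disjoint_left.mpr fun z hz hz' => ?_
        obtain ⟨y, hy, hz'⟩ := mem_iUnion₂.mp hz'
        refine hy.2 ?_
        rw [hA, connectedComponentIn_eq hz, ← connectedComponentIn_eq hz']
        exact mem_connectedComponentIn hy.1
      have hc : tsupport u ⊆ A ∪ B := fun z hz => by
        by_cases h1 : z ∈ A
        · exact Or.inl h1
        · exact Or.inr (mem_iUnion₂.mpr ⟨z, ⟨hu.2.2 hz, h1⟩,
            mem_connectedComponentIn (hu.2.2 hz)⟩)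
      obtain ⟨v1, v2⟩ := h20_split hu.sm hAo hBo hAB hc
      obtain ⟨w1, w2⟩ := h20_split hu.sm hBo hAo hAB.symm (by rwa [union_comm])
      have e : u = fun z => A.indicator u z + B.indicator u z := by
        funext z
        rw [← indicator_union_of_notMem_inter fun h => disjoint_left.mp hAB h.1 h.2]
        by_cases h1 : z ∈ tsupport u
        · exact (indicator_of_mem (hc h1) _).symm
        · have := image_eq_zero_of_notMem_tsupport h1
          rw [indicator_apply_eq_zero.mpr fun _ => this, this]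
      have hd : ∀ z, z ∉ tsupport (A.indicator u) ∨ z ∉ tsupport (B.indicator u) := fun z => by
        by_contra hn
        rw [not_or, not_not, not_not] at hn
        exact disjoint_left.mp hAB (v2 hn.1).2 (w2 hn.2).2
      have a1 := h _ ⟨v1.1, v1.2, fun z hz => hu.2.2 (v2 hz).1⟩ ⟨A,
        isPreconnected_connectedComponentIn, connectedComponentIn_subset _ _,
        v2.trans inter_subset_right⟩
      have a2 := ih _ ⟨w1.1, w1.2, fun z hz => hu.2.2 (w2 hz).1⟩ fun z hz => by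
        have := ht (w2 hz).1
        rw [Finset.set_biUnion_insert] at this
        exact this.resolve_left (disjoint_right.mp hAB (w2 hz).2)
      rw [e, h20_NN_add v1 w1 hd, h20_DD_add v1 w1 hd]
      linarith
  intro u hu
  obtain ⟨t, -, ht⟩ := hu.2.1.isCompact.elim_nhds_subcover (connectedComponentIn Ω) fun x hx =>
    ho.connectedComponentIn.mem_nhds (mem_connectedComponentIn (hu.2.2 hx))
  exact key t u hu ht

end Pool.Agent.MP_918781_an

end

-- part MP_918781_an.Gap
section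

/-! A function supported in the unit disc and vanishing at an inner point is not almost extremal. -/

namespace Pool.Agent.MP_918781_an

open MeasureTheory Filter Topology Real Set
open scoped ENNReal ContDiff FourierTransform RealInnerProductSpace

lemma ball_slab {u : E → ℝ} (hs : tsupport u ⊆ Metric.closedBall 0 1) (θ : ℝ) :
    ∀ x ∈ tsupport u, |⟪x, e θ⟫ - 0| ≤ 1 := by
  intro x hx
  have h1 := hs hx
  rw [Metric.mem_closedBall, dist_zero_right] at h1
  have h2 := abs_real_inner_le_norm x (e θ)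
  rw [norm_e] at h2
  rw [sub_zero]; linarith

lemma ball_sharp {u : E → ℝ} (hu : Sm u) (hs : tsupport u ⊆ Metric.closedBall 0 1) :
    4 * y1 * DD u ≤ NN u := by
  have hy := y1_gt
  have hy' := y1_lt
  have h := glob_ineq hu (c := fun _ => 0) (R := fun _ => 1) continuous_const continuous_const
    (fun _ => one_pos) (fun _ => by norm_num) (κ := y1) (by linarith) (by linarith) (ball_slab hs)
  have h2 : 0 ≤ ∫ θ in (-π)..π, (8 * y1 ^ 2 * (1 / (1 : ℝ) ^ 2 - y1 / y1) * ((∫ x, u x) / π) ^ 2 +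
        4 * (3.68 - y1) * (⟪mom u, e θ⟫ - 0 * ∫ x, u x) ^ 2) := by
    refine intervalIntegral.integral_nonneg (by linarith [pi_pos]) fun θ _ => ?_
    rw [div_self (by linarith : y1 ≠ 0)]
    have : 0 ≤ 3.68 - y1 := by linarith
    simp only [one_pow, div_one, sub_self, mul_zero, zero_mul, zero_add]
    positivity
  linarith

lemma ball_gap {u : E → ℝ} (hu : Sm u) (hs : tsupport u ⊆ Metric.closedBall 0 1)
    (h0 : ∫ x, u x = 0) : 14.72 * DD u ≤ NN u := by
  have h := glob_ineq hu (c := fun _ => 0) (R := fun _ => 1) continuous_const continuous_const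
    (fun _ => one_pos) (fun _ => by norm_num) (κ := 3.68) (by norm_num) le_rfl (ball_slab hs)
  simp only [h0, zero_div, ne_eq, OfNat.ofNat_ne_zero, not_false_eq_true, zero_pow, mul_zero,
    sub_self, zero_mul, add_zero, intervalIntegral.integral_zero] at h
  linarith

lemma tsupport_comb {u v : E → ℝ} {B : Set E} (hB : IsClosed B) (hu : tsupport u ⊆ B)
    (hv : tsupport v ⊆ B) {w : E → ℝ} (h : ∀ x, u x = 0 → v x = 0 → w x = 0) :
    tsupport w ⊆ B := by
  refine closure_minimal (fun x hx => ?_) hB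
  by_contra hc
  exact hx (h x (by_contra fun h1 => hc (hu (subset_tsupport _ h1)))
    (by_contra fun h1 => hc (hv (subset_tsupport _ h1))))

lemma point_gap {ε : ℝ} (h0 : 0 < ε) (h1 : ε < 1) : ∃ δ : ℝ, 0 < δ ∧ ∀ u : E → ℝ, Sm u →
    tsupport u ⊆ Metric.closedBall 0 1 → ∀ x₀ : E, ‖x₀‖ ≤ 1 - ε → u x₀ = 0 →
    (4 * y1 + δ) * DD u ≤ NN u := by
  obtain ⟨c, C, hc, hex⟩ := exists_near_extremal h0 h1
  obtain ⟨f, hf, hf0, hfQ, hfD, hfc⟩ := hex (c ^ 2 / 4000) (by positivity)
  have hC : 0 ≤ C := (DD_nonneg f).trans hfD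
  refine ⟨1 / (600 + 8000 * C / c ^ 2), by positivity, fun u hu hs x₀ hx₀ hu₀ => ?_⟩
  have hfs := hf.sm
  have hfB : tsupport f ⊆ Metric.closedBall 0 1 := hf.2.2.trans Metric.ball_subset_closedBall
  have hfx := hfc x₀ hx₀
  have hm : 0 < ∫ x, f x := by
    rw [integral_pos_iff_support_of_nonneg hf0 hfs.integrable]
    exact hfs.continuous.isOpen_support.measure_pos _ ⟨x₀, by
      simp only [Function.mem_support]; linarith⟩
  set a := (∫ x, u x) / ∫ x, f x with ha
  have hg : Sm fun x => a * f x := hfs.smul a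
  have hgB : tsupport (fun x => a * f x) ⊆ Metric.closedBall 0 1 :=
    tsupport_comb Metric.isClosed_closedBall hfB hfB fun x h _ => by simp [h]
  have hv : Sm fun x => u x - a * f x := hu.sub hg
  have hvB : tsupport (fun x => u x - a * f x) ⊆ Metric.closedBall 0 1 :=
    tsupport_comb Metric.isClosed_closedBall hs hfB fun x h h' => by simp [h, h']
  have hwB : tsupport (fun x => u x + a * f x) ⊆ Metric.closedBall 0 1 :=
    tsupport_comb Metric.isClosed_closedBall hs hfB fun x h h' => by simp [h, h']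
  have hv0 : ∫ x, (u x - a * f x) = 0 := by
    rw [integral_sub hu.integrable hg.integrable, integral_const_mul, ha]
    field_simp
    ring
  have e1 := NN_par hu hg
  have e2 := DD_par hu hg
  have e3 := ball_sharp (hu.add hg) hwB
  have e4 := ball_gap hv hvB hv0
  have e5 := sup_bound hv hvB x₀
  have e6 := DD_par hv hg
  simp only [sub_add_cancel] at e6
  have e7 := DD_nonneg fun x => u x - a * f x - a * f x
  have e8 := ball_sharp hu hs
  rw [NN_smul hfs] at e1
  rw [DD_smul hfs] at e2 e6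
  simp only [hu₀, zero_sub, neg_sq, mul_pow] at e5
  have hy := y1_gt
  have hy' := y1_lt
  have hDv := DD_nonneg fun x => u x - a * f x
  generalize NN (fun x => u x - a * f x) = Nv at *
  generalize DD (fun x => u x - a * f x) = Dv at *
  generalize NN (fun x => u x + a * f x) = Nw at *
  generalize DD (fun x => u x + a * f x) = Dw at *
  generalize DD (fun x => u x - a * f x - a * f x) = Dz at *
  have hDu : DD (fun x => u x) = DD u := rfl
  rw [hDu] at e6
  set Q := NN u - 4 * y1 * DD u with hQ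
  have hQ0 : 0 ≤ Q := by linarith
  have ha2 := sq_nonneg a
  have q1 : Nv - 4 * y1 * Dv ≤ 2 * Q + 2 * a ^ 2 * (c ^ 2 / 4000) := by
    have := mul_le_mul_of_nonneg_left hfQ ha2
    have e2' : 4 * y1 * (Dw + Dv) = 4 * y1 * (2 * DD u + 2 * (a ^ 2 * DD f)) := by rw [e2]
    nlinarith
  have q2 : Nv ≤ 1000 * (Nv - 4 * y1 * Dv) := by nlinarith
  have q3 : a ^ 2 * c ^ 2 ≤ Nv := by
    refine le_trans ?_ e5
    gcongr
  have q4 : a ^ 2 * c ^ 2 ≤ 4000 * Q := by nlinarith
  have q5 : Nv ≤ 4000 * Q := by nlinarith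
  have q6 : a ^ 2 * C ≤ 4000 * C / c ^ 2 * Q := by
    rw [div_mul_eq_mul_div, le_div_iff₀ (by positivity)]
    nlinarith [mul_le_mul_of_nonneg_left q4 hC]
  have q7 : a ^ 2 * DD f ≤ a ^ 2 * C := by gcongr
  have q8 : DD u ≤ (600 + 8000 * C / c ^ 2) * Q := by
    have : 8000 * C / c ^ 2 = 2 * (4000 * C / c ^ 2) := by ring
    rw [this]
    nlinarith
  have q9 : 1 / (600 + 8000 * C / c ^ 2) * DD u ≤ Q := by
    rw [one_div, inv_mul_le_iff₀ (by positivity)]
    exact q8
  linarith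

end Pool.Agent.MP_918781_an

end

-- part MP_918781_an.Perim
section

/-! Cauchy type lower bound for the De Giorgi perimeter, and the perimeter of a disc. -/

namespace Pool.Agent.MP_918781_an

open MeasureTheory Filter Topology Real Set
open scoped ENNReal ContDiff RealInnerProductSpace Convolution

/-- Scalar convolution. -/
noncomputable def per_pconv (f ρ : E → ℝ) (x : E) : ℝ := ∫ t, f t * ρ (x - t)

lemma per_pconv_contDiff {f ρ : E → ℝ} (hf : LocallyIntegrable f) (hρ : ContDiff ℝ 1 ρ)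
    (hc : HasCompactSupport ρ) : ContDiff ℝ 1 (per_pconv f ρ) :=
  hc.contDiff_convolution_right (n := 1) (ContinuousLinearMap.mul ℝ ℝ) hf hρ

lemma per_pconv_fderiv {f ρ : E → ℝ} (hf : LocallyIntegrable f) (hρ : ContDiff ℝ 1 ρ)
    (hc : HasCompactSupport ρ) (x v : E) :
    fderiv ℝ (per_pconv f ρ) x v = ∫ t, f t * fderiv ℝ ρ (x - t) v := by
  have h := (hc.hasFDerivAt_convolution_right (ContinuousLinearMap.mul ℝ ℝ) hf hρ x).fderiv
  have h2 : per_pconv f ρ = f ⋆[ContinuousLinearMap.mul ℝ ℝ, volume] ρ := rfl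
  rw [h2, h, convolution_precompR_apply _ hf (hc.fderiv ℝ) (hρ.continuous_fderiv one_ne_zero)]
  rfl

lemma per_fderiv_apply_eq (L : E →L[ℝ] ℝ) (v : E) :
    L v = v 0 * L (EuclideanSpace.single 0 1) + v 1 * L (EuclideanSpace.single 1 1) := by
  have : v = v 0 • EuclideanSpace.single (0 : Fin 2) (1 : ℝ) +
      v 1 • EuclideanSpace.single (1 : Fin 2) (1 : ℝ) := by
    ext i; fin_cases i <;> simp
  conv_lhs => rw [this]
  simp only [map_add, map_smul, smul_eq_mul]

lemma per_integral_abs_sin_two_pi : ∫ θ in (-π)..π, |sin θ| = 4 := by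
  have h1 : ∫ θ in (-π)..0, |sin θ| = ∫ θ in (-π)..0, -sin θ := by
    refine intervalIntegral.integral_congr fun θ hθ => ?_
    rw [uIcc_of_le (by linarith [pi_pos])] at hθ
    exact abs_of_nonpos (sin_nonpos_of_nonpos_of_neg_pi_le hθ.2 hθ.1)
  have h2 : ∫ θ in (0 : ℝ)..π, |sin θ| = ∫ θ in (0 : ℝ)..π, sin θ := by
    refine intervalIntegral.integral_congr fun θ hθ => ?_
    rw [uIcc_of_le pi_pos.le] at hθ
    exact abs_of_nonneg (sin_nonneg_of_nonneg_of_le_pi hθ.1 hθ.2)
  have hc : Continuous fun θ => |sin θ| := continuous_sin.abs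
  rw [← intervalIntegral.integral_add_adjacent_intervals (b := 0) (hc.intervalIntegrable _ _)
    (hc.intervalIntegrable _ _), h1, h2, intervalIntegral.integral_neg, integral_sin, integral_sin]
  simp; norm_num

lemma per_integral_abs_dir (a b : ℝ) :
    ∫ θ in (-π)..π, |-sin θ * a + cos θ * b| = 4 * √(a ^ 2 + b ^ 2) := by
  set z : ℂ := ⟨a, b⟩
  have hn : ‖z‖ = √(a ^ 2 + b ^ 2) := by
    rw [Complex.norm_eq_sqrt_sq_add_sq]
  have ha : a = ‖z‖ * cos z.arg := (Complex.norm_mul_cos_arg z).symm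
  have hb : b = ‖z‖ * sin z.arg := (Complex.norm_mul_sin_arg z).symm
  have h1 : ∀ θ, |-sin θ * a + cos θ * b| = ‖z‖ * |sin (θ - z.arg)| := fun θ => by
    have h0 : -sin θ * a + cos θ * b = -(‖z‖ * sin (θ - z.arg)) := by
      rw [sin_sub]
      linear_combination (-sin θ) * ha + cos θ * hb
    rw [h0, abs_neg, abs_mul, abs_of_nonneg (norm_nonneg z)]
  simp only [h1]
  rw [intervalIntegral.integral_const_mul, intervalIntegral.integral_comp_sub_right
    (fun θ => |sin θ|), hn, mul_comm]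
  congr 1
  have hp : Function.Periodic (fun θ => |sin θ|) (2 * π) := fun θ => by simp [sin_add_two_pi]
  have h2 := hp.intervalIntegral_add_eq (-π - z.arg) (-π)
  rw [show -π - z.arg + 2 * π = π - z.arg by ring, show -π + 2 * π = π by ring] at h2
  rw [h2, per_integral_abs_sin_two_pi]

/-- One-dimensional variation bound. -/
lemma per_two_le_lintegral_deriv {f f' : ℝ → ℝ} (hf : ∀ t, HasDerivAt f (f' t) t) (hc : Continuous f')
    {t₀ : ℝ} (h0 : f t₀ = 1) (h1 : Tendsto f atTop (𝓝 0)) (h2 : Tendsto f atBot (𝓝 0)) :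
    2 ≤ ∫⁻ t, ‖f' t‖ₑ := by
  have key : ∀ n : ℕ, ENNReal.ofReal (2 - f (t₀ + n) - f (t₀ - n)) ≤ ∫⁻ t, ‖f' t‖ₑ := by
    intro n
    have hn : (0 : ℝ) ≤ n := Nat.cast_nonneg n
    have e1 := intervalIntegral.integral_eq_sub_of_hasDerivAt (a := t₀ - n) (b := t₀)
      (fun t _ => hf t) (hc.intervalIntegrable _ _)
    have e2 := intervalIntegral.integral_eq_sub_of_hasDerivAt (a := t₀) (b := t₀ + n)
      (fun t _ => hf t) (hc.intervalIntegrable _ _)
    have b1 : ∫ t in (t₀ - n)..t₀, f' t ≤ ∫ t in (t₀ - n)..t₀, |f' t| :=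
      intervalIntegral.integral_mono_on (by linarith) (hc.intervalIntegrable _ _)
        (hc.abs.intervalIntegrable _ _) fun t _ => le_abs_self _
    have b2 : ∫ t in t₀..(t₀ + n), -f' t ≤ ∫ t in t₀..(t₀ + n), |f' t| :=
      intervalIntegral.integral_mono_on (by linarith) (hc.neg.intervalIntegrable _ _)
        (hc.abs.intervalIntegrable _ _) fun t _ => neg_le_abs _
    rw [intervalIntegral.integral_neg] at b2
    have e3 := intervalIntegral.integral_add_adjacent_intervals (μ := volume)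
      (hc.abs.intervalIntegrable (t₀ - n) t₀) (hc.abs.intervalIntegrable t₀ (t₀ + n))
    have b3 : 2 - f (t₀ + n) - f (t₀ - n) ≤ ∫ t in (t₀ - n)..(t₀ + n), |f' t| := by
      rw [← e3]; linarith
    refine (ENNReal.ofReal_le_ofReal b3).trans ?_
    rw [intervalIntegral.integral_of_le (by linarith)]
    have hi : IntegrableOn f' (Ioc (t₀ - n) (t₀ + n)) :=
      (hc.integrableOn_Icc).mono_set Ioc_subset_Icc_self
    have := ofReal_integral_norm_eq_lintegral_enorm hi
    simp only [Real.norm_eq_abs] at this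
    rw [this]
    exact setLIntegral_le_lintegral _ _
  have l1 : Tendsto (fun n : ℕ => f (t₀ + n)) atTop (𝓝 0) :=
    h1.comp (tendsto_atTop_add_const_left _ _ tendsto_natCast_atTop_atTop)
  have l2 : Tendsto (fun n : ℕ => f (t₀ - n)) atTop (𝓝 0) :=
    h2.comp (tendsto_atBot_add_const_left _ _ (tendsto_neg_atTop_atBot.comp
      tendsto_natCast_atTop_atTop))
  have l3 : Tendsto (fun n : ℕ => ENNReal.ofReal (2 - f (t₀ + n) - f (t₀ - n))) atTop
      (𝓝 (ENNReal.ofReal (2 - 0 - 0))) :=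
    ENNReal.tendsto_ofReal ((tendsto_const_nhds.sub l1).sub l2)
  have := le_of_tendsto' l3 key
  simpa using this

section Moll

variable {Ω : Set E} {ρ : E → ℝ}

/-- The mollified indicator function. -/
noncomputable def per_moll (Ω : Set E) (ρ : E → ℝ) : E → ℝ := per_pconv (Ω.indicator 1) ρ

lemma per_integrable_ind (ho : IsOpen Ω) (hv : volume Ω < ⊤) :
    Integrable (Ω.indicator (1 : E → ℝ)) :=
  (integrable_indicator_iff ho.measurableSet).2 (integrableOn_const hv.ne)

lemma per_moll_eq (ho : IsOpen Ω) (x : E) : per_moll Ω ρ x = ∫ t in Ω, ρ (x - t) := by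
  rw [per_moll, per_pconv, ← integral_indicator ho.measurableSet]
  congr 1; funext t
  by_cases ht : t ∈ Ω <;> simp [ht]

lemma per_moll_fderiv (ho : IsOpen Ω) (hv : volume Ω < ⊤) (hρ : ContDiff ℝ 1 ρ)
    (hc : HasCompactSupport ρ) (x v : E) :
    fderiv ℝ (per_moll Ω ρ) x v = ∫ t in Ω, fderiv ℝ ρ (x - t) v := by
  rw [per_moll, per_pconv_fderiv (per_integrable_ind ho hv).locallyIntegrable hρ hc,
    ← integral_indicator ho.measurableSet]
  congr 1; funext t
  by_cases ht : t ∈ Ω <;> simp [ht]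

lemma per_fderiv_even (hρ : ContDiff ℝ 1 ρ) (he : ∀ x, ρ (-x) = ρ x) (z v : E) :
    fderiv ℝ ρ (-z) v = -fderiv ℝ ρ z v := by
  have h1 : HasFDerivAt ρ (fderiv ℝ ρ (-z)) (-z) :=
    (hρ.differentiable one_ne_zero _).hasFDerivAt
  have h2 : HasFDerivAt (ρ ∘ Neg.neg) ((fderiv ℝ ρ (-z)).comp (-ContinuousLinearMap.id ℝ E)) z :=
    h1.comp z (hasFDerivAt_id z).neg
  have h3 : (ρ ∘ Neg.neg) = ρ := funext fun x => he x
  rw [h3] at h2
  rw [h2.fderiv]; simp

/-- Testing the perimeter with the mollification of a bounded measurable vector field. -/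
lemma per_test_field (ho : IsOpen Ω) (hv : volume Ω < ⊤) (hρ : ContDiff ℝ 1 ρ)
    (hc : HasCompactSupport ρ) (he : ∀ x, ρ (-x) = ρ x) (hpos : ∀ x, 0 ≤ ρ x)
    (hint : ∫ x, ρ x = 1) {ψ : E → E} (hψ : Integrable ψ) (hψc : HasCompactSupport ψ)
    (hψ1 : ∀ x, ‖ψ x‖ ≤ 1) :
    ENNReal.ofReal (∫ x, -fderiv ℝ (per_moll Ω ρ) x (ψ x)) ≤ perimeter Ω := by
  set L : E →L[ℝ] ℝ →L[ℝ] E := (ContinuousLinearMap.lsmul ℝ ℝ).flip with hL
  set φ : E → E := ψ ⋆[L, volume] ρ with hφ
  have hφa : ∀ y, φ y = ∫ t, ρ (y - t) • ψ t := fun y => rfl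
  have hφi : ∀ y, Integrable (fun t => ρ (y - t) • ψ t) := fun y =>
    hc.convolutionExists_right L hψ.locallyIntegrable hρ.continuous y
  have hφ1 : ContDiff ℝ 1 φ := hc.contDiff_convolution_right (n := 1) L hψ.locallyIntegrable hρ
  have hφc : HasCompactSupport φ := hψc.convolution L hc
  have hρi : Integrable ρ := hρ.continuous.integrable_of_hasCompactSupport hc
  have hφn : ∀ y, ‖φ y‖ ≤ 1 := fun y => by
    rw [hφa]
    refine (norm_integral_le_of_norm_le (hρi.comp_sub_left y)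
      (Eventually.of_forall fun t => ?_)).trans ?_
    · rw [norm_smul, Real.norm_of_nonneg (hpos _)]
      exact mul_le_of_le_one_right (hpos _) (hψ1 t)
    · rw [integral_sub_left_eq_self ρ volume y, hint]
  have hψi : ∀ i, Integrable (fun t => ψ t i) := fun i =>
    (EuclideanSpace.proj (𝕜 := ℝ) i).integrable_comp hψ
  have hco : ∀ i, (fun y => φ y i) = per_pconv (fun t => ψ t i) ρ := fun i => by
    funext y
    have := (EuclideanSpace.proj (𝕜 := ℝ) i : E →L[ℝ] ℝ).integral_comp_comm (hφi y)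
    rw [hφa, per_pconv]
    refine Eq.trans this.symm ?_
    congr 1; funext t
    simp [mul_comm]
  have hpd : ∀ i y, pd i (fun y => φ y i) y =
      ∫ t, ψ t i * fderiv ℝ ρ (y - t) (EuclideanSpace.single i 1) := fun i y => by
    rw [pd, hco, per_pconv_fderiv (hψi i).locallyIntegrable hρ hc]
  have hcd : Continuous (fderiv ℝ ρ) := hρ.continuous_fderiv one_ne_zero
  obtain ⟨C, hC⟩ := hcd.bounded_above_of_compact_support (hc.fderiv ℝ)
  have : IsFiniteMeasure (volume.restrict Ω) := isFiniteMeasure_restrict.2 hv.ne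
  have hG : Integrable (Function.uncurry fun y t : E => fderiv ℝ ρ (y - t) (ψ t))
      ((volume.restrict Ω).prod volume) := by
    have hb : Integrable (fun p : E × E => C * ‖ψ p.2‖) ((volume.restrict Ω).prod volume) :=
      (integrable_const C).mul_prod hψ.norm
    refine hb.mono' ?_ (Eventually.of_forall fun p => ?_)
    · have m1 : AEStronglyMeasurable (fun p : E × E => fderiv ℝ ρ (p.1 - p.2))
          ((volume.restrict Ω).prod volume) :=
        (hcd.comp (continuous_fst.sub continuous_snd)).aestronglyMeasurable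
      have m2 : AEStronglyMeasurable (fun p : E × E => ψ p.2)
          ((volume.restrict Ω).prod volume) := hψ.aestronglyMeasurable.comp_snd
      exact (isBoundedBilinearMap_apply (𝕜 := ℝ) (E := E) (F := ℝ)).continuous.comp_aestronglyMeasurable
        (m1.prodMk m2)
    · exact ((fderiv ℝ ρ (p.1 - p.2)).le_opNorm _).trans (by gcongr; exact hC _)
  have hdiv : ∀ y, pd 0 (fun y => φ y 0) y + pd 1 (fun y => φ y 1) y =
      ∫ t, fderiv ℝ ρ (y - t) (ψ t) := fun y => by
    have hi : ∀ i, Integrable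
        (fun t => ψ t i * fderiv ℝ ρ (y - t) (EuclideanSpace.single i 1)) := fun i => by
      refine (hψi i).mul_bdd (c := C) ?_ (Eventually.of_forall fun t => ?_)
      · exact ((hcd.comp (continuous_const.sub continuous_id)).clm_apply
          continuous_const).aestronglyMeasurable
      · refine ((fderiv ℝ ρ (y - t)).le_opNorm _).trans ?_
        simpa using hC _
    rw [hpd, hpd, ← integral_add (hi 0) (hi 1)]
    congr 1; funext t
    rw [per_fderiv_apply_eq _ (ψ t)]
  have hmain : ∫ y in Ω, (pd 0 (fun y => φ y 0) y + pd 1 (fun y => φ y 1) y) =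
      ∫ x, -fderiv ℝ (per_moll Ω ρ) x (ψ x) := by
    simp only [hdiv]
    rw [integral_integral_swap hG]
    congr 1; funext x
    rw [per_moll_fderiv ho hv hρ hc, ← integral_neg]
    congr 1; funext y
    rw [← per_fderiv_even hρ he, neg_sub]
  rw [← hmain, perimeter]
  exact le_iSup_of_le φ (le_iSup_of_le hφ1 (le_iSup_of_le hφc (le_iSup_of_le hφn le_rfl)))

lemma per_moll_contDiff (ho : IsOpen Ω) (hv : volume Ω < ⊤) (hρ : ContDiff ℝ 1 ρ)
    (hc : HasCompactSupport ρ) : ContDiff ℝ 1 (per_moll Ω ρ) :=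
  per_pconv_contDiff (per_integrable_ind ho hv).locallyIntegrable hρ hc

/-- The total variation of the mollified indicator is at most the perimeter. -/
lemma per_grad_bound (ho : IsOpen Ω) (hv : volume Ω < ⊤) (hρ : ContDiff ℝ 1 ρ)
    (hc : HasCompactSupport ρ) (he : ∀ x, ρ (-x) = ρ x) (hpos : ∀ x, 0 ≤ ρ x)
    (hint : ∫ x, ρ x = 1) :
    ∫⁻ x, ENNReal.ofReal (√(pd 0 (per_moll Ω ρ) x ^ 2 + pd 1 (per_moll Ω ρ) x ^ 2)) ≤ perimeter Ω := by
  have hu := per_moll_contDiff ho hv hρ hc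
  set u := per_moll Ω ρ with hu_def
  have hpc : ∀ i, Continuous (pd i u) := fun i =>
    (hu.continuous_fderiv one_ne_zero).clm_apply continuous_const
  set N : E → ℝ := fun x => √(pd 0 u x ^ 2 + pd 1 u x ^ 2) with hN
  have hNc : Continuous N := (((hpc 0).pow 2).add ((hpc 1).pow 2)).sqrt
  have hN0 : ∀ x, 0 ≤ N x := fun x => sqrt_nonneg _
  have hNsq : ∀ x, N x ^ 2 = pd 0 u x ^ 2 + pd 1 u x ^ 2 := fun x => sq_sqrt (by positivity)
  set w : E → E := fun x => !₂[-pd 0 u x / N x, -pd 1 u x / N x] with hw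
  have hw0 : ∀ x, w x 0 = -pd 0 u x / N x := fun x => rfl
  have hw1 : ∀ x, w x 1 = -pd 1 u x / N x := fun x => rfl
  have hwm : Measurable w := by
    have m0 : Measurable fun x => -pd 0 u x / N x := (hpc 0).measurable.neg.div hNc.measurable
    have m1 : Measurable fun x => -pd 1 u x / N x := (hpc 1).measurable.neg.div hNc.measurable
    have : w = fun x => rot 0 (-pd 0 u x / N x, -pd 1 u x / N x) := by
      funext x; ext i; fin_cases i
      · simp [rot_zero, hw0]
      · simp [rot_one, hw1]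
    rw [this]
    exact (continuous_rot 0).measurable.comp (m0.prodMk m1)
  have hwn : ∀ x, ‖w x‖ ≤ 1 := fun x => by
    have h : ‖w x‖ ^ 2 ≤ 1 := by
      rw [norm_sq_eq, hw0, hw1, div_pow, div_pow, ← add_div, neg_sq, neg_sq, ← hNsq]
      exact div_self_le_one _
    nlinarith [norm_nonneg (w x)]
  have hwd : ∀ x, -fderiv ℝ u x (w x) = N x := fun x => by
    rw [per_fderiv_apply_eq, hw0, hw1]
    change -(-pd 0 u x / N x * pd 0 u x + -pd 1 u x / N x * pd 1 u x) = N x
    rcases (hN0 x).eq_or_lt with h | h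
    · rw [← h]; simp
    · field_simp
      linarith [hNsq x]
  rw [← setLIntegral_univ, ← Metric.iUnion_closedBall_nat (0 : E),
    setLIntegral_iUnion_of_directed _ (Monotone.directed_le fun m n hmn =>
      Metric.closedBall_subset_closedBall (Nat.cast_le.2 hmn))]
  refine iSup_le fun n => ?_
  set K := Metric.closedBall (0 : E) n
  have hK : IsCompact K := isCompact_closedBall _ _
  have hψ : Integrable (K.indicator w) := by
    refine (integrable_indicator_iff hK.measurableSet).2 ?_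
    exact Measure.integrableOn_of_bounded (M := 1) hK.measure_lt_top.ne
      hwm.aestronglyMeasurable (Eventually.of_forall hwn)
  have hψc : HasCompactSupport (K.indicator w) :=
    HasCompactSupport.intro hK fun x hx => indicator_of_notMem hx _
  have hψ1 : ∀ x, ‖K.indicator w x‖ ≤ 1 := fun x =>
    (norm_indicator_le_norm_self w x).trans (hwn x)
  have h := per_test_field ho hv hρ hc he hpos hint hψ hψc hψ1
  have e1 : ∫ x, -fderiv ℝ (per_moll Ω ρ) x (K.indicator w x) = ∫ x in K, N x := by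
    rw [← integral_indicator hK.measurableSet]
    congr 1; funext x
    by_cases hx : x ∈ K
    · rw [indicator_of_mem hx, indicator_of_mem hx, ← hu_def, hwd]
    · simp [hx]
  rw [e1, ofReal_integral_eq_lintegral_ofReal (hNc.continuousOn.integrableOn_compact hK)
    (Eventually.of_forall hN0)] at h
  exact h

lemma per_moll_tendsto (ho : IsOpen Ω) (hv : volume Ω < ⊤) (hρ : Continuous ρ)
    (hc : HasCompactSupport ρ) {l : Filter ℝ} [l.IsCountablyGenerated] {c : ℝ → E}
    (hl : Tendsto c l (cocompact E)) : Tendsto (fun s => per_moll Ω ρ (c s)) l (𝓝 0) := by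
  have : IsFiniteMeasure (volume.restrict Ω) := isFiniteMeasure_restrict.2 hv.ne
  obtain ⟨C, hC⟩ := hρ.bounded_above_of_compact_support hc
  have h := tendsto_integral_filter_of_dominated_convergence (μ := volume.restrict Ω)
    (l := l) (F := fun s t => ρ (c s - t)) (f := fun _ => 0) (fun _ => C)
    (Eventually.of_forall fun x =>
      (hρ.comp (continuous_const.sub continuous_id)).aestronglyMeasurable)
    (Eventually.of_forall fun x => Eventually.of_forall fun t => hC _) (integrable_const C)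
    (Eventually.of_forall fun t => ?_)
  · simpa [per_moll_eq ho] using h
  · have h1 : Tendsto ρ (cocompact E) (𝓝 0) := hc.is_zero_at_infty
    exact (h1.comp (Homeomorph.subRight t).isClosedEmbedding.tendsto_cocompact).comp hl

lemma per_moll_eq_one (ho : IsOpen Ω) (hint : ∫ x, ρ x = 1) {δ : ℝ}
    (hs : Function.support ρ ⊆ Metric.ball 0 δ) {x : E} (hx : Metric.ball x δ ⊆ Ω) :
    per_moll Ω ρ x = 1 := by
  rw [per_moll_eq ho, setIntegral_eq_integral_of_forall_compl_eq_zero,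
    integral_sub_left_eq_self ρ volume x, hint]
  intro t ht
  by_contra h
  have := hs h
  rw [mem_ball_zero_iff] at this
  exact ht (hx (by rwa [Metric.mem_ball, dist_comm, dist_eq_norm]))

lemma per_tendsto_line (θ s : ℝ) : Tendsto (fun t => rot θ (s, t)) (cocompact ℝ) (cocompact E) := by
  have h : Isometry (fun t => rot θ (s, t)) := by
    refine Isometry.of_dist_eq fun a b => ?_
    have : rot θ (s, a) - rot θ (s, b) = (a - b) • e' θ := by
      simp only [rot, sub_smul]; abel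
    rw [dist_eq_norm, this, norm_smul, norm_e', mul_one, dist_eq_norm]
  exact h.isClosedEmbedding.tendsto_cocompact

/-- Directional variation bound. -/
lemma per_dir_bound (ho : IsOpen Ω) (hv : volume Ω < ⊤) (hρ : ContDiff ℝ 1 ρ)
    (hc : HasCompactSupport ρ) (hint : ∫ x, ρ x = 1) {δ : ℝ}
    (hs : Function.support ρ ⊆ Metric.ball 0 δ) (θ : ℝ) :
    2 * volume ((fun x : E => ⟪x, e θ⟫) '' {x | Metric.ball x δ ⊆ Ω}) ≤
      ∫⁻ x, ‖fderiv ℝ (per_moll Ω ρ) x (e' θ)‖ₑ := by
  have hu := per_moll_contDiff ho hv hρ hc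
  set u := per_moll Ω ρ with hu_def
  have hcd : Continuous fun x => fderiv ℝ u x (e' θ) :=
    (hu.continuous_fderiv one_ne_zero).clm_apply continuous_const
  have hm : Measurable fun p : ℝ × ℝ => ‖fderiv ℝ u (rot θ p) (e' θ)‖ₑ :=
    (hcd.comp (continuous_rot θ)).measurable.enorm
  rw [← (measurePreserving_rot θ).lintegral_comp_emb (measurableEmbedding_rot θ),
    Measure.volume_eq_prod, lintegral_prod _ hm.aemeasurable]
  refine le_trans ?_ (mul_meas_ge_le_lintegral hm.lintegral_prod_right' 2)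
  gcongr
  rintro _ ⟨x, hx, rfl⟩
  have hl := per_tendsto_line θ ⟪x, e θ⟫
  refine per_two_le_lintegral_deriv (f := fun t => u (rot θ (⟪x, e θ⟫, t))) (t₀ := ⟪x, e' θ⟫)
    (fun t => ?_) (hcd.comp ((continuous_rot θ).comp (by fun_prop))) ?_
    (per_moll_tendsto ho hv hρ.continuous hc (hl.mono_left atTop_le_cocompact))
    (per_moll_tendsto ho hv hρ.continuous hc (hl.mono_left atBot_le_cocompact))
  · have h1 : HasDerivAt (fun t => rot θ (⟪x, e θ⟫, t)) (e' θ) t := by
      simpa [rot] using ((hasDerivAt_id t).smul_const (e' θ)).const_add (⟪x, e θ⟫ • e θ)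
    exact (hu.differentiable one_ne_zero _).hasFDerivAt.comp_hasDerivAt t h1
  · simp only [rot_inner]
    exact per_moll_eq_one ho hint hs hx

lemma per_angle_bound (ho : IsOpen Ω) (hv : volume Ω < ⊤) (hρ : ContDiff ℝ 1 ρ)
    (hc : HasCompactSupport ρ) (he : ∀ x, ρ (-x) = ρ x) (hpos : ∀ x, 0 ≤ ρ x)
    (hint : ∫ x, ρ x = 1) :
    Measurable (fun θ => ∫⁻ x, ‖fderiv ℝ (per_moll Ω ρ) x (e' θ)‖ₑ) ∧
    ∫⁻ θ in Ioc (-π) π, ∫⁻ x, ‖fderiv ℝ (per_moll Ω ρ) x (e' θ)‖ₑ ≤ 4 * perimeter Ω := by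
  have hu := per_moll_contDiff ho hv hρ hc
  have hg := per_grad_bound ho hv hρ hc he hpos hint
  set u := per_moll Ω ρ with hu_def
  have hcd : Continuous fun p : ℝ × E => fderiv ℝ u p.2 (e' p.1) :=
    ((hu.continuous_fderiv one_ne_zero).comp continuous_snd).clm_apply
      (continuous_e'.comp continuous_fst)
  have hm : Measurable fun p : ℝ × E => ‖fderiv ℝ u p.2 (e' p.1)‖ₑ := hcd.measurable.enorm
  refine ⟨hm.lintegral_prod_right', ?_⟩
  rw [lintegral_lintegral_swap hm.aemeasurable]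
  refine le_trans (le_of_eq ?_) (mul_le_mul_right hg 4)
  rw [← lintegral_const_mul' _ _ (by simp)]
  congr 1; funext x
  have hc1 : Continuous fun θ => fderiv ℝ u x (e' θ) := (fderiv ℝ u x).continuous.comp continuous_e'
  rw [← ofReal_integral_norm_eq_lintegral_enorm
    (hc1.integrableOn_Icc.mono_set Ioc_subset_Icc_self),
    ← intervalIntegral.integral_of_le (by linarith [pi_pos])]
  have e1 : ∀ θ, ‖fderiv ℝ u x (e' θ)‖ = |-sin θ * pd 0 u x + cos θ * pd 1 u x| := fun θ => by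
    rw [per_fderiv_apply_eq]; rfl
  simp only [e1]
  rw [per_integral_abs_dir, ENNReal.ofReal_mul (by norm_num)]
  simp

end Moll

lemma perim_lower {Ω : Set E} (ho : IsOpen Ω) (hv : volume Ω < ⊤) {P : ℝ} (hP0 : 0 ≤ P)
    (hP : perimeter Ω ≤ ENNReal.ofReal P) {β : ℝ → ℝ} (hβ : Continuous β)
    (h : ∀ θ, ENNReal.ofReal (β θ) ≤ volume ((fun x : E => ⟪x, e θ⟫) '' Ω)) :
    ∫ θ in (-π)..π, β θ ≤ 2 * P := by
  have hδ : ∀ n : ℕ, (0 : ℝ) < 1 / ((n : ℝ) + 1) := fun n => Nat.one_div_pos_of_nat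
  let b : ℕ → ContDiffBump (0 : E) := fun n =>
    ⟨1 / ((n : ℝ) + 1) / 2, 1 / ((n : ℝ) + 1), half_pos (hδ n), half_lt_self (hδ n)⟩
  let ρ : ℕ → E → ℝ := fun n => (b n).normed volume
  have hρ : ∀ n, ContDiff ℝ 1 (ρ n) := fun n => (b n).contDiff_normed (n := 1)
  have hc : ∀ n, HasCompactSupport (ρ n) := fun n => (b n).hasCompactSupport_normed
  have hint : ∀ n, ∫ x, ρ n x = 1 := fun n => (b n).integral_normed
  have hs : ∀ n, Function.support (ρ n) ⊆ Metric.ball 0 (1 / ((n : ℝ) + 1)) := fun n =>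
    (b n).support_normed_eq.subset
  let g : ℕ → ℝ → ℝ≥0∞ := fun n θ => ∫⁻ x, ‖fderiv ℝ (per_moll Ω (ρ n)) x (e' θ)‖ₑ
  have hA := fun n => per_angle_bound ho hv (hρ n) (hc n) (b n).normed_neg (b n).nonneg_normed (hint n)
  let S : ℕ → Set E := fun n => {x | Metric.ball x (1 / ((n : ℝ) + 1)) ⊆ Ω}
  have hSm : Monotone S := fun m n hmn x hx =>
    (Metric.ball_subset_ball (Nat.one_div_le_one_div hmn)).trans hx
  have hSU : Ω ⊆ ⋃ n, S n := fun x hx => by
    obtain ⟨ε, hε, hb⟩ := Metric.isOpen_iff.1 ho x hx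
    obtain ⟨n, hn⟩ := exists_nat_one_div_lt hε
    exact mem_iUnion.2 ⟨n, (Metric.ball_subset_ball hn.le).trans hb⟩
  have hlow : ∀ θ, 2 * ENNReal.ofReal (β θ) ≤ liminf (fun n => g n θ) atTop := fun θ => by
    have hm : Monotone fun n => (fun x : E => ⟪x, e θ⟫) '' S n := fun m n hmn =>
      image_mono (hSm hmn)
    have h1 := tendsto_measure_iUnion_atTop (μ := volume) hm
    have h2 := ENNReal.Tendsto.const_mul (a := 2) h1 (Or.inr (by simp))
    refine le_trans ?_ (h2.liminf_eq.symm.le.trans (liminf_le_liminf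
      (Eventually.of_forall fun n => per_dir_bound ho hv (hρ n) (hc n) (hint n) (hs n) θ)))
    gcongr
    refine (h θ).trans (measure_mono ?_)
    rw [← image_iUnion]
    exact image_mono hSU
  have hF : ∫⁻ θ in Ioc (-π) π, 2 * ENNReal.ofReal (β θ) ≤ 4 * ENNReal.ofReal P := by
    refine (lintegral_mono hlow).trans ((lintegral_liminf_le fun n => (hA n).1).trans ?_)
    refine liminf_le_of_frequently_le' (Frequently.of_forall fun n => (hA n).2.trans ?_)
    gcongr
  rw [lintegral_const_mul' _ _ (by simp)] at hF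
  have hF2 : ∫⁻ θ in Ioc (-π) π, ENNReal.ofReal (β θ) ≤ ENNReal.ofReal (2 * P) := by
    rw [ENNReal.ofReal_mul (by norm_num), ENNReal.ofReal_ofNat]
    rw [show (4 : ℝ≥0∞) = 2 * 2 by norm_num, mul_assoc] at hF
    exact (ENNReal.mul_le_mul_iff_right (by simp) (by simp)).1 hF
  rw [intervalIntegral.integral_of_le (by linarith [pi_pos])]
  have hi : IntegrableOn β (Ioc (-π) π) := hβ.integrableOn_Icc.mono_set Ioc_subset_Icc_self
  rw [← ENNReal.ofReal_le_ofReal_iff (by positivity)]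
  refine le_trans ?_ hF2
  refine le_trans (ENNReal.ofReal_le_ofReal
    (integral_mono hi hi.pos_part fun θ => le_max_left _ _)) ?_
  rw [ofReal_integral_eq_lintegral_ofReal hi.pos_part
    (Eventually.of_forall fun θ => le_max_right _ _)]
  refine lintegral_mono fun θ => ?_
  simp

lemma per_div_eq_rot (L : E →L[ℝ] E) (θ : ℝ) :
    L (EuclideanSpace.single 0 1) 0 + L (EuclideanSpace.single 1 1) 1 =
      ⟪L (e θ), e θ⟫ + ⟪L (e' θ), e' θ⟫ := by
  have h : ∀ (v : E) (i : Fin 2), L v i = v 0 * L (EuclideanSpace.single 0 1) i +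
      v 1 * L (EuclideanSpace.single 1 1) i := fun v i =>
    per_fderiv_apply_eq ((EuclideanSpace.proj (𝕜 := ℝ) i : E →L[ℝ] ℝ).comp L) v
  rw [inner_eq, inner_eq, h (e θ) 0, h (e θ) 1, h (e' θ) 0, h (e' θ) 1]
  simp only [e_zero, e_one, e'_zero, e'_one]
  linear_combination (-(L (EuclideanSpace.single 0 1) 0 + L (EuclideanSpace.single 1 1) 1)) *
    sin_sq_add_cos_sq θ

lemma per_hasDerivAt_e (θ : ℝ) : HasDerivAt e (e' θ) θ := by
  have : e = fun θ => rot 0 (cos θ, sin θ) := by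
    funext θ; ext i; fin_cases i
    · simp [rot_zero]
    · simp [rot_one]
  have h2 : e' θ = rotL 0 (-sin θ, cos θ) := by
    ext i; fin_cases i
    · simp [rotL_apply, rot_zero]
    · simp [rotL_apply, rot_one]
  rw [this, h2]
  exact (rotL 0).hasFDerivAt.comp_hasDerivAt θ ((hasDerivAt_cos θ).prodMk (hasDerivAt_sin θ))

lemma per_hasDerivAt_e' (θ : ℝ) : HasDerivAt e' (-e θ) θ := by
  have : e' = fun θ => rot 0 (-sin θ, cos θ) := by
    funext θ; ext i; fin_cases i
    · simp [rot_zero]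
    · simp [rot_one]
  have h2 : -e θ = rotL 0 (-cos θ, -sin θ) := by
    ext i; fin_cases i
    · simp [rotL_apply, rot_zero]
    · simp [rotL_apply, rot_one]
  rw [this, h2]
  exact (rotL 0).hasFDerivAt.comp_hasDerivAt θ ((hasDerivAt_sin θ).neg.prodMk (hasDerivAt_cos θ))

lemma perimeter_ball (z : E) {r : ℝ} (hr : 0 < r) :
    perimeter (Metric.ball z r) ≤ ENNReal.ofReal (2 * π * r) := by
  refine iSup_le fun φ => iSup_le fun hφ => iSup_le fun _ => iSup_le fun hφ1 =>
    ENNReal.ofReal_le_ofReal ?_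
  have hd := hφ.differentiable one_ne_zero
  have hcd : Continuous (fderiv ℝ φ) := hφ.continuous_fderiv one_ne_zero
  have hpd : ∀ i x, pd i (fun y => φ y i) x = fderiv ℝ φ x (EuclideanSpace.single i 1) i :=
    fun i x => by
      have h := (EuclideanSpace.proj (𝕜 := ℝ) i : E →L[ℝ] ℝ).hasFDerivAt.comp x (hd x).hasFDerivAt
      rw [pd]
      exact congrArg (fun L : E →L[ℝ] ℝ => L (EuclideanSpace.single i 1)) h.fderiv
  simp only [hpd]
  set G : E → ℝ := fun x => fderiv ℝ φ x (EuclideanSpace.single 0 1) 0 +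
    fderiv ℝ φ x (EuclideanSpace.single 1 1) 1 with hG
  have hGc : Continuous G := by
    have : ∀ i : Fin 2, Continuous fun x => fderiv ℝ φ x (EuclideanSpace.single i 1) i := fun i =>
      (EuclideanSpace.proj (𝕜 := ℝ) i : E →L[ℝ] ℝ).continuous.comp
        (hcd.clm_apply continuous_const)
    exact (this 0).add (this 1)
  have hGz : Continuous fun x => G (z + x) := hGc.comp (continuous_const.add continuous_id)
  have e1 : ∫ x in Metric.ball z r, G x =
      ∫ x, (Metric.ball (0 : E) r).indicator (fun x => G (z + x)) x := by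
    rw [← integral_indicator Metric.isOpen_ball.measurableSet,
      ← integral_add_left_eq_self _ z]
    congr 1; funext x
    by_cases hx : x ∈ Metric.ball (0 : E) r
    · rw [indicator_of_mem hx, indicator_of_mem (by simpa using hx)]
    · rw [indicator_of_notMem hx, indicator_of_notMem (by simpa using hx)]
  have hi : Integrable ((Metric.ball (0 : E) r).indicator (fun x => G (z + x))) :=
    (integrable_indicator_iff Metric.isOpen_ball.measurableSet).2
      ((hGz.continuousOn.integrableOn_compact (isCompact_closedBall 0 r)).mono_set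
        Metric.ball_subset_closedBall)
  set A : ℝ → ℝ → ℝ := fun θ s => ⟪φ (z + s • e θ), e θ⟫ +
    s * ⟪fderiv ℝ φ (z + s • e θ) (e θ), e θ⟫ with hA
  set B : ℝ → ℝ → ℝ := fun θ s => s * ⟪fderiv ℝ φ (z + s • e θ) (e' θ), e' θ⟫ -
    ⟪φ (z + s • e θ), e θ⟫ with hB
  have hpt : Continuous fun p : ℝ × ℝ => z + p.2 • e p.1 :=
    continuous_const.add (continuous_snd.smul (continuous_e.comp continuous_fst))
  have he1 : Continuous fun p : ℝ × ℝ => e p.1 := continuous_e.comp continuous_fst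
  have he2 : Continuous fun p : ℝ × ℝ => e' p.1 := continuous_e'.comp continuous_fst
  have hAc : Continuous (Function.uncurry A) :=
    ((hφ.continuous.comp hpt).inner he1).add
      (continuous_snd.mul (((hcd.comp hpt).clm_apply he1).inner he1))
  have hBc : Continuous (Function.uncurry B) :=
    (continuous_snd.mul (((hcd.comp hpt).clm_apply he2).inner he2)).sub
      ((hφ.continuous.comp hpt).inner he1)
  have hAd : ∀ θ s, HasDerivAt (fun s => s * ⟪φ (z + s • e θ), e θ⟫) (A θ s) s := fun θ s => by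
    have h1 : HasDerivAt (fun s : ℝ => z + s • e θ) (e θ) s := by
      simpa using ((hasDerivAt_id s).smul_const (e θ)).const_add z
    have h2 := ((hd _).hasFDerivAt.comp_hasDerivAt s h1).inner ℝ (hasDerivAt_const s (e θ))
    have h3 := (hasDerivAt_id s).mul h2
    refine h3.congr_deriv ?_
    simp [hA]
  have hBd : ∀ s θ, HasDerivAt (fun θ => ⟪φ (z + s • e θ), e' θ⟫) (B θ s) θ := fun s θ => by
    have h1 : HasDerivAt (fun θ : ℝ => z + s • e θ) (s • e' θ) θ :=
      ((per_hasDerivAt_e θ).const_smul s).const_add z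
    have h2 := ((hd _).hasFDerivAt.comp_hasDerivAt θ h1).inner ℝ (per_hasDerivAt_e' θ)
    refine h2.congr_deriv ?_
    simp only [hB, Function.comp_apply, inner_neg_right, map_smul, real_inner_smul_left]
    ring
  have e2 : ∀ θ, ∫ s in Ioi (0 : ℝ),
      s * (Metric.ball (0 : E) r).indicator (fun x => G (z + x)) (s • e θ) =
      r * ⟪φ (z + r • e θ), e θ⟫ + ∫ s in (0 : ℝ)..r, B θ s := fun θ => by
    have cA : Continuous (A θ) := hAc.uncurry_left θ
    have cB : Continuous (B θ) := hBc.uncurry_left θ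
    have f1 := intervalIntegral.integral_eq_sub_of_hasDerivAt (a := 0) (b := r)
      (fun s _ => hAd θ s) (cA.intervalIntegrable _ _)
    rw [zero_mul, sub_zero] at f1
    rw [← f1, ← intervalIntegral.integral_add (cA.intervalIntegrable _ _)
      (cB.intervalIntegrable _ _), intervalIntegral.integral_of_le hr.le,
      integral_Ioc_eq_integral_Ioo, ← Ioi_inter_Iio, ← setIntegral_indicator measurableSet_Iio]
    refine setIntegral_congr_fun measurableSet_Ioi fun s hs => ?_
    have hs0 : 0 < s := hs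
    have hn : ‖s • e θ‖ = s := by rw [norm_smul, norm_e, mul_one, Real.norm_of_nonneg hs0.le]
    by_cases h : s < r
    · rw [indicator_of_mem (by rwa [mem_ball_zero_iff, hn]), indicator_of_mem (by exact h)]
      simp only [hG, hA, hB, per_div_eq_rot _ θ]
      ring
    · rw [indicator_of_notMem (by rwa [mem_ball_zero_iff, hn]), indicator_of_notMem (by exact h)]
      simp
  have c1 : Continuous fun θ => r * ⟪φ (z + r • e θ), e θ⟫ :=
    continuous_const.mul ((hφ.continuous.comp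
      (continuous_const.add (continuous_e.const_smul r))).inner continuous_e)
  have c2 : Continuous fun θ => ∫ s in (0 : ℝ)..r, B θ s :=
    intervalIntegral.continuous_parametric_intervalIntegral_of_continuous' hBc 0 r
  have e3 : ∫ θ in (-π)..π, ∫ s in (0 : ℝ)..r, B θ s = 0 := by
    rw [intervalIntegral_intervalIntegral_swap ((hBc.continuousOn.integrableOn_compact
      (isCompact_uIcc.prod isCompact_uIcc)).mono_set (prod_mono uIoc_subset_uIcc uIoc_subset_uIcc))]
    have : ∀ s, ∫ θ in (-π)..π, B θ s = 0 := fun s => by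
      have cB : Continuous fun θ => B θ s := hBc.uncurry_right s
      rw [intervalIntegral.integral_eq_sub_of_hasDerivAt (fun θ _ => hBd s θ)
        (cB.intervalIntegrable _ _)]
      simp [e, e']
    simp [this]
  change ∫ x in Metric.ball z r, G x ≤ _
  rw [e1, integral_polar' hi]
  simp only [e2]
  rw [intervalIntegral.integral_add (c1.intervalIntegrable _ _) (c2.intervalIntegrable _ _), e3,
    add_zero]
  calc ∫ θ in (-π)..π, r * ⟪φ (z + r • e θ), e θ⟫ ≤ ∫ θ in (-π)..π, r := by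
        refine intervalIntegral.integral_mono_on (by linarith [pi_pos])
          (c1.intervalIntegrable _ _) intervalIntegrable_const fun θ _ => ?_
        refine mul_le_of_le_one_right hr.le ((real_inner_le_norm _ _).trans ?_)
        rw [norm_e, mul_one]
        exact hφ1 _
    _ = 2 * π * r := by
        rw [intervalIntegral.integral_const, smul_eq_mul]; ring

end Pool.Agent.MP_918781_an

end

-- part MP_918781_an.Final
section

/-! Assembly: the disc is the unique optimal shape in the plane. -/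

namespace Pool.Agent.MP_918781_an

open MeasureTheory Filter Topology Real Set Metric
open scoped ENNReal ContDiff RealInnerProductSpace Pointwise

/-- The lengths of the projections have mean at most two. -/
def ProjBound (Ω : Set E) : Prop :=
  ∀ β : ℝ → ℝ, Continuous β →
    (∀ θ, ENNReal.ofReal (β θ) ≤ volume ((fun x : E => ⟪x, e θ⟫) '' Ω)) →
    ∫ θ in (-π)..π, β θ ≤ 4 * π

lemma wd_bound {Ω : Set E} (hG : ProjBound Ω) {u : E → ℝ} (hu : Sm u) (hne : u ≠ 0)
    {C : Set E} (hC : IsPreconnected C) (hCΩ : C ⊆ Ω) (huC : tsupport u ⊆ C) :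
    ∫ θ in (-π)..π, wd (tsupport u) θ ≤ 4 * π := by
  have hK := hu.2.isCompact
  obtain ⟨x₀, hx₀⟩ := Function.ne_iff.1 hne
  have hn : (tsupport u).Nonempty := ⟨x₀, subset_tsupport _ hx₀⟩
  refine hG _ (continuous_wd hK) fun θ => ?_
  obtain ⟨x, hx, hx'⟩ := exists_hs hK hn θ
  obtain ⟨y, hy, hy'⟩ := exists_hs hK hn (θ + π)
  rw [e_add_pi, inner_neg_right] at hy'
  have h1 : IsPreconnected ((fun x : E => ⟪x, e θ⟫) '' C) :=
    hC.image _ (Continuous.continuousOn (by fun_prop))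
  have h2 := h1.Icc_subset (a := ⟪y, e θ⟫) (b := ⟪x, e θ⟫) ⟨y, huC hy, rfl⟩ ⟨x, huC hx, rfl⟩
  refine le_trans ?_ (measure_mono (h2.trans (image_mono hCΩ)))
  rw [Real.volume_Icc, wd, ← hx', ← hy']
  exact le_of_eq (by congr 1)

lemma DD_zero : DD 0 = 0 := by
  have : ∀ i, pd i (0 : E → ℝ) = 0 := fun i => by funext x; simp [pd]
  simp [DD, this]

lemma norm_sharp {Ω : Set E} (ho : IsOpen Ω) (hG : ProjBound Ω) :
    ∀ u, IsTest Ω u → 4 * y1 * DD u ≤ NN u := by
  refine reduce_connected ho fun u hu ⟨C, hC, hCΩ, huC⟩ => ?_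
  by_cases hne : u = 0
  · rw [hne, DD_zero, mul_zero]; exact NN_nonneg _
  · exact sharp hu.sm hne (wd_bound hG hu.sm hne hC hCΩ huC)

lemma Ioo_subset_proj_ball (z : E) (r θ : ℝ) :
    Ioo (⟪z, e θ⟫ - r) (⟪z, e θ⟫ + r) ⊆ (fun x : E => ⟪x, e θ⟫) '' ball z r := by
  intro s hs
  refine ⟨z + (s - ⟪z, e θ⟫) • e θ, ?_, ?_⟩
  · rw [mem_ball, dist_eq_norm, add_sub_cancel_left, norm_smul, norm_e, mul_one, Real.norm_eq_abs,
      abs_lt]
    constructor <;> linarith [hs.1, hs.2]
  · simp only [inner_add_left, inner_smul_left, inner_e_e, conj_trivial, sub_self, cos_zero]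
    ring

lemma eq_ball_of_subset {Ω : Set E} (ho : IsOpen Ω) (hG : ProjBound Ω) {z : E}
    (hz : ball z 1 ⊆ Ω) : Ω = ball z 1 := by
  refine Subset.antisymm (fun x hx => ?_) hz
  by_contra hxz
  rw [mem_ball, dist_eq_norm, not_lt] at hxz
  obtain ⟨δ, hδ, hb⟩ := Metric.isOpen_iff.1 ho x hx
  obtain ⟨α, hα, hxα⟩ := exists_polar (x - z)
  set w : E := x + (δ / 2) • e α with hw
  have hwb : ball w (δ / 2) ⊆ Ω := by
    refine Subset.trans (ball_subset_ball' ?_) hb
    rw [dist_eq_norm, hw, add_sub_cancel_left, norm_smul_e (by positivity)]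
    linarith
  set β : ℝ → ℝ := fun θ => 2 + max 0 (min (δ / 2) (⟪w, e θ⟫ - ⟪z, e θ⟫ - 1)) with hβ
  have hc : Continuous β := by
    have := continuous_e
    rw [hβ]; fun_prop
  have h1 := hG β hc fun θ => by
    set τ := max 0 (min (δ / 2) (⟪w, e θ⟫ - ⟪z, e θ⟫ - 1)) with hτ
    have hτ0 : 0 ≤ τ := le_max_left _ _
    have hτ1 : τ ≤ δ / 2 := max_le (by positivity) (min_le_left _ _)
    have hsub : Ioo (⟪z, e θ⟫ - 1) (⟪z, e θ⟫ + 1) ∪ Ioo (⟪w, e θ⟫ - τ) ⟪w, e θ⟫ ⊆
        (fun x : E => ⟪x, e θ⟫) '' Ω := by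
      refine union_subset ((Ioo_subset_proj_ball z 1 θ).trans (image_mono hz)) ?_
      refine Subset.trans (Ioo_subset_Ioo ?_ ?_)
        ((Ioo_subset_proj_ball w (δ / 2) θ).trans (image_mono hwb)) <;> linarith
    refine le_trans (le_of_eq ?_) (measure_mono hsub)
    rw [measure_union _ measurableSet_Ioo, Real.volume_Ioo, Real.volume_Ioo,
      ← ENNReal.ofReal_add (by linarith) (by linarith)]
    · simp only [hβ, ← hτ]
      congr 1; ring
    · rw [Set.disjoint_left]
      intro s hs hs'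
      rcases le_total (min (δ / 2) (⟪w, e θ⟫ - ⟪z, e θ⟫ - 1)) 0 with h | h
      · rw [max_eq_left h] at hτ
        linarith [hs'.1, hs'.2]
      · rw [max_eq_right h] at hτ
        have := min_le_right (δ / 2) (⟪w, e θ⟫ - ⟪z, e θ⟫ - 1)
        linarith [hs'.1, hs.2]
  have hπ := pi_pos
  have h2 : ∫ _ in (-π)..π, (2 : ℝ) < ∫ θ in (-π)..π, β θ := by
    refine intervalIntegral.integral_lt_integral_of_continuousOn_of_le_of_exists_lt (by linarith)
      continuousOn_const hc.continuousOn (fun θ _ => ?_) ⟨α, hα, ?_⟩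
    · simp only [hβ, le_add_iff_nonneg_right, le_max_iff, le_refl, true_or]
    · have h3 : ⟪x - z, e α⟫ = ‖x - z‖ := by
        conv_lhs => rw [hxα]
        rw [inner_smul_left, inner_e_e]; simp
      have h4 : ⟪w, e α⟫ = ⟪x, e α⟫ + δ / 2 := by
        rw [hw, inner_add_left, inner_smul_left, inner_e_e]; simp
      rw [inner_sub_left] at h3
      simp only [hβ, lt_add_iff_pos_right, lt_max_iff, lt_self_iff_false, false_or, lt_min_iff]
      constructor <;> linarith
  rw [intervalIntegral.integral_const, smul_eq_mul] at h2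
  linarith

lemma inradius_lt {Ω : Set E} (ho : IsOpen Ω) (hv : volume Ω < ⊤) (h : ∀ z, ¬ ball z 1 ⊆ Ω) :
    ∃ ε : ℝ, 0 < ε ∧ ε < 1 ∧ ∀ z, ∃ x, x ∉ Ω ∧ ‖x - z‖ ≤ 1 - ε := by
  have hne : Ωᶜ.Nonempty := by
    obtain ⟨x, -, hx⟩ := not_subset.1 (h 0)
    exact ⟨x, hx⟩
  have hcl : IsClosed Ωᶜ := ho.isClosed_compl
  set f : E → ℝ := fun z => infDist z Ωᶜ with hf
  have hfc : Continuous f := continuous_infDist_pt _
  have hball : ∀ z r, r ≤ f z → ball z r ⊆ Ω := fun z r hr x hx => by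
    by_contra hc
    have := infDist_le_dist_of_mem (x := z) (show x ∈ Ωᶜ from hc)
    rw [mem_ball, dist_comm] at hx
    simp only [hf] at hr
    linarith
  have hlt : ∀ z, f z < 1 := fun z => lt_of_not_ge fun hc => h z (hball z 1 hc)
  have hlim : Tendsto (fun n : ℕ => volume (Ω ∩ (ball (0 : E) n)ᶜ)) atTop (𝓝 0) := by
    have h1 := tendsto_measure_iInter_atTop (μ := volume)
      (s := fun n : ℕ => Ω ∩ (ball (0 : E) n)ᶜ)
      (fun n => (ho.measurableSet.inter measurableSet_ball.compl).nullMeasurableSet)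
      (fun a b hab => inter_subset_inter_right _
        (compl_subset_compl.2 (ball_subset_ball (by exact_mod_cast hab))))
      ⟨0, ((measure_mono inter_subset_left).trans_lt hv).ne⟩
    have h2 : ⋂ n : ℕ, Ω ∩ (ball (0 : E) n)ᶜ = ∅ := by
      rw [eq_empty_iff_forall_notMem]
      intro x hx
      obtain ⟨n, hn⟩ := exists_nat_gt ‖x‖
      exact (mem_iInter.1 hx n).2 (by simpa using hn)
    rwa [h2, measure_empty] at h1
  have hpos : 0 < volume (ball (0 : E) (1 / 2)) := measure_ball_pos _ _ (by norm_num)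
  obtain ⟨n, hn⟩ := (hlim.eventually (gt_mem_nhds hpos)).exists
  have hbd : ∀ z, 1 / 2 ≤ f z → z ∈ closedBall (0 : E) (n + 1) := by
    intro z hz
    by_contra hc
    rw [mem_closedBall, dist_zero_right, not_le] at hc
    have h1 : ball z (1 / 2) ⊆ Ω ∩ (ball (0 : E) n)ᶜ := fun x hx => ⟨hball z _ hz hx, by
      simp only [mem_compl_iff, mem_ball, dist_zero_right, not_lt]
      rw [mem_ball, dist_eq_norm] at hx
      have := norm_sub_norm_le z x
      rw [norm_sub_rev] at this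
      linarith⟩
    have h2 := measure_mono (μ := volume) h1
    rw [Measure.addHaar_ball_center] at h2
    exact absurd hn (not_lt.2 h2)
  obtain ⟨z₀, -, hz₀⟩ := (isCompact_closedBall (0 : E) (n + 1)).exists_isMaxOn
    ⟨0, mem_closedBall_self (by positivity)⟩ hfc.continuousOn
  refine ⟨1 - max (1 / 2) (f z₀), ?_, ?_, fun z => ?_⟩
  · have := max_lt (by norm_num : (1 / 2 : ℝ) < 1) (hlt z₀)
    linarith
  · have := le_max_left (1 / 2 : ℝ) (f z₀)
    linarith
  · obtain ⟨x, hx, hx'⟩ := hcl.exists_infDist_eq_dist hne z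
    refine ⟨x, hx, ?_⟩
    rw [← dist_eq_norm, dist_comm, ← hx', sub_sub_cancel]
    rcases le_total (1 / 2) (f z) with h1 | h1
    · exact le_trans (hz₀ (hbd z h1)) (le_max_right _ _)
    · exact le_trans h1 (le_max_left _ _)

lemma tsupport_affine (u : E → ℝ) (z : E) (r : ℝ) :
    tsupport (fun x => u (z + r • x)) ⊆ (fun x : E => z + r • x) ⁻¹' tsupport u :=
  closure_minimal (fun _ hx => subset_tsupport _ hx)
    ((isClosed_tsupport u).preimage (by fun_prop))

lemma norm_strict {Ω : Set E} (ho : IsOpen Ω) (hv : volume Ω < ⊤) (hG : ProjBound Ω)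
    (h : ∀ z, Ω ≠ ball z 1) :
    ∃ δ : ℝ, 0 < δ ∧ ∀ u, IsTest Ω u → (4 * y1 + δ) * DD u ≤ NN u := by
  obtain ⟨ε₀, h0, h1, hin⟩ := inradius_lt ho hv fun z hz => h z (eq_ball_of_subset ho hG hz)
  obtain ⟨δ₁, hδ₁, hgap⟩ := point_gap h0 h1
  set ε := min 1 (δ₁ / (6 * (15 + δ₁ / 2))) with hε
  have hε0 : 0 < ε := lt_min one_pos (by positivity)
  have hε1 : ε ≤ 1 := min_le_left _ _
  have hε2 : ε * (6 * (15 + δ₁ / 2)) ≤ δ₁ := by
    rw [← le_div_iff₀ (by positivity)]; exact min_le_right _ _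
  obtain ⟨δ₂, hδ₂, hst⟩ := stab hε0 hε1
  refine ⟨min δ₂ (δ₁ / 2), lt_min hδ₂ (by positivity), ?_⟩
  refine reduce_connected ho fun u hu ⟨C, hC, hCΩ, huC⟩ => ?_
  by_cases hne : u = 0
  · rw [hne, DD_zero, mul_zero]; exact NN_nonneg _
  by_contra hc
  rw [not_le] at hc
  have hD := DD_nonneg u
  have hN := NN_nonneg u
  have hy := y1_gt
  have hy' := y1_lt
  have m1 := min_le_left δ₂ (δ₁ / 2)
  have m2 := min_le_right δ₂ (δ₁ / 2)
  obtain ⟨z, hz⟩ := hst u hu.sm hne (wd_bound hG hu.sm hne hC hCΩ huC) (by nlinarith)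
  obtain ⟨x₀, hx₀, hx₀'⟩ := hin z
  have hr : 0 < 1 + ε := by linarith
  have g1 := hgap _ (hu.sm.comp_affine z hr) (fun x hx => by
      have h2 := hz (tsupport_affine u z _ hx)
      simp only [mem_closedBall, dist_eq_norm, add_sub_cancel_left, norm_smul,
        Real.norm_of_nonneg hr.le, sub_zero] at h2 ⊢
      nlinarith [norm_nonneg x])
    ((1 + ε)⁻¹ • (x₀ - z)) (by
      rw [norm_smul, Real.norm_of_nonneg (by positivity), inv_mul_le_iff₀ hr]
      nlinarith) (by
      simp only [smul_smul, mul_inv_cancel₀ hr.ne', one_smul, add_sub_cancel]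
      by_contra h2
      exact hx₀ (hu.2.2 (subset_tsupport _ h2)))
  rw [NN_affine hu.sm z hr, DD_affine hu.sm z hr] at g1
  have g2 : NN u < (4 * y1 + δ₁ / 2) * DD u := by nlinarith
  have g3 : (1 + ε) ^ 2 * (4 * y1 + δ₁ / 2) ≤ 4 * y1 + δ₁ := by
    have : (1 + ε) ^ 2 ≤ 1 + 3 * ε := by nlinarith
    have h3 : (1 + ε) ^ 2 * (4 * y1 + δ₁ / 2) ≤ (1 + 3 * ε) * (4 * y1 + δ₁ / 2) := by gcongr
    nlinarith
  have g4 : (1 + ε) ^ 2 * NN u < (1 + ε) ^ 2 * ((4 * y1 + δ₁ / 2) * DD u) := by gcongr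
  nlinarith [mul_le_mul_of_nonneg_right g3 hD]

/-- Rescaling a competitor. -/
lemma rescale {p : ℝ} (hp : 0 < p) {Ω : Set E} (h : Admissible p Ω) :
    IsOpen ((fun x : E => (p / (2 * π)) • x) ⁻¹' Ω) ∧
      volume ((fun x : E => (p / (2 * π)) • x) ⁻¹' Ω) < ⊤ ∧
      ProjBound ((fun x : E => (p / (2 * π)) • x) ⁻¹' Ω) := by
  have hπ := pi_pos
  set r := p / (2 * π) with hr
  have hr0 : 0 < r := by positivity
  refine ⟨h.1.preimage (by fun_prop), ?_, fun β hβ hb => ?_⟩
  · rw [Measure.addHaar_preimage_smul volume hr0.ne']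
    exact ENNReal.mul_lt_top ENNReal.ofReal_lt_top h.2.1
  · have h1 := perim_lower h.1 h.2.1 hp.le h.2.2 (β := fun θ => r * β θ) (by fun_prop) fun θ => by
      have h2 : (fun x : E => ⟪x, e θ⟫) '' Ω =
          r • ((fun x : E => ⟪x, e θ⟫) '' ((fun x : E => r • x) ⁻¹' Ω)) := by
        ext s
        constructor
        · rintro ⟨x, hx, rfl⟩
          refine ⟨_, ⟨r⁻¹ • x, ?_, rfl⟩, ?_⟩
          · simpa [smul_smul, mul_inv_cancel₀ hr0.ne'] using hx
          · simp only [inner_smul_left, conj_trivial, smul_eq_mul]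
            field_simp
        · rintro ⟨_, ⟨x, hx, rfl⟩, rfl⟩
          exact ⟨r • x, hx, by simp only [inner_smul_left, conj_trivial, smul_eq_mul]⟩
      rw [h2, Measure.addHaar_smul, ENNReal.ofReal_mul hr0.le]
      simp only [Module.finrank_self, pow_one, abs_of_pos hr0]
      gcongr
      exact hb θ
    rw [intervalIntegral.integral_const_mul] at h1
    have h3 : 2 * p = r * (4 * π) := by rw [hr]; field_simp; ring
    rw [h3] at h1
    exact le_of_mul_le_mul_left h1 hr0

lemma le_buckling_of_rescale {r : ℝ} (hr : 0 < r) {Ω : Set E} (ho : IsOpen Ω) (hv : volume Ω < ⊤)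
    {μ : ℝ} (h : ∀ u, IsTest ((fun x : E => r • x) ⁻¹' Ω) u → μ * DD u ≤ NN u) :
    ENNReal.ofReal (μ / r ^ 2) ≤ buckling Ω := by
  refine le_buckling ho hv fun u hu => ?_
  have hs := hu.sm.comp_affine 0 hr
  have h1 := h _ ⟨hs.1, hs.2, fun x hx => by
    simpa using hu.2.2 (tsupport_affine u 0 r hx)⟩
  rw [NN_affine hu.sm 0 hr, DD_affine hu.sm 0 hr] at h1
  rw [div_mul_eq_mul_div, div_le_iff₀ (by positivity)]
  linarith

lemma buckling_ball_le (z : E) {r : ℝ} (hr : 0 < r) :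
    buckling (ball z r) ≤ ENNReal.ofReal (4 * y1 / r ^ 2) := by
  obtain ⟨c, C, hc, hex⟩ := exists_near_extremal (ε := 1 / 2) (by norm_num) (by norm_num)
  have hy := y1_gt
  have hy' := y1_lt
  refine ENNReal.le_of_forall_pos_le_add fun η hη _ => ?_
  have hη' : (0 : ℝ) < η := hη
  obtain ⟨v, hv, -, hQ, -, hvc⟩ := hex (min (c ^ 2 / 2) (η * r ^ 2 * c ^ 2 / 30))
    (lt_min (by positivity) (by positivity))
  have m1 := min_le_left (c ^ 2 / 2) (η * r ^ 2 * c ^ 2 / 30)
  have m2 := min_le_right (c ^ 2 / 2) (η * r ^ 2 * c ^ 2 / 30)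
  have hv0 := hvc 0 (by norm_num)
  have hsup := sup_bound hv.sm (hv.2.2.trans ball_subset_closedBall) 0
  have hc2 : c ^ 2 ≤ NN v := le_trans (by gcongr) hsup
  have hD0 := DD_nonneg v
  have hD : c ^ 2 / 30 ≤ DD v := by nlinarith
  have hDp : 0 < DD v := lt_of_lt_of_le (by positivity) hD
  have hri : 0 < r⁻¹ := by positivity
  have hs := hv.sm.comp_affine (-(r⁻¹ • z)) hri
  have ht : IsTest (ball z r) fun x => v (-(r⁻¹ • z) + r⁻¹ • x) := ⟨hs.1, hs.2, fun x hx => by
    have h2 : -(r⁻¹ • z) + r⁻¹ • x ∈ ball (0 : E) 1 := hv.2.2 (tsupport_affine v _ _ hx)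
    rw [mem_ball, dist_zero_right, neg_add_eq_sub, ← smul_sub, norm_smul,
      Real.norm_of_nonneg hri.le, inv_mul_lt_iff₀ hr, mul_one] at h2
    rwa [mem_ball, dist_eq_norm]⟩
  have hne : (fun x => v (-(r⁻¹ • z) + r⁻¹ • x)) ≠ 0 := fun h0 => by
    have := congrFun h0 z
    simp only [neg_add_cancel, Pi.zero_apply] at this
    linarith
  refine (buckling_le isOpen_ball ht hne).trans ?_
  rw [NN_affine hv.sm _ hri, DD_affine hv.sm _ hri, ← ENNReal.ofReal_coe_nnreal,
    ← ENNReal.ofReal_add (by positivity) hη'.le]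
  refine ENNReal.ofReal_le_ofReal ?_
  rw [div_le_iff₀ hDp, inv_pow, inv_mul_le_iff₀ (by positivity)]
  have e1 : r ^ 2 * ((4 * y1 / r ^ 2 + η) * DD v) = 4 * y1 * DD v + η * r ^ 2 * DD v := by
    field_simp
  have e2 : η * r ^ 2 * (c ^ 2 / 30) ≤ η * r ^ 2 * DD v := by gcongr
  rw [e1]
  linarith

lemma admissible_ball {p : ℝ} (hp : 0 < p) (z : E) : Admissible p (ball z (p / (2 * π))) := by
  have hπ := pi_pos
  refine ⟨isOpen_ball, measure_ball_lt_top, (perimeter_ball z (by positivity)).trans (le_of_eq ?_)⟩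
  congr 1; field_simp

theorem optimal_iff {p : ℝ} (hp : 0 < p) (Ω : Set E) :
    IsOptimal p Ω ↔ ∃ z : E, Ω = ball z (p / (2 * π)) := by
  have hπ := pi_pos
  have hr : 0 < p / (2 * π) := by positivity
  constructor
  · rintro ⟨hA, hmin⟩
    obtain ⟨ho, hv, hG⟩ := rescale hp hA
    set r := p / (2 * π) with hrd
    by_contra hc
    push Not at hc
    obtain ⟨δ, hδ, h⟩ := norm_strict ho hv hG fun z hz => hc (r • z) (by
      ext x
      have h1 : r⁻¹ • x ∈ (fun x : E => r • x) ⁻¹' Ω ↔ x ∈ Ω := by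
        simp [smul_smul, mul_inv_cancel₀ hr.ne']
      rw [← h1, hz, mem_ball, mem_ball, dist_eq_norm, dist_eq_norm]
      have h2 : x - r • z = r • (r⁻¹ • x - z) := by
        rw [smul_sub, smul_smul, mul_inv_cancel₀ hr.ne', one_smul]
      rw [h2, norm_smul, Real.norm_of_nonneg hr.le]
      exact (mul_lt_iff_lt_one_right hr).symm)
    have h1 := le_buckling_of_rescale hr hA.1 hA.2.1 h
    have h2 := (h1.trans (hmin _ (admissible_ball hp 0))).trans (buckling_ball_le 0 hr)
    have hy := y1_gt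
    rw [ENNReal.ofReal_le_ofReal_iff (by positivity), div_le_div_iff_of_pos_right (by positivity)]
      at h2
    linarith
  · rintro ⟨z, rfl⟩
    refine ⟨admissible_ball hp z, fun Ω' hA => (buckling_ball_le z hr).trans ?_⟩
    obtain ⟨ho, -, hG⟩ := rescale hp hA
    exact le_buckling_of_rescale hr hA.1 hA.2.1 (norm_sharp ho hG)

end Pool.Agent.MP_918781_an

end
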